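import Pool.Agent.W_a862e4_h18.RdB2

/-!
Small cuts after a sparse random deletion.
-/

set_option autoImplicit false
set_option linter.unusedSectionVars false

namespace Pool.MP_a862e4_co.H18

open Pool.MP_4929df_co.H91
open scoped Classical

variable {V : Type*} [Fintype V]

/-- If `¬ Cut3 H ρ X S A` then for a random `B` (probability `q'`) the number of components of
`X \ (A ∪ B)` in `cps` is at least two with probability `≥ q' ^ ρ (1 - q') ^ 2`: let `(P, Q)` be the separation,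
`zP ∈ (P \ Q) \ S`, `zQ ∈ (Q \ P) \ S`; if `P ∩ Q ⊆ B` and `zP, zQ ∉ B` then
`(P \ (A ∪ B), Q \ (A ∪ B))` is a separation of `X \ (A ∪ B)` of order 0 (`two_le_cps`), so
`1 ≤ fM H X S (A ∪ B)`.  `Ex_sub_disj` for `P ∩ Q` and `{zP, zQ}`
(`q' ^ |P ∩ Q| ≥ q' ^ ρ`, two elements). -/
theorem cut_one {H : SimpleGraph V} {ρ : ℕ} {X S A : Finset V} (hA : ¬ Cut3 H ρ X S A) {q' : ℝ}
    (h0 : 0 ≤ q') (h1 : q' ≤ 1) :
    q' ^ ρ * (1 - q') ^ 2 ≤ Ex Finset.univ q' (fun B => fM H X S (A ∪ B)) := by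
  unfold Cut3 at hA
  push Not at hA
  obtain ⟨P, Q, hs, hc, hP, hQ⟩ := hA
  obtain ⟨zP, hzP, hzPS⟩ := Finset.not_subset.1 hP
  obtain ⟨zQ, hzQ, hzQS⟩ := Finset.not_subset.1 hQ
  rw [Finset.mem_sdiff] at hzP hzQ
  have hne : zP ≠ zQ := fun h => hzQ.2 (h ▸ hzP.1)
  have hdis : Disjoint (P ∩ Q) ({zP, zQ} : Finset V) := by
    rw [Finset.disjoint_left]
    intro x hx hx2
    rw [Finset.mem_inter] at hx
    rw [Finset.mem_insert, Finset.mem_singleton] at hx2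
    rcases hx2 with rfl | rfl
    · exact hzP.2 hx.2
    · exact hzQ.2 hx.1
  have hkey : ∀ B : Finset V, ind (P ∩ Q ⊆ B ∧ Disjoint ({zP, zQ} : Finset V) B) ≤
      fM H X S (A ∪ B) := by
    intro B
    by_cases hB : P ∩ Q ⊆ B ∧ Disjoint ({zP, zQ} : Finset V) B
    · rw [ind_true hB]
      obtain ⟨hB1, hB2⟩ := hB
      rw [Finset.disjoint_left] at hB2
      have hzPB : zP ∉ B := hB2 (by simp)
      have hzQB : zQ ∉ B := hB2 (by simp)
      have hzPX : zP ∈ X \ A := hs.left_subset hzP.1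
      have hzQX : zQ ∈ X \ A := hs.right_subset hzQ.1
      rw [Finset.mem_sdiff] at hzPX hzQX
      have hsep : Sep H (X \ (A ∪ B)) (P \ (A ∪ B)) (Q \ (A ∪ B)) := by
        constructor
        · ext x
          simp only [Finset.mem_union, Finset.mem_sdiff]
          have : x ∈ P ∪ Q ↔ x ∈ X \ A := by rw [hs.1]
          rw [Finset.mem_union, Finset.mem_sdiff] at this
          tauto
        · intro a ha haQ b hb hbP
          rw [Finset.mem_sdiff] at ha haQ hb hbP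
          exact hs.2 a ha.1 (fun h => haQ ⟨h, ha.2⟩) b hb.1 (fun h => hbP ⟨h, hb.2⟩)
      have hint : (P \ (A ∪ B)) ∩ (Q \ (A ∪ B)) = ∅ := by
        rw [Finset.eq_empty_iff_forall_notMem]
        intro x hx
        rw [Finset.mem_inter, Finset.mem_sdiff, Finset.mem_sdiff, Finset.mem_union] at hx
        exact hx.1.2 (Or.inr (hB1 (Finset.mem_inter.2 ⟨hx.1.1, hx.2.1⟩)))
      have h2 := two_le_cps (S := S) hsep hint
        ⟨zP, by simp [hzP.1, hzPX.2, hzPB, hzPS]⟩ ⟨zQ, by simp [hzQ.1, hzQX.2, hzQB, hzQS]⟩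
      unfold fM
      have : 1 ≤ (cps H S (X \ (A ∪ B))).card - 1 := by omega
      exact_mod_cast this
    · rw [ind_false hB]
      exact fM_nonneg H X S _
  have h3 := Ex_mono (S := Finset.univ) h0 h1 (fun B _ => hkey B)
  rw [Ex_sub_disj (Finset.subset_univ _) (Finset.subset_univ _) hdis,
    Finset.card_pair hne] at h3
  refine le_trans ?_ h3
  exact mul_le_mul_of_nonneg_right (pow_le_pow_of_le_one h0 h1 hc) (sq_nonneg _)

/-- `qL = q + q' - q q'` with `q = 1 / 2 ^ 22`, `q' = (qL - q) / (1 - q)`, `1/64 ≤ q' ≤ 1/16`,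
`(1 - q') ^ 2 ≥ 1/2`; `Ex_cup`, `cut_one` and `Ex_mono`:
`Ex (ind (¬ Cut3)) * (1/64) ^ ρ * (1/2) ≤ Ex qL fM`. -/
theorem cut_prob {H : SimpleGraph V} {ρ : ℕ} {X S : Finset V} {qL : ℝ} (h0 : 1 / 32 ≤ qL)
    (h1 : qL ≤ 1 / 16) :
    Ex Finset.univ (1 / 2 ^ 22 : ℝ) (fun A => ind (¬ Cut3 H ρ X S A)) ≤
      2 * 64 ^ ρ * Ex Finset.univ qL (fM H X S) := by
  obtain ⟨q, hq⟩ : ∃ q : ℝ, q = 1 / 2 ^ 22 := ⟨_, rfl⟩
  rw [← hq]
  obtain ⟨q', hq'⟩ : ∃ q' : ℝ, q' = (qL - q) / (1 - q) := ⟨_, rfl⟩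
  have hq0 : 0 ≤ q := by rw [hq]; positivity
  have hq1 : q ≤ 1 / 64 := by rw [hq]; norm_num
  have hq2 : 0 < 1 - q := by linarith
  have e : q + q' - q * q' = qL := by
    rw [hq']; field_simp; ring
  have ha : 1 / 64 ≤ q' := by
    rw [hq', le_div_iff₀ hq2]
    linarith
  have hb : q' ≤ 1 / 16 := by
    rw [hq', div_le_iff₀ hq2]
    nlinarith
  have hpt : ∀ A : Finset V, (1 / 64) ^ ρ * (1 / 2) * ind (¬ Cut3 H ρ X S A) ≤
      Ex Finset.univ q' (fun B => fM H X S (A ∪ B)) := by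
    intro A
    by_cases hA : Cut3 H ρ X S A
    · rw [ind_false (not_not.2 hA), mul_zero]
      have := Ex_mono (S := Finset.univ) (f := fun _ => (0 : ℝ)) (by linarith : 0 ≤ q')
        (by linarith : q' ≤ 1) (fun B _ => fM_nonneg H X S (A ∪ B))
      rwa [Ex_const] at this
    · rw [ind_true hA, mul_one]
      refine le_trans ?_ (cut_one hA (by linarith) (by linarith))
      have h3 : ((1 : ℝ) / 64) ^ ρ ≤ q' ^ ρ := pow_le_pow_left₀ (by norm_num) ha ρ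
      have h4 : (1 : ℝ) / 2 ≤ (1 - q') ^ 2 := by nlinarith
      exact mul_le_mul h3 h4 (by norm_num) (by positivity)
  have h5 := Ex_mono (S := Finset.univ) hq0 (by linarith : q ≤ 1) (fun A _ => hpt A)
  rw [Ex_mul_left, Ex_cup, e] at h5
  have h6 : (0 : ℝ) < 64 ^ ρ := by positivity
  have h7 : ((1 : ℝ) / 64) ^ ρ * 64 ^ ρ = 1 := by
    rw [← mul_pow]; norm_num
  have h8 := mul_le_mul_of_nonneg_left h5 (by positivity : (0 : ℝ) ≤ 2 * 64 ^ ρ)
  refine le_trans (le_of_eq ?_) h8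
  have : 2 * 64 ^ ρ * ((1 / 64) ^ ρ * (1 / 2) *
      Ex Finset.univ q (fun A => ind (¬ Cut3 H ρ X S A))) =
      (((1 : ℝ) / 64) ^ ρ * 64 ^ ρ) * Ex Finset.univ q (fun A => ind (¬ Cut3 H ρ X S A)) := by ring
  rw [this, h7, one_mul]

end Pool.MP_a862e4_co.H18
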