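import Pool.Agent.W_a862e4_h18.Ex

/-!
Random subsets: tails.
-/

set_option autoImplicit false
set_option linter.unusedSectionVars false

namespace Pool.MP_a862e4_co.H18

open Pool.MP_4929df_co.H91
open scoped Classical

variable {V : Type*} [Fintype V]

theorem ExT_self (P : Finset V) (q : ℝ) : Ex P q (fun A => ind (P ⊆ A)) = q ^ P.card := by
  unfold Ex
  rw [Finset.sum_eq_single P]
  · show q ^ P.card * (1 - q) ^ (P \ P).card * ind (P ⊆ P) = q ^ P.card
    rw [Finset.sdiff_self, Finset.card_empty, pow_zero, ind_true Finset.Subset.rfl]; ring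
  · intro A hA hne
    show q ^ A.card * (1 - q) ^ (P \ A).card * ind (P ⊆ A) = 0
    rw [ind_false (fun h => hne (Finset.Subset.antisymm (Finset.mem_powerset.1 hA) h)), mul_zero]
  · intro h
    exact absurd (Finset.mem_powerset.2 Finset.Subset.rfl) h

theorem ExT_disj (Q : Finset V) (q : ℝ) :
    Ex Q q (fun A => ind (Disjoint Q A)) = (1 - q) ^ Q.card := by
  unfold Ex
  rw [Finset.sum_eq_single ∅]
  · show q ^ (∅ : Finset V).card * (1 - q) ^ (Q \ ∅).card * ind (Disjoint Q ∅) = (1 - q) ^ Q.card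
    rw [Finset.sdiff_empty, Finset.card_empty, pow_zero, ind_true (Finset.disjoint_empty_right _)]
    ring
  · intro A hA hne
    show q ^ A.card * (1 - q) ^ (Q \ A).card * ind (Disjoint Q A) = 0
    rw [ind_false, mul_zero]
    intro h
    apply hne
    have hAQ := Finset.mem_powerset.1 hA
    rw [Finset.eq_empty_iff_forall_notMem]
    intro x hx
    exact (Finset.disjoint_left.1 h) (hAQ hx) hx
  · intro h
    exact absurd (Finset.mem_powerset.2 (Finset.empty_subset _)) h

theorem ExT_congr_prop {S : Finset V} {q : ℝ} {f g : Finset V → Prop}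
    (h : ∀ A ⊆ S, (f A ↔ g A)) : Ex S q (fun A => ind (f A)) = Ex S q (fun A => ind (g A)) :=
  Ex_congr fun A hA => by
    unfold ind
    by_cases h1 : f A
    · rw [if_pos h1, if_pos ((h A hA).1 h1)]
    · rw [if_neg h1, if_neg (fun h2 => h1 ((h A hA).2 h2))]

theorem ExT_sub_iff {P A : Finset V} : P ⊆ A ↔ P ⊆ A ∩ P :=
  ⟨fun h => Finset.subset_inter h Finset.Subset.rfl, fun h => h.trans Finset.inter_subset_left⟩

theorem ExT_disj_iff {Q A : Finset V} : Disjoint Q A ↔ Disjoint Q (A ∩ Q) := by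
  constructor
  · intro h; exact Finset.disjoint_of_subset_right Finset.inter_subset_left h
  · intro h
    rw [Finset.disjoint_left] at h ⊢
    intro x hx hxA
    exact h hx (Finset.mem_inter.2 ⟨hxA, hx⟩)

theorem ExT_ind_congr {P Q : Prop} (h : P ↔ Q) : ind P = ind Q := by rw [propext h]

theorem ExT_nonneg {S : Finset V} {q : ℝ} (h0 : 0 ≤ q) (h1 : q ≤ 1) {f : Finset V → ℝ}
    (hf : ∀ A, 0 ≤ f A) : 0 ≤ Ex S q f := by
  have := Ex_mono (S := S) h0 h1 (f := fun _ => 0) (g := f) (fun A _ => hf A)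
  rwa [Ex_const] at this

/-- `P ⊆ A` and `Q` is disjoint from `A` -/
theorem Ex_sub_disj {S P Q : Finset V} (hP : P ⊆ S) (hQ : Q ⊆ S) (hd : Disjoint P Q) (q : ℝ) :
    Ex S q (fun A => ind (P ⊆ A ∧ Disjoint Q A)) = q ^ P.card * (1 - q) ^ Q.card := by
  have e1 : Ex S q (fun A => ind (P ⊆ A ∧ Disjoint Q A)) =
      Ex S q (fun A => ind (P ⊆ A) * ind (Disjoint Q A)) := Ex_congr fun A _ => ind_and _ _
  rw [e1, Ex_indep hP hQ hd q (fun A => ind (P ⊆ A)) (fun A => ind (Disjoint Q A))
    (fun A _ => ExT_ind_congr ExT_sub_iff) (fun A _ => ExT_ind_congr ExT_disj_iff),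
    Ex_local hP q (fun A => ind (P ⊆ A)) (fun A _ => ExT_ind_congr ExT_sub_iff),
    Ex_local hQ q (fun A => ind (Disjoint Q A)) (fun A _ => ExT_ind_congr ExT_disj_iff),
    ExT_self, ExT_disj]

/-- `ind (k ≤ |N ∩ A|) ≤ ∑ P ∈ N.powersetCard k, ind (P ⊆ A)` and `Ex_sub_disj` with `Q = ∅` -/
theorem Ex_tail {S N : Finset V} (hN : N ⊆ S) {q : ℝ} (h0 : 0 ≤ q) (h1 : q ≤ 1) (k : ℕ) :
    Ex S q (fun A => ind (k ≤ (N ∩ A).card)) ≤ (N.card.choose k) * q ^ k := by
  calc Ex S q (fun A => ind (k ≤ (N ∩ A).card))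
      ≤ Ex S q (fun A => ∑ P ∈ N.powersetCard k, ind (P ⊆ A ∧ Disjoint ∅ A)) := by
        refine Ex_mono h0 h1 fun A _ => ?_
        refine le_trans (ind_mono (Q := ∃ P ∈ N.powersetCard k, P ⊆ A ∧ Disjoint ∅ A) ?_)
          (ind_exists_le _ _)
        intro hk
        obtain ⟨P, hP, hPk⟩ := Finset.exists_subset_card_eq hk
        exact ⟨P, Finset.mem_powersetCard.2 ⟨hP.trans Finset.inter_subset_left, hPk⟩,
          hP.trans Finset.inter_subset_right, Finset.disjoint_empty_left _⟩
    _ = ∑ P ∈ N.powersetCard k, Ex S q (fun A => ind (P ⊆ A ∧ Disjoint ∅ A)) := Ex_sum _ _ _ _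
    _ = ∑ P ∈ N.powersetCard k, q ^ k := by
        refine Finset.sum_congr rfl fun P hP => ?_
        rw [Finset.mem_powersetCard] at hP
        rw [Ex_sub_disj (hP.1.trans hN) (Finset.empty_subset _) (Finset.disjoint_empty_right _),
          hP.2, Finset.card_empty, pow_zero, mul_one]
    _ = (N.card.choose k) * q ^ k := by
        rw [Finset.sum_const, Finset.card_powersetCard, nsmul_eq_mul]

theorem ExT_one {S R : Finset V} (hR : R ⊆ S) (hc : R.card ≤ 2) {q : ℝ} (h0 : 0 ≤ q)
    (h1 : q ≤ 1) : Ex S q (fun A => ind (¬ Disjoint R A)) ≤ 2 * q := by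
  calc Ex S q (fun A => ind (¬ Disjoint R A))
      ≤ Ex S q (fun A => ∑ x ∈ R, ind ({x} ⊆ A ∧ Disjoint ∅ A)) := by
        refine Ex_mono h0 h1 fun A _ => ?_
        refine le_trans (ind_mono (Q := ∃ x ∈ R, {x} ⊆ A ∧ Disjoint ∅ A) ?_) (ind_exists_le _ _)
        intro hnd
        rw [Finset.not_disjoint_iff] at hnd
        obtain ⟨x, hx, hxA⟩ := hnd
        exact ⟨x, hx, Finset.singleton_subset_iff.2 hxA, Finset.disjoint_empty_left _⟩
    _ = ∑ x ∈ R, Ex S q (fun A => ind ({x} ⊆ A ∧ Disjoint ∅ A)) := Ex_sum _ _ _ _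
    _ = ∑ x ∈ R, q := by
        refine Finset.sum_congr rfl fun x hx => ?_
        rw [Ex_sub_disj (Finset.singleton_subset_iff.2 (hR hx)) (Finset.empty_subset _)
          (Finset.disjoint_empty_right _), Finset.card_singleton, pow_one, Finset.card_empty,
          pow_zero, mul_one]
    _ = R.card * q := by rw [Finset.sum_const, nsmul_eq_mul]
    _ ≤ 2 * q := by
        apply mul_le_mul_of_nonneg_right _ h0
        exact_mod_cast hc

theorem ExT_all {S : Finset V} {m : ℕ} (R : Fin m → Finset V) (hR : ∀ i, R i ⊆ S)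
    (hc : ∀ i, (R i).card ≤ 2) (hd : ∀ i j, i ≠ j → Disjoint (R i) (R j)) {q : ℝ} (h0 : 0 ≤ q)
    (h1 : q ≤ 1) (I : Finset (Fin m)) :
    Ex S q (fun A => ind (∀ i ∈ I, ¬ Disjoint (R i) A)) ≤ (2 * q) ^ I.card := by
  induction I using Finset.induction_on with
  | empty =>
    rw [Finset.card_empty, pow_zero]
    refine le_trans (Ex_mono h0 h1 (g := fun _ => 1) fun A _ => ind_le_one _) ?_
    rw [Ex_const]
  | insert i I hi ih =>
    have e1 : Ex S q (fun A => ind (∀ j ∈ insert i I, ¬ Disjoint (R j) A)) =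
        Ex S q (fun A => ind (¬ Disjoint (R i) A) * ind (∀ j ∈ I, ¬ Disjoint (R j) A)) := by
      refine Ex_congr fun A _ => ?_
      rw [← ind_and]
      exact ExT_ind_congr (Finset.forall_mem_insert _ _ _)
    have hloc : ∀ A : Finset V, ∀ T : Finset V, ∀ j, R j ⊆ T →
        (¬ Disjoint (R j) A ↔ ¬ Disjoint (R j) (A ∩ T)) := by
      intro A T j hj
      rw [not_iff_not]
      constructor
      · intro h; exact Finset.disjoint_of_subset_right Finset.inter_subset_left h
      · intro h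
        rw [Finset.disjoint_left] at h ⊢
        intro x hx hxA
        exact h hx (Finset.mem_inter.2 ⟨hxA, hj hx⟩)
    rw [e1, Ex_indep (T := R i) (T' := I.biUnion R) (hR i)
      (Finset.biUnion_subset.2 fun j _ => hR j) ?_ q (fun A => ind (¬ Disjoint (R i) A))
      (fun A => ind (∀ j ∈ I, ¬ Disjoint (R j) A)) ?_ ?_, Finset.card_insert_of_notMem hi, pow_succ,
      mul_comm ((2 * q) ^ I.card)]
    · exact mul_le_mul (ExT_one (hR i) (hc i) h0 h1) ih (ExT_nonneg h0 h1 fun A => ind_nonneg _)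
        (by linarith)
    · rw [Finset.disjoint_biUnion_right]
      intro j hj
      exact hd i j (by rintro rfl; exact hi hj)
    · intro A _
      exact ExT_ind_congr (hloc A (R i) i Finset.Subset.rfl)
    · intro A _
      apply ExT_ind_congr
      refine forall_congr' fun j => forall_congr' fun hj => ?_
      exact hloc A (I.biUnion R) j (Finset.subset_biUnion_of_mem R hj)

/-- Tail for a family of pairwise disjoint sets with at most two elements: the indicator is at most
the sum over the `k`-subsets `I` of `Fin m` of `ind (∀ i ∈ I, ¬ Disjoint (R i) A)`; by independence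
(`Ex_indep`, induction on `I`) its expectation is the product of the `Ex S q (ind (¬ Disjoint (R i) A))`
`= 1 - (1 - q) ^ |R i| ≤ 2 q`. -/
theorem Ex_family {S : Finset V} {m : ℕ} (R : Fin m → Finset V) (hR : ∀ i, R i ⊆ S)
    (hc : ∀ i, (R i).card ≤ 2) (hd : ∀ i j, i ≠ j → Disjoint (R i) (R j)) {q : ℝ} (h0 : 0 ≤ q)
    (h1 : q ≤ 1) (k : ℕ) :
    Ex S q (fun A => ind (k ≤ (Finset.univ.filter (fun i => ¬ Disjoint (R i) A)).card)) ≤
      (m.choose k) * (2 * q) ^ k := by
  calc Ex S q (fun A => ind (k ≤ (Finset.univ.filter (fun i => ¬ Disjoint (R i) A)).card))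
      ≤ Ex S q (fun A => ∑ I ∈ (Finset.univ : Finset (Fin m)).powersetCard k,
          ind (∀ i ∈ I, ¬ Disjoint (R i) A)) := by
        refine Ex_mono h0 h1 fun A _ => ?_
        refine le_trans (ind_mono (Q := ∃ I ∈ (Finset.univ : Finset (Fin m)).powersetCard k,
          ∀ i ∈ I, ¬ Disjoint (R i) A) ?_) (ind_exists_le _ _)
        intro hk
        obtain ⟨I, hI, hIk⟩ := Finset.exists_subset_card_eq hk
        exact ⟨I, Finset.mem_powersetCard.2 ⟨Finset.subset_univ _, hIk⟩,
          fun i hi => (Finset.mem_filter.1 (hI hi)).2⟩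
    _ = ∑ I ∈ (Finset.univ : Finset (Fin m)).powersetCard k,
          Ex S q (fun A => ind (∀ i ∈ I, ¬ Disjoint (R i) A)) := Ex_sum _ _ _ _
    _ ≤ ∑ I ∈ (Finset.univ : Finset (Fin m)).powersetCard k, (2 * q) ^ k := by
        refine Finset.sum_le_sum fun I hI => ?_
        have := ExT_all R hR hc hd h0 h1 I
        rwa [(Finset.mem_powersetCard.1 hI).2] at this
    _ = (m.choose k) * (2 * q) ^ k := by
        rw [Finset.sum_const, Finset.card_powersetCard, nsmul_eq_mul, Finset.card_univ,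
          Fintype.card_fin]

end Pool.MP_a862e4_co.H18
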