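import Pool.Agent.W_a862e4_h18.FrC
import Pool.Agent.W_a862e4_h18.ExT

/-!
The probability of `Dom`.
-/

set_option autoImplicit false
set_option linter.unusedSectionVars false

namespace Pool.MP_a862e4_co.H18

open Pool.MP_4929df_co.H91
open scoped Classical

variable {V : Type*} [Fintype V]

/-- For `z ∈ X \ S`, `N = nb H X z`, `75 m ≤ |N|`: if at most `3 m` neighbours of `z` are in
`(X \ S) \ A`, then `|N ∩ A| ≥ |N| - 6 m - 3 m ≥ |N| / 2`, i.e. `(|N| + 1) / 2 ≤ |N ∩ A|`; `Ex_tail` with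
`choose ≤ 2 ^ |N|` and `q ≤ 1/16`: `2 ^ |N| (1/16) ^ ((|N|+1)/2) ≤ (1/2) ^ |N| ≤ (1/2) ^ (75 m)`.  Sum over `z`
(`ind_exists_le`, `Ex_mono`, `Ex_sum`). -/
theorem dom_prob {H : SimpleGraph V} {m : ℕ} {X S : Finset V} (h : Fr H m X S) {q : ℝ}
    (h0 : 0 ≤ q) (h1 : q ≤ 1 / 16) :
    Ex Finset.univ q (fun A => ind (¬ Dom H m X S A)) ≤
      Fintype.card V * (1 / 2 : ℝ) ^ (75 * m) := by
  have hq1 : q ≤ 1 := by linarith
  have key : ∀ z ∈ X \ S, ∀ A : Finset V,
      ¬ 3 * m < (nb H ((X \ S) \ A) z).card →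
        ((nb H X z).card + 1) / 2 ≤ (nb H X z ∩ A).card := by
    intro z hz A hA
    have h2 : (nb H X z).card ≤ (S.card + (nb H ((X \ S) \ A) z).card) + (nb H X z ∩ A).card := by
      have hsub : nb H X z ⊆ (S ∪ nb H ((X \ S) \ A) z) ∪ (nb H X z ∩ A) := by
        intro w hw
        by_cases hwS : w ∈ S
        · exact Finset.mem_union_left _ (Finset.mem_union_left _ hwS)
        · by_cases hwA : w ∈ A
          · exact Finset.mem_union_right _ (Finset.mem_inter.2 ⟨hw, hwA⟩)
          · refine Finset.mem_union_left _ (Finset.mem_union_right _ ?_)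
            rw [mem_nbf] at hw ⊢
            exact ⟨Finset.mem_sdiff.2 ⟨Finset.mem_sdiff.2 ⟨hw.1, hwS⟩, hwA⟩, hw.2⟩
      refine (Finset.card_le_card hsub).trans ((Finset.card_union_le _ _).trans ?_)
      exact Nat.add_le_add_right (Finset.card_union_le _ _) _
    have h3 := h.deg z hz
    have h4 := h.cS
    omega
  have hz : ∀ z ∈ X \ S, Ex Finset.univ q
      (fun A => ind (¬ 3 * m < (nb H ((X \ S) \ A) z).card)) ≤ (1 / 2 : ℝ) ^ (75 * m) := by
    intro z hz
    obtain ⟨n, hn⟩ : ∃ n, n = (nb H X z).card := ⟨_, rfl⟩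
    obtain ⟨k, hk⟩ : ∃ k, k = (n + 1) / 2 := ⟨_, rfl⟩
    calc Ex Finset.univ q (fun A => ind (¬ 3 * m < (nb H ((X \ S) \ A) z).card))
        ≤ Ex Finset.univ q (fun A => ind (k ≤ (nb H X z ∩ A).card)) := by
          refine Ex_mono h0 hq1 fun A _ => ind_mono fun hA => ?_
          have := key z hz A hA
          rw [hk, hn]
          exact this
      _ ≤ ((nb H X z).card.choose k) * q ^ k :=
          Ex_tail (Finset.subset_univ _) h0 hq1 k
      _ ≤ (2 : ℝ) ^ n * (1 / 16) ^ k := by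
          apply mul_le_mul _ (pow_le_pow_left₀ h0 h1 k) (by positivity) (by positivity)
          rw [← hn]
          have h5 : n.choose k ≤ 2 ^ n := Nat.choose_le_two_pow n k
          exact_mod_cast h5
      _ ≤ (2 : ℝ) ^ n * (1 / 4) ^ n := by
          apply mul_le_mul_of_nonneg_left _ (by positivity)
          have h6 : (1 / 16 : ℝ) ^ k = (1 / 4) ^ (2 * k) := by
            rw [pow_mul]
            norm_num
          rw [h6]
          exact pow_le_pow_of_le_one (by norm_num) (by norm_num) (by omega)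
      _ = (1 / 2 : ℝ) ^ n := by
          rw [← mul_pow]
          norm_num
      _ ≤ (1 / 2 : ℝ) ^ (75 * m) := by
          apply pow_le_pow_of_le_one (by norm_num) (by norm_num)
          rw [hn]
          exact h.deg z hz
  calc Ex Finset.univ q (fun A => ind (¬ Dom H m X S A))
      ≤ Ex Finset.univ q (fun A => ∑ z ∈ X \ S,
          ind (¬ 3 * m < (nb H ((X \ S) \ A) z).card)) := by
        refine Ex_mono h0 hq1 fun A _ => ?_
        refine le_trans (ind_mono ?_) (ind_exists_le _ _)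
        intro hD
        by_contra hcon
        push Not at hcon
        exact hD fun z hz => hcon z hz
    _ = ∑ z ∈ X \ S, Ex Finset.univ q
          (fun A => ind (¬ 3 * m < (nb H ((X \ S) \ A) z).card)) :=
        Ex_sum _ _ _ _
    _ ≤ ∑ z ∈ X \ S, (1 / 2 : ℝ) ^ (75 * m) := Finset.sum_le_sum hz
    _ = ((X \ S).card : ℝ) * (1 / 2 : ℝ) ^ (75 * m) := by
        rw [Finset.sum_const, nsmul_eq_mul]
    _ ≤ Fintype.card V * (1 / 2 : ℝ) ^ (75 * m) := by
        apply mul_le_mul_of_nonneg_right _ (by positivity)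
        exact_mod_cast Finset.card_le_univ _

end Pool.MP_a862e4_co.H18
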