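import Pool.Agent.W_a862e4_h18.FrA

/-!
Connectors at a component.
-/

set_option autoImplicit false
set_option linter.unusedSectionVars false

namespace Pool.MP_a862e4_co.H18

open Pool.MP_4929df_co.H91
open scoped Classical

variable {V : Type*} [Fintype V]

/-- **Connectors at a set `K`** that meets `X \ S` and leaves more than `3 m` vertices of `X \ S`
outside `K ∪ nbs H X K`.  `ZP = (X \ S) ∩ (K ∪ nbs H X K)`, `ZQ` the rest of `X \ S`.  `|ZP| > 3 m`: for
`z ∈ K \ S` all neighbours of `z` in `X` are in `K ∪ nbs H X K`, so `|ZP| ≥ 75 m - 6 m`, and `z ∈ ZP`.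
For a connector `(u, x, w)`: if `x = w`: `u ∉ K` (else `w ∈ K ∪ nbs`), so `u ∈ nbs`; take `a = u`,
`R = {w}`.  If `x ∈ S`: `x ∉ K` (else `w ∈ K ∪ nbs`); if `x ∈ nbs` take `a = x`, `R = {w}`; otherwise `u ∉ K`
(else `x ∈ nbs`), so `u ∈ nbs`, take `a = u`, `R = {x, w}`.  `w ∈ R \ S`. -/
theorem Fr.comp_connectors {H : SimpleGraph V} {m : ℕ} {X S : Finset V} (h : Fr H m X S)
    (K : Finset V) (hKX : K ⊆ X) (hKS : (K \ S).Nonempty)
    (hbig : 3 * m < ((X \ S) \ (K ∪ nbs H X K)).card) :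
    ∃ (a : Fin m → V) (R : Fin m → Finset V),
      (∀ i, a i ∈ nbs H X K ∧ R i ⊆ X \ (K ∪ nbs H X K) ∧ (R i).card ≤ 2 ∧
        Cn H (insert (a i) (R i : Set V)) ∧ (R i \ S).Nonempty) ∧
      (∀ i j, i ≠ j → a i ≠ a j) ∧ ∀ i j, i ≠ j → Disjoint (R i) (R j) := by
  set M := K ∪ nbs H X K with hM
  -- neighbours of `K` in `X` are in `M`
  have hnbM : ∀ z ∈ K, ∀ w ∈ X, H.Adj z w → w ∈ M := by
    intro z hz w hw hzw
    by_cases hwK : w ∈ K
    · exact Finset.mem_union_left _ hwK
    · exact Finset.mem_union_right _ (mem_nbs.2 ⟨hw, hwK, z, hz, hzw⟩)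
  have hP : 3 * m < ((X \ S) ∩ M).card := by
    obtain ⟨z, hz⟩ := hKS
    rw [Finset.mem_sdiff] at hz
    have hzX : z ∈ X \ S := Finset.mem_sdiff.2 ⟨hKX hz.1, hz.2⟩
    have h1 := h.deg z hzX
    have h2 : nb H X z \ S ⊆ (X \ S) ∩ M := by
      intro w hw
      rw [Finset.mem_sdiff, mem_nbf] at hw
      exact Finset.mem_inter.2 ⟨Finset.mem_sdiff.2 ⟨hw.1.1, hw.2⟩, hnbM z hz.1 w hw.1.1 hw.1.2⟩
    have h3 := Finset.card_le_card h2
    have h4 := Finset.le_card_sdiff S (nb H X z)
    have h5 := h.cS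
    have h6 : 0 < ((X \ S) ∩ M).card :=
      Finset.card_pos.2 ⟨z, Finset.mem_inter.2 ⟨hzX, Finset.mem_union_left _ hz.1⟩⟩
    omega
  obtain ⟨u, x, w, h1, h2⟩ := h.connectors ((X \ S) ∩ M) ((X \ S) \ M)
    (by rw [Finset.union_comm]; exact Finset.sdiff_union_inter _ _)
    (Finset.disjoint_left.2 fun t ht ht' =>
      (Finset.mem_sdiff.1 ht').2 (Finset.mem_inter.1 ht).2) hP hbig
  have key : ∀ i, ∃ (a : V) (R : Finset V), (a ∈ nbs H X K ∧ R ⊆ X \ M ∧ R.card ≤ 2 ∧
      Cn H (insert a (R : Set V)) ∧ (R \ S).Nonempty) ∧ a ∈ ({u i, x i, w i} : Finset V) ∧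
      R ⊆ ({u i, x i, w i} : Finset V) := by
    intro i
    obtain ⟨hu, hw, hor⟩ := h1 i
    rw [Finset.mem_inter, Finset.mem_sdiff] at hu
    rw [Finset.mem_sdiff, Finset.mem_sdiff] at hw
    have hwR : ({w i} : Finset V) \ S = {w i} := by
      ext t
      rw [Finset.mem_sdiff, Finset.mem_singleton]
      exact ⟨fun ht => ht.1, fun ht => ⟨ht, by rw [ht]; exact hw.1.2⟩⟩
    rcases hor with ⟨hxw, huw⟩ | ⟨hxS, hux, hxw⟩
    · -- direct edge
      have huK : u i ∉ K := fun hK => hw.2 (hnbM _ hK _ hw.1.1 huw)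
      have hun : u i ∈ nbs H X K := (Finset.mem_union.1 hu.2).resolve_left huK
      refine ⟨u i, {w i}, ⟨hun, ?_, ?_, ?_, ?_⟩, by simp, ?_⟩
      · intro t ht
        rw [Finset.mem_singleton] at ht
        rw [ht]; exact Finset.mem_sdiff.2 ⟨hw.1.1, hw.2⟩
      · simp
      · have := cn_pair huw
        simpa using this
      · rw [hwR]; exact Finset.singleton_nonempty _
      · intro t ht
        rw [Finset.mem_singleton] at ht
        rw [ht]; simp
    · have hxX : x i ∈ X := h.SX hxS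
      have hxK : x i ∉ K := fun hK => hw.2 (hnbM _ hK _ hw.1.1 hxw)
      by_cases hxn : x i ∈ nbs H X K
      · refine ⟨x i, {w i}, ⟨hxn, ?_, ?_, ?_, ?_⟩, by simp, ?_⟩
        · intro t ht
          rw [Finset.mem_singleton] at ht
          rw [ht]; exact Finset.mem_sdiff.2 ⟨hw.1.1, hw.2⟩
        · simp
        · have := cn_pair hxw
          simpa using this
        · rw [hwR]; exact Finset.singleton_nonempty _
        · intro t ht
          rw [Finset.mem_singleton] at ht
          rw [ht]; simp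
      · have huK : u i ∉ K := fun hK => hxn (mem_nbs.2 ⟨hxX, hxK, u i, hK, hux⟩)
        have hun : u i ∈ nbs H X K := (Finset.mem_union.1 hu.2).resolve_left huK
        refine ⟨u i, {x i, w i}, ⟨hun, ?_, Finset.card_le_two, ?_, ?_⟩, by simp, ?_⟩
        · intro t ht
          rw [Finset.mem_insert, Finset.mem_singleton] at ht
          rcases ht with ht | ht
          · rw [ht]
            refine Finset.mem_sdiff.2 ⟨hxX, fun hm => ?_⟩
            rcases Finset.mem_union.1 hm with hm | hm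
            · exact hxK hm
            · exact hxn hm
          · rw [ht]; exact Finset.mem_sdiff.2 ⟨hw.1.1, hw.2⟩
        · have h3 := (cn_pair hxw).insert (a := x i) (b := u i) (by simp) hux.symm
          simpa using h3
        · refine ⟨w i, Finset.mem_sdiff.2 ⟨by simp, hw.1.2⟩⟩
        · intro t ht
          rw [Finset.mem_insert, Finset.mem_singleton] at ht
          rcases ht with ht | ht <;> rw [ht] <;> simp
  choose a R hk ha hR using key
  refine ⟨a, R, hk, fun i j hij heq => ?_, fun i j hij => ?_⟩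
  · have h3 := ha j
    rw [← heq] at h3
    exact Finset.disjoint_left.1 (h2 i j hij) (ha i) h3
  · exact (h2 i j hij).mono (hR i) (hR j)

end Pool.MP_a862e4_co.H18
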