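import Pool.Agent.W_a862e4_h18.FrC
import Pool.Agent.W_a862e4_h18.FrB
import Pool.Agent.W_a862e4_h18.ExT

/-!
The probability of `Con`.
-/

set_option autoImplicit false
set_option linter.unusedSectionVars false

namespace Pool.MP_a862e4_co.H18

open Pool.MP_4929df_co.H91
open scoped Classical

variable {V : Type*} [Fintype V]

theorem RdA2_loc {R A T : Finset V} (hj : R ⊆ T) : Disjoint R A ↔ Disjoint R (A ∩ T) := by
  constructor
  · intro h
    exact Finset.disjoint_of_subset_right Finset.inter_subset_left h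
  · intro h
    rw [Finset.disjoint_left] at h ⊢
    intro x hx hxA
    exact h hx (Finset.mem_inter.2 ⟨hxA, hj hx⟩)

theorem RdA2_cps {H : SimpleGraph V} {X S K A T : Finset V} (hT : K ∪ nbs H X K = T) :
    K ∈ cps H S (X \ A) ↔ K ∈ cps H S (X \ (A ∩ T)) := by
  rw [mem_cps_sdiff, mem_cps_sdiff]
  have h1 : K ⊆ T := hT ▸ Finset.subset_union_left
  have h2 : nbs H X K ⊆ T := hT ▸ Finset.subset_union_right
  have h3 : nbs H X K ⊆ A ↔ nbs H X K ⊆ A ∩ T :=
    ⟨fun h => Finset.subset_inter h h2, fun h => h.trans Finset.inter_subset_left⟩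
  rw [h3, RdA2_loc (A := A) h1]

/-- if `Con` fails at `K`, at least `k` of the sets `R i` meet `A` -/
theorem RdA2_bad {H : SimpleGraph V} {m k : ℕ} (hm : m = 2 * k) {X S K A : Finset V}
    (a : Fin m → V) (R : Fin m → Finset V)
    (h1 : ∀ i, a i ∈ nbs H X K ∧ R i ⊆ X \ (K ∪ nbs H X K) ∧ (R i).card ≤ 2 ∧
        Cn H (insert (a i) (R i : Set V)) ∧ (R i \ S).Nonempty)
    (h2 : ∀ i j, i ≠ j → a i ≠ a j)
    (hno : ¬ ∃ N ⊆ nbs H X K, k ≤ N.card ∧ ∀ a ∈ N, ∃ R : Finset V, R ⊆ X \ A ∧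
      Cn H (insert a (R : Set V)) ∧ (R \ (S ∪ K)).Nonempty) :
    k ≤ (Finset.univ.filter (fun i => ¬ Disjoint (R i) A)).card := by
  by_contra hlt
  push Not at hlt
  apply hno
  have hcard : (Finset.univ.filter (fun i => ¬ Disjoint (R i) A)).card +
      (Finset.univ.filter (fun i => Disjoint (R i) A)).card = m := by
    have h3 := Finset.card_filter_add_card_filter_not (s := (Finset.univ : Finset (Fin m)))
      (fun i => Disjoint (R i) A)
    rw [Finset.card_univ, Fintype.card_fin] at h3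
    omega
  refine ⟨(Finset.univ.filter (fun i => Disjoint (R i) A)).image a, ?_, ?_, ?_⟩
  · intro w hw
    obtain ⟨i, _, rfl⟩ := Finset.mem_image.1 hw
    exact (h1 i).1
  · rw [Finset.card_image_of_injective]
    · omega
    · intro i j hij
      by_contra hne
      exact h2 i j hne hij
  · intro w hw
    obtain ⟨i, hi, rfl⟩ := Finset.mem_image.1 hw
    have hi' : Disjoint (R i) A := (Finset.mem_filter.1 hi).2
    obtain ⟨_, c2, _, c4, x, hx⟩ := h1 i
    refine ⟨R i, ?_, c4, x, ?_⟩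
    · intro y hy
      exact Finset.mem_sdiff.2 ⟨(Finset.mem_sdiff.1 (c2 hy)).1, Finset.disjoint_left.1 hi' hy⟩
    · rw [Finset.mem_sdiff] at hx
      refine Finset.mem_sdiff.2 ⟨hx.1, fun hxSK => ?_⟩
      rcases Finset.mem_union.1 hxSK with h3 | h3
      · exact hx.2 h3
      · exact (Finset.mem_sdiff.1 (c2 hx.1)).2 (Finset.mem_union_left _ h3)

theorem RdA2_num {m k : ℕ} (hm : m = 2 * k) {q : ℝ} (h0 : 0 ≤ q) (h1 : q ≤ 1 / 16) :
    ((m.choose k : ℕ) : ℝ) * (2 * q) ^ k ≤ (1 / 2 : ℝ) ^ k := by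
  have h2 : ((m.choose k : ℕ) : ℝ) ≤ (4 : ℝ) ^ k := by
    have h3 : m.choose k ≤ 2 ^ m := Nat.choose_le_two_pow m k
    have h4 : (2 : ℝ) ^ m = 4 ^ k := by
      rw [hm, pow_mul]
      norm_num
    rw [← h4]
    exact_mod_cast h3
  have h5 : (2 * q) ^ k ≤ (1 / 8 : ℝ) ^ k := pow_le_pow_left₀ (by linarith) (by linarith) k
  calc ((m.choose k : ℕ) : ℝ) * (2 * q) ^ k ≤ (4 : ℝ) ^ k * (1 / 8 : ℝ) ^ k :=
        mul_le_mul h2 h5 (by positivity) (by positivity)
    _ = (1 / 2 : ℝ) ^ k := by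
        rw [← mul_pow]
        norm_num

/-- the bad event at `K` -/
theorem RdA2_one {H : SimpleGraph V} {m k : ℕ} (hm : m = 2 * k) {X S : Finset V}
    (h : Fr H m X S) {q : ℝ} (h0 : 0 ≤ q) (h1 : q ≤ 1 / 16) (K : Finset V) :
    Ex Finset.univ q (fun A => ind (K ∈ cps H S (X \ A) ∧
      3 * m < ((X \ S) \ (K ∪ nbs H X K)).card ∧
      ¬ ∃ N ⊆ nbs H X K, k ≤ N.card ∧ ∀ a ∈ N, ∃ R : Finset V, R ⊆ X \ A ∧
        Cn H (insert a (R : Set V)) ∧ (R \ (S ∪ K)).Nonempty)) ≤
      (1 / 2 : ℝ) ^ k * Ex Finset.univ q (fun A => ind (K ∈ cps H S (X \ A))) := by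
  have hq1 : q ≤ 1 := by linarith
  have hnn : 0 ≤ Ex Finset.univ q (fun A : Finset V => ind (K ∈ cps H S (X \ A))) :=
    ExT_nonneg h0 hq1 fun A => ind_nonneg _
  by_cases hst : (K ⊆ X ∧ (K \ S).Nonempty) ∧ 3 * m < ((X \ S) \ (K ∪ nbs H X K)).card
  · obtain ⟨⟨hKX, hKS⟩, hbig⟩ := hst
    obtain ⟨a, R, c1, c2, c3⟩ := h.comp_connectors K hKX hKS hbig
    calc Ex Finset.univ q (fun A => ind (K ∈ cps H S (X \ A) ∧
      3 * m < ((X \ S) \ (K ∪ nbs H X K)).card ∧
      ¬ ∃ N ⊆ nbs H X K, k ≤ N.card ∧ ∀ a ∈ N, ∃ R : Finset V, R ⊆ X \ A ∧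
        Cn H (insert a (R : Set V)) ∧ (R \ (S ∪ K)).Nonempty))
        ≤ Ex Finset.univ q (fun A => ind (K ∈ cps H S (X \ A)) *
          ind (k ≤ (Finset.univ.filter (fun i => ¬ Disjoint (R i) A)).card)) := by
          refine Ex_mono h0 hq1 fun A _ => ?_
          rw [← ind_and]
          exact ind_mono fun hA => ⟨hA.1, RdA2_bad hm a R c1 c2 hA.2.2⟩
      _ = Ex Finset.univ q (fun A => ind (K ∈ cps H S (X \ A))) *
          Ex Finset.univ q
            (fun A => ind (k ≤ (Finset.univ.filter (fun i => ¬ Disjoint (R i) A)).card)) := by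
          refine Ex_indep (T := K ∪ nbs H X K) (T' := Finset.univ.biUnion R)
            (Finset.subset_univ _) (Finset.subset_univ _) ?_ q
            (fun A => ind (K ∈ cps H S (X \ A)))
            (fun A => ind (k ≤ (Finset.univ.filter (fun i => ¬ Disjoint (R i) A)).card)) ?_ ?_
          · rw [Finset.disjoint_biUnion_right]
            intro i _
            rw [Finset.disjoint_right]
            intro x hx hx'
            exact (Finset.mem_sdiff.1 ((c1 i).2.1 hx)).2 hx'
          · intro A _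
            exact ExT_ind_congr (RdA2_cps rfl)
          · intro A _
            have : (Finset.univ.filter (fun i => ¬ Disjoint (R i) A)) =
                (Finset.univ.filter
                  (fun i => ¬ Disjoint (R i) (A ∩ Finset.univ.biUnion R))) := by
              refine Finset.filter_congr fun i _ => ?_
              rw [not_iff_not]
              exact RdA2_loc (Finset.subset_biUnion_of_mem R (Finset.mem_univ i))
            show ind (k ≤ (Finset.univ.filter (fun i => ¬ Disjoint (R i) A)).card) =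
              ind (k ≤ (Finset.univ.filter
                (fun i => ¬ Disjoint (R i) (A ∩ Finset.univ.biUnion R))).card)
            rw [this]
      _ ≤ Ex Finset.univ q (fun A => ind (K ∈ cps H S (X \ A))) * (1 / 2 : ℝ) ^ k := by
          refine mul_le_mul_of_nonneg_left ?_ hnn
          refine le_trans (Ex_family R (fun i => Finset.subset_univ _) (fun i => (c1 i).2.2.1) c3
            h0 hq1 k) (RdA2_num hm h0 h1)
      _ = (1 / 2 : ℝ) ^ k * Ex Finset.univ q (fun A => ind (K ∈ cps H S (X \ A))) := by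
          rw [mul_comm]
  · have hz : Ex Finset.univ q (fun A => ind (K ∈ cps H S (X \ A) ∧
      3 * m < ((X \ S) \ (K ∪ nbs H X K)).card ∧
      ¬ ∃ N ⊆ nbs H X K, k ≤ N.card ∧ ∀ a ∈ N, ∃ R : Finset V, R ⊆ X \ A ∧
        Cn H (insert a (R : Set V)) ∧ (R \ (S ∪ K)).Nonempty)) ≤
        Ex Finset.univ q (fun _ : Finset V => 0) := by
      refine Ex_mono h0 hq1 fun A _ => le_of_eq (ind_false ?_)
      rintro ⟨e1, e2, _⟩
      rw [mem_cps_sdiff] at e1
      exact hst ⟨⟨e1.1.1, e1.1.2.2⟩, e2⟩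
    rw [Ex_const] at hz
    exact hz.trans (by positivity)

/-- `m = 2 k`.  For a set `K` with `K ⊆ X`, `Cn H K`, `(K \ S).Nonempty` and
`3 m < |(X \ S) \ (K ∪ nbs H X K)|` let `(a, R)` be the family of `Fr.comp_connectors`.  If `K ∈ cps H S (X \ A)` and
fewer than `k` of the sets `R i` meet `A` (so more than `k` do not), then the `a i` of those `i` form a set `N` as in `Con`
(`R i ⊆ X \ (K ∪ nbs H X K)`, `R i \ S` nonempty, so `R i \ (S ∪ K)` is nonempty).  So `¬ Con` implies that for some such `K`: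
`K ∈ cps H S (X \ A)` and `k ≤ |{i | ¬ Disjoint (R i) A}|`.  The first event depends on
`A ∩ (K ∪ nbs H X K)` (`mem_cps_sdiff`), the second on `A ∩ ⋃ R i`, disjoint from it: by `Ex_indep` and
`Ex_family` (`choose ≤ 2 ^ m = 4 ^ k`, `(2 q) ^ k ≤ (1/8) ^ k`) the probability is at most
`Ex (ind (K ∈ cps H S (X \ A))) * (1/2) ^ k`.  Sum over `K`:
`∑ K, Ex (ind (K ∈ cps ..)) = Ex (|cps ..|) ≤ |V|` (`cps_card_le`). -/
theorem con_prob {H : SimpleGraph V} {m k : ℕ} (hm : m = 2 * k) {X S : Finset V}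
    (h : Fr H m X S) {q : ℝ} (h0 : 0 ≤ q) (h1 : q ≤ 1 / 16) :
    Ex Finset.univ q (fun A => ind (¬ Con H m k X S A)) ≤
      Fintype.card V * (1 / 2 : ℝ) ^ k := by
  have hq1 : q ≤ 1 := by linarith
  calc Ex Finset.univ q (fun A => ind (¬ Con H m k X S A))
      ≤ Ex Finset.univ q (fun A => ∑ K ∈ (Finset.univ : Finset (Finset V)),
          ind (K ∈ cps H S (X \ A) ∧
            3 * m < ((X \ S) \ (K ∪ nbs H X K)).card ∧
            ¬ ∃ N ⊆ nbs H X K, k ≤ N.card ∧ ∀ a ∈ N, ∃ R : Finset V, R ⊆ X \ A ∧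
              Cn H (insert a (R : Set V)) ∧ (R \ (S ∪ K)).Nonempty)) := by
        refine Ex_mono h0 hq1 fun A _ => ?_
        refine le_trans (ind_mono ?_) (ind_exists_le _ _)
        intro hC
        by_contra hcon
        push Not at hcon
        refine hC fun K hK hbig => ?_
        exact hcon K (Finset.mem_univ _) hK hbig
    _ = ∑ K ∈ (Finset.univ : Finset (Finset V)), Ex Finset.univ q (fun A =>
          ind (K ∈ cps H S (X \ A) ∧
            3 * m < ((X \ S) \ (K ∪ nbs H X K)).card ∧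
            ¬ ∃ N ⊆ nbs H X K, k ≤ N.card ∧ ∀ a ∈ N, ∃ R : Finset V, R ⊆ X \ A ∧
              Cn H (insert a (R : Set V)) ∧ (R \ (S ∪ K)).Nonempty)) := Ex_sum _ _ _ _
    _ ≤ ∑ K ∈ (Finset.univ : Finset (Finset V)),
          (1 / 2 : ℝ) ^ k * Ex Finset.univ q (fun A => ind (K ∈ cps H S (X \ A))) :=
        Finset.sum_le_sum fun K _ => RdA2_one hm h h0 h1 K
    _ = (1 / 2 : ℝ) ^ k * Ex Finset.univ q
          (fun A => ∑ K ∈ (Finset.univ : Finset (Finset V)), ind (K ∈ cps H S (X \ A))) := by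
        rw [← Finset.mul_sum, Ex_sum]
    _ ≤ (1 / 2 : ℝ) ^ k * Fintype.card V := by
        refine mul_le_mul_of_nonneg_left ?_ (by positivity)
        refine le_trans (Ex_mono h0 hq1 (g := fun _ => (Fintype.card V : ℝ)) fun A _ => ?_) ?_
        · have e1 : ∑ K ∈ (Finset.univ : Finset (Finset V)), ind (K ∈ cps H S (X \ A)) =
              ((cps H S (X \ A)).card : ℝ) := by
            rw [← Finset.sum_subset (Finset.subset_univ (cps H S (X \ A)))
              (fun K _ hK => ind_false hK)]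
            rw [Finset.sum_congr rfl (fun K hK => ind_true hK)]
            simp
          rw [e1]
          exact_mod_cast cps_card_le H S (X \ A)
        · rw [Ex_const]
    _ = Fintype.card V * (1 / 2 : ℝ) ^ k := by rw [mul_comm]

end Pool.MP_a862e4_co.H18
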