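import Pool.Agent.W_a862e4_h18.RdB2
import Pool.Agent.W_a862e4_h18.RdA1
import Pool.Agent.W_a862e4_h18.RdA2

/-!
One round, expectation; iteration.
-/

set_option autoImplicit false
set_option linter.unusedSectionVars false

namespace Pool.MP_a862e4_co.H18

open Pool.MP_4929df_co.H91
open scoped Classical

variable {V : Type*} [Fintype V]

/-- **One round, expectation.**  `Ex_diff` for `q`, `1/k`; for `A` with `Dom` and `Con` use `round_one`, for the
other `A` the inner expectation is `≤ |V|` (`fM_le`, `Ex_const`); so it is at most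
`3/4 fM A + |V| (ind (¬ Dom) + ind (¬ Con))`; `dom_prob`, `con_prob`, `(1/2) ^ (75 m) ≤ (1/2) ^ k`. -/
theorem round_ex {H : SimpleGraph V} {k : ℕ} (hk : 0 < k) {X S : Finset V}
    (h : Fr H (2 * k) X S) {q : ℝ} (h0 : 0 ≤ q) (h1 : q ≤ 1 / 16) :
    Ex Finset.univ (q * (1 - 1 / (k : ℝ))) (fM H X S) ≤
      3 / 4 * Ex Finset.univ q (fM H X S) + 2 * (Fintype.card V : ℝ) ^ 2 * (1 / 2 : ℝ) ^ k := by
  have hq1 : q ≤ 1 := by linarith
  have hk' : (0 : ℝ) < k := by exact_mod_cast hk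
  have hk1 : (1 : ℝ) ≤ k := by exact_mod_cast hk
  have hr0 : (0 : ℝ) ≤ 1 / (k : ℝ) := by positivity
  have hr1 : 1 / (k : ℝ) ≤ 1 := by
    rw [div_le_one hk']
    exact hk1
  have hn : (0 : ℝ) ≤ Fintype.card V := Nat.cast_nonneg _
  have hin : ∀ A : Finset V, Ex Finset.univ (1 / (k : ℝ)) (fun B => fM H X S (A \ B)) ≤
      Fintype.card V := by
    intro A
    calc Ex Finset.univ (1 / (k : ℝ)) (fun B => fM H X S (A \ B))
        ≤ Ex Finset.univ (1 / (k : ℝ)) (fun _ => (Fintype.card V : ℝ)) :=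
          Ex_mono hr0 hr1 fun B _ => fM_le H X S _
      _ = Fintype.card V := Ex_const _ _ _
  have hpt : ∀ A : Finset V, Ex Finset.univ (1 / (k : ℝ)) (fun B => fM H X S (A \ B)) ≤
      3 / 4 * fM H X S A + (Fintype.card V : ℝ) *
        (ind (¬ Dom H (2 * k) X S A) + ind (¬ Con H (2 * k) k X S A)) := by
    intro A
    have hf := fM_nonneg H X S A
    by_cases hD : Dom H (2 * k) X S A
    · by_cases hC : Con H (2 * k) k X S A
      · have h2 := round_one hk hD hC
        rw [ind_false (not_not.2 hD), ind_false (not_not.2 hC)]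
        linarith
      · have h2 := hin A
        rw [ind_false (not_not.2 hD), ind_true hC]
        linarith
    · have h2 := hin A
      have h3 := mul_nonneg hn (ind_nonneg (¬ Con H (2 * k) k X S A))
      rw [ind_true hD, mul_add]
      linarith
  have hdom := dom_prob h h0 h1
  have hcon := con_prob rfl h h0 h1
  have hpow : (1 / 2 : ℝ) ^ (75 * (2 * k)) ≤ (1 / 2 : ℝ) ^ k :=
    pow_le_pow_of_le_one (by norm_num) (by norm_num) (by omega)
  have hexp : Ex Finset.univ q (fun A => 3 / 4 * fM H X S A + (Fintype.card V : ℝ) *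
        (ind (¬ Dom H (2 * k) X S A) + ind (¬ Con H (2 * k) k X S A))) =
      3 / 4 * Ex Finset.univ q (fM H X S) + (Fintype.card V : ℝ) *
        (Ex Finset.univ q (fun A => ind (¬ Dom H (2 * k) X S A)) +
          Ex Finset.univ q (fun A => ind (¬ Con H (2 * k) k X S A))) := by
    rw [Ex_add, Ex_mul_left, Ex_mul_left, Ex_add]
  have hsum : (Fintype.card V : ℝ) *
        (Ex Finset.univ q (fun A => ind (¬ Dom H (2 * k) X S A)) +
          Ex Finset.univ q (fun A => ind (¬ Con H (2 * k) k X S A))) ≤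
      2 * (Fintype.card V : ℝ) ^ 2 * (1 / 2 : ℝ) ^ k := by
    have e1 : Ex Finset.univ q (fun A => ind (¬ Dom H (2 * k) X S A)) +
          Ex Finset.univ q (fun A => ind (¬ Con H (2 * k) k X S A)) ≤
        Fintype.card V * (1 / 2 : ℝ) ^ k + Fintype.card V * (1 / 2 : ℝ) ^ k :=
      add_le_add (hdom.trans (mul_le_mul_of_nonneg_left hpow hn)) hcon
    calc (Fintype.card V : ℝ) *
        (Ex Finset.univ q (fun A => ind (¬ Dom H (2 * k) X S A)) +
          Ex Finset.univ q (fun A => ind (¬ Con H (2 * k) k X S A)))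
        ≤ (Fintype.card V : ℝ) *
          (Fintype.card V * (1 / 2 : ℝ) ^ k + Fintype.card V * (1 / 2 : ℝ) ^ k) :=
          mul_le_mul_of_nonneg_left e1 hn
      _ = 2 * (Fintype.card V : ℝ) ^ 2 * (1 / 2 : ℝ) ^ k := by ring
  calc Ex Finset.univ (q * (1 - 1 / (k : ℝ))) (fM H X S)
      = Ex Finset.univ q (fun A => Ex Finset.univ (1 / (k : ℝ)) (fun B => fM H X S (A \ B))) :=
        (Ex_diff _ _ _ _).symm
    _ ≤ Ex Finset.univ q (fun A => 3 / 4 * fM H X S A + (Fintype.card V : ℝ) *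
        (ind (¬ Dom H (2 * k) X S A) + ind (¬ Con H (2 * k) k X S A))) :=
        Ex_mono h0 hq1 fun A _ => hpt A
    _ = _ := hexp
    _ ≤ 3 / 4 * Ex Finset.univ q (fM H X S) +
          2 * (Fintype.card V : ℝ) ^ 2 * (1 / 2 : ℝ) ^ k := by linarith

/-- **Iteration**, induction on `L` (`q = 1/16 (1 - 1/k) ^ L ∈ [0, 1/16]`):
`3/4 (8 n² ε) + 2 n² ε = 8 n² ε`. -/
theorem rounds {H : SimpleGraph V} {k : ℕ} (hk : 0 < k) {X S : Finset V}
    (h : Fr H (2 * k) X S) (L : ℕ) :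
    Ex Finset.univ (1 / 16 * (1 - 1 / (k : ℝ)) ^ L) (fM H X S) ≤
      (3 / 4 : ℝ) ^ L * Fintype.card V + 8 * (Fintype.card V : ℝ) ^ 2 * (1 / 2 : ℝ) ^ k := by
  have hk' : (0 : ℝ) < k := by exact_mod_cast hk
  have hk1 : (1 : ℝ) ≤ k := by exact_mod_cast hk
  have hr0 : (0 : ℝ) ≤ 1 / (k : ℝ) := by positivity
  have hr1 : 1 / (k : ℝ) ≤ 1 := by
    rw [div_le_one hk']
    exact hk1
  have hs0 : (0 : ℝ) ≤ 1 - 1 / (k : ℝ) := by linarith
  have hs1 : (1 : ℝ) - 1 / (k : ℝ) ≤ 1 := by linarith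
  induction L with
  | zero =>
    rw [pow_zero, pow_zero, mul_one, one_mul]
    have h2 : Ex Finset.univ (1 / 16) (fM H X S) ≤
        Ex Finset.univ (1 / 16) (fun _ : Finset V => (Fintype.card V : ℝ)) :=
      Ex_mono (by norm_num) (by norm_num) fun A _ => fM_le H X S A
    rw [Ex_const] at h2
    have h3 : (0 : ℝ) ≤ 8 * (Fintype.card V : ℝ) ^ 2 * (1 / 2 : ℝ) ^ k := by positivity
    linarith
  | succ L ih =>
    have h2 : (0 : ℝ) ≤ (1 - 1 / (k : ℝ)) ^ L := pow_nonneg hs0 L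
    have h3 : (1 - 1 / (k : ℝ)) ^ L ≤ 1 := pow_le_one₀ hs0 hs1
    have h4 := round_ex hk h (q := 1 / 16 * (1 - 1 / (k : ℝ)) ^ L) (by linarith) (by linarith)
    rw [pow_succ, pow_succ, ← mul_assoc]
    linarith

end Pool.MP_a862e4_co.H18
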