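import Pool.Agent.W_a862e4_h18.CutA
import Pool.Agent.W_a862e4_h18.RdB3

/-!
Probability of small cuts.
-/

set_option autoImplicit false
set_option linter.unusedSectionVars false

namespace Pool.MP_a862e4_co.H18

open Pool.MP_4929df_co.H91
open scoped Classical

variable {V : Type*} [Fintype V]

/-- `rounds` with `k = 64 ρ`, `L = 32 ρ`, `qL = 1/16 (1 - 1/k) ^ L ≥ 1/16 (1 - L/k) = 1/32` (Bernoulli,
`one_add_mul_le_pow`), `cut_prob`, and `(3/4) ^ 32 ≤ (1/2) ^ 13`, `64 = 2 ^ 6`. -/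
theorem cut3_prob {H : SimpleGraph V} {ρ : ℕ} (hρ : 0 < ρ) {X S : Finset V}
    (h : Fr H (128 * ρ) X S) :
    Ex Finset.univ (1 / 2 ^ 22 : ℝ) (fun A => ind (¬ Cut3 H ρ X S A)) ≤
      2 * (Fintype.card V : ℝ) * (1 / 2) ^ (7 * ρ) +
        16 * (Fintype.card V : ℝ) ^ 2 * (1 / 2) ^ (58 * ρ) := by
  have h' : Fr H (2 * (64 * ρ)) X S := by
    have e : 2 * (64 * ρ) = 128 * ρ := by ring
    rw [e]; exact h
  have hk : 0 < 64 * ρ := by omega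
  have hρR : (0 : ℝ) < (ρ : ℝ) := by exact_mod_cast hρ
  have hρ1 : (1 : ℝ) ≤ (ρ : ℝ) := by exact_mod_cast hρ
  have hr := rounds hk h' (32 * ρ)
  have hkR : ((64 * ρ : ℕ) : ℝ) = 64 * (ρ : ℝ) := by push_cast; ring
  rw [hkR] at hr
  set q : ℝ := 1 / 16 * (1 - 1 / (64 * (ρ : ℝ))) ^ (32 * ρ) with hq
  have hsmall : 1 / (64 * (ρ : ℝ)) ≤ 1 := by
    rw [div_le_one (by positivity)]; linarith
  have hpos : 0 ≤ 1 / (64 * (ρ : ℝ)) := by positivity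
  have hb : (1 : ℝ) / 2 ≤ (1 - 1 / (64 * (ρ : ℝ))) ^ (32 * ρ) := by
    have hB := one_add_mul_le_pow (a := -(1 / (64 * (ρ : ℝ)))) (by linarith) (32 * ρ)
    have e1 : (1 : ℝ) + ((32 * ρ : ℕ) : ℝ) * -(1 / (64 * (ρ : ℝ))) = 1 / 2 := by
      push_cast
      field_simp
      norm_num
    rw [e1] at hB
    have e2 : (1 : ℝ) + -(1 / (64 * (ρ : ℝ))) = 1 - 1 / (64 * (ρ : ℝ)) := by ring
    rw [e2] at hB
    exact hB
  have hle : (1 - 1 / (64 * (ρ : ℝ))) ^ (32 * ρ) ≤ 1 :=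
    pow_le_one₀ (by linarith) (by linarith)
  have hc := cut_prob (H := H) (ρ := ρ) (X := X) (S := S) (qL := q)
    (by rw [hq]; linarith) (by rw [hq]; linarith)
  have hn : (0 : ℝ) ≤ (Fintype.card V : ℝ) := Nat.cast_nonneg _
  have h64 : (0 : ℝ) ≤ 2 * 64 ^ ρ := by positivity
  have hA : (64 : ℝ) ^ ρ * (3 / 4 : ℝ) ^ (32 * ρ) ≤ (1 / 2) ^ (7 * ρ) := by
    rw [pow_mul, pow_mul, ← mul_pow]
    exact pow_le_pow_left₀ (by positivity) (by norm_num) ρ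
  have hB : (64 : ℝ) ^ ρ * (1 / 2 : ℝ) ^ (64 * ρ) = (1 / 2) ^ (58 * ρ) := by
    rw [pow_mul, pow_mul, ← mul_pow]
    congr 1
    norm_num
  calc Ex Finset.univ (1 / 2 ^ 22 : ℝ) (fun A => ind (¬ Cut3 H ρ X S A))
      ≤ 2 * 64 ^ ρ * Ex Finset.univ q (fM H X S) := hc
    _ ≤ 2 * 64 ^ ρ * ((3 / 4 : ℝ) ^ (32 * ρ) * Fintype.card V +
          8 * (Fintype.card V : ℝ) ^ 2 * (1 / 2 : ℝ) ^ (64 * ρ)) :=
        mul_le_mul_of_nonneg_left hr h64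
    _ = 2 * (Fintype.card V : ℝ) * ((64 : ℝ) ^ ρ * (3 / 4 : ℝ) ^ (32 * ρ)) +
          16 * (Fintype.card V : ℝ) ^ 2 * ((64 : ℝ) ^ ρ * (1 / 2 : ℝ) ^ (64 * ρ)) := by ring
    _ ≤ 2 * (Fintype.card V : ℝ) * (1 / 2) ^ (7 * ρ) +
        16 * (Fintype.card V : ℝ) ^ 2 * (1 / 2) ^ (58 * ρ) := by
        rw [hB]
        have := mul_le_mul_of_nonneg_left hA (by positivity : (0 : ℝ) ≤ 2 * (Fintype.card V : ℝ))
        linarith

end Pool.MP_a862e4_co.H18
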