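import Pool.Agent.W_4929df_h91.Menger

/-!
MP_a862e4_co (p-schemes), helper18: linear order p-schemes in graphs with at most `2 ^ (c χ)` vertices.
Overview: proofs row 550.  Definitions used by all files of the project.

`Cn G X` (nonempty connected set), `Comp G U K`, `cn_of_base`, `Cn.subset_of_closed`, `Cn.union`,
`Cn.union_adj`, `menger_in` ... are in `Pool.Agent.W_4929df_h91.Basic` and `.Menger`
(namespace `Pool.MP_4929df_co.H91`, opened below).
All finite sets are `Finset V`, decidability is classical (`open scoped Classical`).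
-/

set_option autoImplicit false
set_option linter.unusedSectionVars false

namespace Pool.MP_a862e4_co.H18

open Pool.MP_4929df_co.H91
open scoped Classical

variable {V : Type*} [Fintype V]

/-- the neighbours of `v` in `U` -/
noncomputable def nb (G : SimpleGraph V) (U : Finset V) (v : V) : Finset V :=
  U.filter (fun w => G.Adj v w)

theorem mem_nbf {G : SimpleGraph V} {U : Finset V} {v w : V} :
    w ∈ nb G U v ↔ w ∈ U ∧ G.Adj v w := by
  simp [nb]

/-- `G[S]` is properly `k`-colourable -/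
def Colb (G : SimpleGraph V) (S : Finset V) (k : ℕ) : Prop :=
  ∃ c : V → Fin k, ∀ x ∈ S, ∀ y ∈ S, G.Adj x y → c x ≠ c y

/-- `G` has a `p`-scheme -/
def Scheme (G : SimpleGraph V) (p : ℕ) : Prop :=
  ∃ v : Fin p → V, Function.Injective v ∧
    ∃ C : Fin p → Fin p → Set V,
      (∀ i j, C i j = C j i) ∧
      (∀ i j, i ≠ j → v i ∈ C i j ∧ v j ∈ C i j ∧ (G.induce (C i j)).Connected) ∧
      (∀ i j k l, i ≠ j → i ≠ k → i ≠ l → j ≠ k → j ≠ l → k ≠ l →
        Disjoint (C i j) (C k l))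

/-- `(A, B)` is a separation of `G[U]` -/
def Sep (G : SimpleGraph V) (U A B : Finset V) : Prop :=
  A ∪ B = U ∧ ∀ a ∈ A, a ∉ B → ∀ b ∈ B, b ∉ A → ¬ G.Adj a b

/-- number of ordered pairs of adjacent vertices of `U`, not both in `X` -/
noncomputable def ed (G : SimpleGraph V) (U X : Finset V) : ℕ :=
  ((U ×ˢ U).filter (fun p => G.Adj p.1 p.2 ∧ ¬ (p.1 ∈ X ∧ p.2 ∈ X))).card

theorem mem_ed {G : SimpleGraph V} {U X : Finset V} {p : V × V} :
    p ∈ (U ×ˢ U).filter (fun p => G.Adj p.1 p.2 ∧ ¬ (p.1 ∈ X ∧ p.2 ∈ X)) ↔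
      (p.1 ∈ U ∧ p.2 ∈ U) ∧ G.Adj p.1 p.2 ∧ ¬ (p.1 ∈ X ∧ p.2 ∈ X) := by
  simp

/-- second condition of `Massed` -/
def M2 (G : SimpleGraph V) (l : ℕ) (U X : Finset V) : Prop :=
  ∀ A B, Sep G U A B → X ⊆ A → (A ∩ B).card < X.card → ed G B (A ∩ B) ≤ 2 * l * (B \ A).card

/-- `(G[U], X)` is `l`-massed -/
structure Massed (G : SimpleGraph V) (l : ℕ) (U X : Finset V) : Prop where
  m1 : 2 * l * (U \ X).card < ed G U X
  m2 : M2 G l U X

/-- `X` is knitted in `G[U]`: the classes of every partition of `X` (given by labels `g`) are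
contained in pairwise disjoint connected subsets of `U` -/
def Knitted (G : SimpleGraph V) (U X : Finset V) : Prop :=
  ∀ g : V → ℕ, ∃ K : ℕ → Set V, (∀ i, K i ⊆ (U : Set V)) ∧ (∀ i, K i = ∅ ∨ Cn G (K i)) ∧
    (∀ i j, i ≠ j → Disjoint (K i) (K j)) ∧ ∀ x ∈ X, x ∈ K (g x)

/-- the graph `G` without the edges inside `S` -/
def gam (G : SimpleGraph V) (S : Finset V) : SimpleGraph V where
  Adj a b := G.Adj a b ∧ ¬ (a ∈ S ∧ b ∈ S)
  symm := ⟨fun _ _ h => ⟨h.1.symm, fun h2 => h.2 ⟨h2.2, h2.1⟩⟩⟩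
  loopless := ⟨fun _ h => h.1.ne rfl⟩

theorem gam_adj {G : SimpleGraph V} {S : Finset V} {a b : V} :
    (gam G S).Adj a b ↔ G.Adj a b ∧ ¬ (a ∈ S ∧ b ∈ S) := Iff.rfl

/-! ### simple facts -/

theorem Sep.symm {G : SimpleGraph V} {U A B : Finset V} (h : Sep G U A B) : Sep G U B A :=
  ⟨by rw [Finset.union_comm]; exact h.1, fun a ha haB b hb hbA hab =>
    h.2 b hb hbA a ha haB hab.symm⟩

theorem Sep.left_subset {G : SimpleGraph V} {U A B : Finset V} (h : Sep G U A B) : A ⊆ U := by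
  rw [← h.1]; exact Finset.subset_union_left

theorem Sep.right_subset {G : SimpleGraph V} {U A B : Finset V} (h : Sep G U A B) : B ⊆ U := by
  rw [← h.1]; exact Finset.subset_union_right

theorem Knitted.mono {G : SimpleGraph V} {U U' X X' : Finset V} (h : Knitted G U X)
    (hU : U ⊆ U') (hX : X' ⊆ X) : Knitted G U' X' := by
  intro g
  obtain ⟨K, h1, h2, h3, h4⟩ := h g
  exact ⟨K, fun i => (h1 i).trans (by exact_mod_cast hU), h2, h3, fun x hx => h4 x (hX hx)⟩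

theorem Knitted.graph_mono {G G' : SimpleGraph V} {U X : Finset V} (h : Knitted G U X)
    (hG : ∀ a b, G.Adj a b → G'.Adj a b) : Knitted G' U X := by
  intro g
  obtain ⟨K, h1, h2, h3, h4⟩ := h g
  refine ⟨K, h1, fun i => ?_, h3, h4⟩
  rcases h2 i with h | h
  · exact Or.inl h
  · exact Or.inr (h.mono hG)

theorem knitted_empty (G : SimpleGraph V) (U : Finset V) : Knitted G U ∅ :=
  fun _ => ⟨fun _ => ∅, fun _ => Set.empty_subset _, fun _ => Or.inl rfl,
    fun _ _ _ => Set.disjoint_empty _, fun x hx => absurd hx (Finset.notMem_empty x)⟩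

theorem ed_mono {G : SimpleGraph V} {U U' X X' : Finset V} (hU : U ⊆ U') (hX : X' ⊆ X) :
    ed G U X ≤ ed G U' X' := by
  refine Finset.card_le_card fun p hp => ?_
  rw [mem_ed] at hp ⊢
  exact ⟨⟨hU hp.1.1, hU hp.1.2⟩, hp.2.1, fun h => hp.2.2 ⟨hX h.1, hX h.2⟩⟩

/-! ### knitted sets -/

/-- `Y` is linked to `M` in `U`: disjoint connected sets `Q y ∋ y` in `U`, `Q y` meets `M` exactly in
the vertex `m y` -/
def Linked (G : SimpleGraph V) (U Y M : Finset V) : Prop :=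
  ∃ (Q : V → Set V) (m : V → V), (∀ y ∈ Y, Q y ⊆ (U : Set V) ∧ Cn G (Q y) ∧ y ∈ Q y ∧ m y ∈ M ∧
    m y ∈ Q y ∧ ∀ w ∈ Q y, w ∈ M → w = m y) ∧
    ∀ y ∈ Y, ∀ z ∈ Y, y ≠ z → Disjoint (Q y) (Q z)

/-- the graph `G` with a clique on `S` added -/
def clq (G : SimpleGraph V) (S : Finset V) : SimpleGraph V where
  Adj a b := G.Adj a b ∨ (a ≠ b ∧ a ∈ S ∧ b ∈ S)
  symm := ⟨fun _ _ h => h.elim (fun h => Or.inl h.symm) (fun h => Or.inr ⟨h.1.symm, h.2.2, h.2.1⟩)⟩
  loopless := ⟨fun _ h => h.elim (fun h => h.ne rfl) (fun h => h.1 rfl)⟩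

/-- contraction of `v` into `u` (on vertex sets without `v`) -/
def ctr (G : SimpleGraph V) (u v : V) : SimpleGraph V where
  Adj a b := a ≠ b ∧ (G.Adj a b ∨ (a = u ∧ G.Adj v b) ∨ (b = u ∧ G.Adj v a))
  symm := ⟨fun _ _ h => ⟨h.1.symm, h.2.elim (fun h => Or.inl h.symm) (fun h => Or.inr h.symm)⟩⟩
  loopless := ⟨fun _ h => h.1 rfl⟩

/-- `G` without the edge `a b` -/
def dele (G : SimpleGraph V) (a b : V) : SimpleGraph V where
  Adj s t := G.Adj s t ∧ ¬ (s = a ∧ t = b) ∧ ¬ (s = b ∧ t = a)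
  symm := ⟨fun _ _ h => ⟨h.1.symm, fun h2 => h.2.2 ⟨h2.2, h2.1⟩, fun h2 => h.2.1 ⟨h2.2, h2.1⟩⟩⟩
  loopless := ⟨fun _ h => h.1.ne rfl⟩

/-- a minimal counterexample to Theorem K -/
structure MC (G : SimpleGraph V) (l x : ℕ) (U X : Finset V) : Prop where
  XU : X ⊆ U
  cX : X.card ≤ x
  hm : Massed G l U X
  nk : ¬ Knitted G U X
  min : ∀ (G' : SimpleGraph V) (U' X' : Finset V), X' ⊆ U' → X'.card ≤ x → Massed G' l U' X' →
    (U'.card < U.card ∨ (U'.card = U.card ∧ ed G' U' ∅ < ed G U ∅)) → Knitted G' U' X'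

theorem MC.pos {G : SimpleGraph V} {l x : ℕ} {U X : Finset V} (h : MC G l x U X) : 1 ≤ X.card := by
  rw [Nat.one_le_iff_ne_zero, Finset.card_ne_zero]
  by_contra hne
  rw [Finset.not_nonempty_iff_eq_empty] at hne
  exact h.nk (hne ▸ knitted_empty G U)

/-! ### ends and frames -/

/-- `X` with the boundary `S` is an end of `G[W]` of degree `d` -/
structure End (G : SimpleGraph V) (d : ℕ) (W X S : Finset V) : Prop where
  SX : S ⊆ X
  XW : X ⊆ W
  ne : (X \ S).Nonempty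
  nbX : ∀ z ∈ X \ S, nb G W z ⊆ X
  deg : ∀ z ∈ X \ S, d ≤ (nb G W z).card
  cS : 25 * S.card ≤ 2 * d
  sep : ∀ P Q, Sep (gam G S) X P Q → 25 * (P ∩ Q).card ≤ d → P \ Q ⊆ S ∨ Q \ P ⊆ S

/-- a frame: `H` has no edges inside `S ⊆ X`, the other vertices of `X` have degree `≥ 75 m`,
`|S| ≤ 6 m` and separations of order `≤ 3 m` do not separate vertices outside `S` -/
structure Fr (H : SimpleGraph V) (m : ℕ) (X S : Finset V) : Prop where
  SX : S ⊆ X
  ne : (X \ S).Nonempty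
  noS : ∀ a ∈ S, ∀ b ∈ S, ¬ H.Adj a b
  deg : ∀ z ∈ X \ S, 75 * m ≤ (nb H X z).card
  cS : S.card ≤ 6 * m
  sep : ∀ P Q, Sep H X P Q → (P ∩ Q).card ≤ 3 * m → P \ Q ⊆ S ∨ Q \ P ⊆ S

/-- the neighbourhood of `K` in `X` -/
noncomputable def nbs (H : SimpleGraph V) (X K : Finset V) : Finset V :=
  X.filter (fun w => w ∉ K ∧ ∃ a ∈ K, H.Adj a w)

theorem mem_nbs {H : SimpleGraph V} {X K : Finset V} {w : V} :
    w ∈ nbs H X K ↔ w ∈ X ∧ w ∉ K ∧ ∃ a ∈ K, H.Adj a w := by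
  simp [nbs]

/-- the components of `H[D]` that contain a vertex outside `S` -/
noncomputable def cps (H : SimpleGraph V) (S D : Finset V) : Finset (Finset V) :=
  Finset.univ.filter (fun K => Comp H (D : Set V) (K : Set V) ∧ (K \ S).Nonempty)

theorem mem_cps {H : SimpleGraph V} {S D K : Finset V} :
    K ∈ cps H S D ↔ Comp H (D : Set V) (K : Set V) ∧ (K \ S).Nonempty := by
  simp [cps]

/-- every vertex `z` of `X \ S` has more than `3 m` neighbours in `(X \ S) \ A` -/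
def Dom (H : SimpleGraph V) (m : ℕ) (X S A : Finset V) : Prop :=
  ∀ z ∈ X \ S, 3 * m < (nb H ((X \ S) \ A) z).card

/-- every component `K` of `H[X \ A]` in `cps` that leaves more than `3 m` vertices outside `K ∪ nbs`
has at least `k` (`m = 2 k`) good deleted neighbours -/
def Con (H : SimpleGraph V) (m k : ℕ) (X S A : Finset V) : Prop :=
  ∀ K ∈ cps H S (X \ A), 3 * m < ((X \ S) \ (K ∪ nbs H X K)).card →
    ∃ N ⊆ nbs H X K, k ≤ N.card ∧ ∀ a ∈ N, ∃ R : Finset V, R ⊆ X \ A ∧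
      Cn H (insert a (R : Set V)) ∧ (R \ (S ∪ K)).Nonempty

/-- the number of components minus one, as a real number (natural subtraction) -/
noncomputable def fM (H : SimpleGraph V) (X S A : Finset V) : ℝ :=
  (((cps H S (X \ A)).card - 1 : ℕ) : ℝ)

/-- after deletion of `A` no separation of order `≤ ρ` separates vertices outside `S` -/
def Cut3 (H : SimpleGraph V) (ρ : ℕ) (X S A : Finset V) : Prop :=
  ∀ P Q, Sep H (X \ A) P Q → (P ∩ Q).card ≤ ρ → P \ Q ⊆ S ∨ Q \ P ⊆ S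

/-- the data of one step: an end of degree `9600 ρ`, the assignment `N` on `S1`, and the vertex `v` -/
structure SD (G : SimpleGraph V) (b c ρ : ℕ) (W X S S1 : Finset V) (N : V → Finset V) (v : V) :
    Prop where
  bρ : b ≤ ρ
  e : End G (9600 * ρ) W X S
  S1S : S1 ⊆ S
  N1 : ∀ x ∈ S1, N x ⊆ nb G (X \ S) x
  N2 : ∀ x ∈ S1, (N x).card = 2 * b
  N3 : ∀ z, (S1.filter (fun x => z ∈ N x)).card ≤ 2 * b
  vZ : v ∈ X \ S
  bad : (nb G (S \ S1) v).card ≤ c
  dv : (nb G W v).card ≤ 4 * (9600 * ρ)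

/-- good sets `A` -/
structure GoodA (G : SimpleGraph V) (b ρ : ℕ) (W X S S1 : Finset V) (N : V → Finset V)
    (A : Finset V) : Prop where
  e1 : ∀ z ∈ W, 9600 * b ≤ (nb G W z).card → 38400 * (nb G W z ∩ A).card ≤ (nb G W z).card
  e2 : ∀ x ∈ S1, (N x ∩ A).card ≤ b
  e2' : ∀ z, ((S1.filter (fun x => z ∈ N x)) ∩ A).card ≤ b
  e3 : Cut3 (gam G S) ρ X S A

/-- the failure probability of one step; `ed1`, ... : `n 2^(-b) + 2 n 2^(-20 b) + (2 n 2^(-7 b) +
16 n² 2^(-58 b))` -/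
noncomputable def dl (n b : ℕ) : ℝ :=
  n * (1 / 2) ^ b + 2 * n * (1 / 2) ^ (20 * b) +
    (2 * n * (1 / 2) ^ (7 * b) + 16 * (n : ℝ) ^ 2 * (1 / 2) ^ (58 * b))

end Pool.MP_a862e4_co.H18
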