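import Pool.Agent.W_a862e4_h18.Defs

/-!
The end lemma.
-/

set_option autoImplicit false
set_option linter.unusedSectionVars false

namespace Pool.MP_a862e4_co.H18

open Pool.MP_4929df_co.H91
open scoped Classical

variable {V : Type*} [Fintype V]

/-- a candidate for an end -/
structure EndA.Cand (G : SimpleGraph V) (d : ℕ) (W X S : Finset V) : Prop where
  SX : S ⊆ X
  XW : X ⊆ W
  ne : (X \ S).Nonempty
  nbX : ∀ z ∈ X \ S, nb G W z ⊆ X
  deg : ∀ z ∈ X \ S, d ≤ (nb G W z).card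
  cS : 25 * S.card ≤ 2 * d

theorem EndA.half {G : SimpleGraph V} {d : ℕ} {W X S P Q : Finset V} (h : EndA.Cand G d W X S)
    (hs : Sep (gam G S) X P Q) {z z' : V} (hzP : z ∈ P) (hzQ : z ∉ Q) (hzS : z ∉ S)
    (hzQ' : z' ∈ Q) (hzP' : z' ∉ P)
    (hc : 25 * ((S ∩ (P \ Q)) ∪ (P ∩ Q)).card ≤ 2 * d) :
    EndA.Cand G d W P ((S ∩ (P \ Q)) ∪ (P ∩ Q)) ∧ P.card < X.card := by
  have hPX : P ⊆ X := hs.left_subset
  have hQX : Q ⊆ X := hs.right_subset
  have key : ∀ y ∈ P \ ((S ∩ (P \ Q)) ∪ (P ∩ Q)), y ∈ P ∧ y ∉ Q ∧ y ∉ S := by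
    intro y hy
    simp only [Finset.mem_sdiff, Finset.mem_union, Finset.mem_inter, not_or, not_and,
      not_not] at hy
    obtain ⟨h1, h2, h3⟩ := hy
    have h4 : y ∉ Q := h3 h1
    exact ⟨h1, h4, fun h5 => h4 (h2 h5 h1)⟩
  refine ⟨⟨?_, hPX.trans h.XW, ⟨z, ?_⟩, ?_, ?_, hc⟩, ?_⟩
  · intro y hy
    simp only [Finset.mem_sdiff, Finset.mem_union, Finset.mem_inter] at hy
    rcases hy with hy | hy
    · exact hy.2.1
    · exact hy.1
  · simp only [Finset.mem_sdiff, Finset.mem_union, Finset.mem_inter, not_or, not_and, not_not]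
    exact ⟨hzP, fun h1 => absurd h1 hzS, fun _ => hzQ⟩
  · intro y hy w hw
    obtain ⟨hyP, hyQ, hyS⟩ := key y hy
    have hwX : w ∈ X := h.nbX y (Finset.mem_sdiff.2 ⟨hPX hyP, hyS⟩) hw
    by_contra hwP
    have hwQ : w ∈ Q := by
      have : w ∈ P ∪ Q := by rw [hs.1]; exact hwX
      rcases Finset.mem_union.1 this with h1 | h1
      · exact absurd h1 hwP
      · exact h1
    exact hs.2 y hyP hyQ w hwQ hwP ⟨(mem_nbf.1 hw).2, fun h1 => hyS h1.1⟩
  · intro y hy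
    obtain ⟨hyP, hyQ, hyS⟩ := key y hy
    exact h.deg y (Finset.mem_sdiff.2 ⟨hPX hyP, hyS⟩)
  · exact Finset.card_lt_card ⟨hPX, fun h1 => hzP' (h1 (hQX hzQ'))⟩

theorem EndA.exists_max {p : ℕ → Prop} {N : ℕ} (h0 : p 0) (hb : ∀ j, p j → j ≤ N) :
    ∃ j, p j ∧ ∀ i, j < i → ¬ p i := by
  refine ⟨Nat.findGreatest p N, Nat.findGreatest_spec (Nat.zero_le N) h0, fun i hi hpi => ?_⟩
  exact Nat.findGreatest_is_greatest hi (hb i hpi) hpi

/-- **End lemma.**  Call `(X, S)` a candidate of level `j` if the first six properties of `End` hold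
with `d = 4 ^ j * κ`.  `(W, ∅)` is a candidate of level 0; a candidate of level `j` has a vertex of degree
`≥ 4 ^ j * κ ≥ j`, so `j ≤ Fintype.card V`.  Take `j` maximal such that a candidate of level `j`
exists, and a candidate `(X, S)` of level `j` with `X.card` minimal; `d = 4 ^ j * κ`.
`sep`: let `(P, Q)` be a separation of `gam G S` on `X`, `25 |P ∩ Q| ≤ d`, and
`z ∈ (P \ Q) \ S`, `z' ∈ (Q \ P) \ S`.  `S1 = (S ∩ (P \ Q)) ∪ (P ∩ Q)`,
`S2 = (S ∩ (Q \ P)) ∪ (P ∩ Q)`: `|S1| + |S2| ≤ |S| + 2 |P ∩ Q|`, so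
`25 |S1| + 25 |S2| ≤ 4 d` and one of them satisfies `25 |Si| ≤ 2 d`, say `S1`.  Then `(P, S1)` is a
candidate of level `j` with `|P| < |X|` (`P \ S1 = (P \ Q) \ S`; the neighbours in `W` of such a vertex lie in
`X`, the edges are edges of `gam G S`, so they lie in `P`).  Contradiction to minimality.
Last property: `X' = X`, `S' = S ∪ (F ∩ X)`; `|S'| ≤ 3 |S|`, `25 |S'| ≤ 6 d ≤ 2 (4 d)`; `|X| ≥ d` (the
neighbours of `z ∈ X \ S` lie in `X`) and `|S'| < d` as `75 |S| ≤ 6 d < 25 d` (`d > 0`), so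
`X \ S'` is nonempty; if all `v ∈ X \ S` outside `F` had degree `> 4 d` then `(X, S')` would be a
candidate of level `j + 1`. -/
theorem exists_end (G : SimpleGraph V) (W : Finset V) (κ : ℕ) (hκ : 0 < κ) (hW : W.Nonempty)
    (hdeg : ∀ v ∈ W, κ ≤ (nb G W v).card) :
    ∃ j X S, End G (4 ^ j * κ) W X S ∧ ∀ F : Finset V, F.card ≤ 2 * S.card →
      ∃ v ∈ X \ S, v ∉ F ∧ (nb G W v).card ≤ 4 * (4 ^ j * κ) := by
  have h0 : ∃ X S, EndA.Cand G (4 ^ 0 * κ) W X S := by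
    refine ⟨W, ∅, Finset.empty_subset _, subset_rfl, by simpa using hW,
      fun z _ => Finset.filter_subset _ _, fun z hz => ?_, by simp⟩
    simpa using hdeg z (by simpa using hz)
  have hb : ∀ j, (∃ X S, EndA.Cand G (4 ^ j * κ) W X S) → j ≤ Fintype.card V := by
    rintro j ⟨X, S, hc⟩
    obtain ⟨z, hz⟩ := hc.ne
    have h1 := hc.deg z hz
    have h2 : (nb G W z).card ≤ Fintype.card V := Finset.card_le_univ _
    have h3 : j < 4 ^ j := Nat.lt_pow_self (by norm_num)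
    have h4 : 4 ^ j * 1 ≤ 4 ^ j * κ := Nat.mul_le_mul_left _ hκ
    omega
  obtain ⟨j, hj, hjm⟩ := EndA.exists_max
    (p := fun j => ∃ X S, EndA.Cand G (4 ^ j * κ) W X S) h0 hb
  have hex : ∃ n, ∃ X S, EndA.Cand G (4 ^ j * κ) W X S ∧ X.card = n := by
    obtain ⟨X, S, hXS⟩ := hj
    exact ⟨X.card, X, S, hXS, rfl⟩
  obtain ⟨X, S, hc, hcard⟩ := Nat.find_spec hex
  have hmin : ∀ X' S', EndA.Cand G (4 ^ j * κ) W X' S' → ¬ X'.card < X.card := by
    intro X' S' h' hlt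
    rw [hcard] at hlt
    exact Nat.find_min hex hlt ⟨X', S', h', rfl⟩
  have hd : 0 < 4 ^ j * κ := by positivity
  refine ⟨j, X, S, ⟨hc.SX, hc.XW, hc.ne, hc.nbX, hc.deg, hc.cS, ?_⟩, ?_⟩
  · intro P Q hs hPQ
    by_contra hcon
    rw [not_or] at hcon
    obtain ⟨h1, h2⟩ := hcon
    obtain ⟨z, hz, hzS⟩ := Finset.not_subset.1 h1
    obtain ⟨z', hz', hzS'⟩ := Finset.not_subset.1 h2
    rw [Finset.mem_sdiff] at hz hz'
    have hcs := hc.cS
    have hsum : ((S ∩ (P \ Q)) ∪ (P ∩ Q)).card + ((S ∩ (Q \ P)) ∪ (Q ∩ P)).card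
        ≤ S.card + 2 * (P ∩ Q).card := by
      have e1 := Finset.card_union_le (S ∩ (P \ Q)) (P ∩ Q)
      have e2 := Finset.card_union_le (S ∩ (Q \ P)) (Q ∩ P)
      have e3 : (S ∩ (P \ Q)).card + (S ∩ (Q \ P)).card ≤ S.card := by
        rw [← Finset.card_union_of_disjoint]
        · refine Finset.card_le_card fun x hx => ?_
          rcases Finset.mem_union.1 hx with h | h <;> exact (Finset.mem_inter.1 h).1
        · rw [Finset.disjoint_left]
          intro x hx hx'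
          simp only [Finset.mem_inter, Finset.mem_sdiff] at hx hx'
          exact hx.2.2 hx'.2.1
      have e4 : (Q ∩ P).card = (P ∩ Q).card := by rw [Finset.inter_comm]
      omega
    rcases (by omega : 25 * ((S ∩ (P \ Q)) ∪ (P ∩ Q)).card ≤ 2 * (4 ^ j * κ) ∨
        25 * ((S ∩ (Q \ P)) ∪ (Q ∩ P)).card ≤ 2 * (4 ^ j * κ)) with h | h
    · obtain ⟨g1, g2⟩ := EndA.half hc hs hz.1 hz.2 hzS hz'.1 hz'.2 h
      exact hmin _ _ g1 g2
    · obtain ⟨g1, g2⟩ := EndA.half hc hs.symm hz'.1 hz'.2 hzS' hz.1 hz.2 h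
      exact hmin _ _ g1 g2
  · intro F hF
    by_contra hcon
    push Not at hcon
    have hcs := hc.cS
    have hS' : (S ∪ (F ∩ X)).card ≤ 3 * S.card := by
      have e1 := Finset.card_union_le S (F ∩ X)
      have e2 : (F ∩ X).card ≤ F.card := Finset.card_le_card Finset.inter_subset_left
      omega
    have hXd : 4 ^ j * κ ≤ X.card := by
      obtain ⟨z, hz⟩ := hc.ne
      exact (hc.deg z hz).trans (Finset.card_le_card (hc.nbX z hz))
    have hsub : S ∪ (F ∩ X) ⊆ X := Finset.union_subset hc.SX Finset.inter_subset_right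
    have hmem : ∀ z ∈ X \ (S ∪ (F ∩ X)), z ∈ X \ S ∧ z ∉ F := by
      intro z hz
      simp only [Finset.mem_sdiff, Finset.mem_union, Finset.mem_inter, not_or, not_and] at hz ⊢
      exact ⟨⟨hz.1, hz.2.1⟩, fun h => hz.2.2 h hz.1⟩
    refine hjm (j + 1) (Nat.lt_succ_self j) ⟨X, S ∪ (F ∩ X), hsub, hc.XW, ?_, ?_, ?_, ?_⟩
    · rw [← Finset.card_pos, Finset.card_sdiff_of_subset hsub]
      omega
    · intro z hz
      exact hc.nbX z (hmem z hz).1
    · intro z hz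
      have := hcon z (hmem z hz).1 (hmem z hz).2
      have e : 4 ^ (j + 1) * κ = 4 * (4 ^ j * κ) := by ring
      rw [e]
      omega
    · have e : 4 ^ (j + 1) * κ = 4 * (4 ^ j * κ) := by ring
      rw [e]
      omega

end Pool.MP_a862e4_co.H18
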