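import Pool.Agent.W_a862e4_h18.Defs

/-!
Assignment and matching.
-/

set_option autoImplicit false
set_option linter.unusedSectionVars false

namespace Pool.MP_a862e4_co.H18

open Pool.MP_4929df_co.H91
open scoped Classical

variable {V : Type*} [Fintype V]

/-- **Assignment.**  `S1 ⊆ S` with `N` such that `N x ⊆ nb G Z x`, `|N x| = a` for `x ∈ S1` and every
`z` is in at most `a` of the sets `N x`, `x ∈ S1` (`S1 = ∅` is possible); take `|S1|` maximal.
`Z0 = {z ∈ Z | a ≤ |{x ∈ S1 | z ∈ N x}|}`: `a |Z0| ≤ ∑ x ∈ S1, |N x| = a |S1|`, so `|Z0| ≤ |S1| ≤ |S|`.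
Every `x ∈ S \ S1` has fewer than `a` neighbours in `Z \ Z0` (otherwise put `N x` = `a` of them and enlarge
`S1`).  `Exc = {z ∈ Z \ Z0 | c < |nb G (S \ S1) z|}`: counting edges between `Exc` and `S \ S1`:
`(c + 1) |Exc| ≤ a |S \ S1| ≤ (c + 1) |S|`, so `|Exc| ≤ |S|`.  `F = Z0 ∪ Exc`. -/
theorem exists_assign (G : SimpleGraph V) (S Z : Finset V) (a c : ℕ) (ha : 0 < a) (hac : a ≤ c) :
    ∃ (S1 : Finset V) (N : V → Finset V) (F : Finset V), S1 ⊆ S ∧ F.card ≤ 2 * S.card ∧
      (∀ x ∈ S1, N x ⊆ nb G Z x ∧ (N x).card = a) ∧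
      (∀ z, (S1.filter (fun x => z ∈ N x)).card ≤ a) ∧
      ∀ z ∈ Z, z ∉ F → (nb G (S \ S1) z).card ≤ c := by
  let P : Finset V → Prop := fun S1 => ∃ N : V → Finset V,
    (∀ x ∈ S1, N x ⊆ nb G Z x ∧ (N x).card = a) ∧
      ∀ z, (S1.filter (fun x => z ∈ N x)).card ≤ a
  have hne : (S.powerset.filter P).Nonempty := by
    refine ⟨∅, Finset.mem_filter.2 ⟨Finset.empty_mem_powerset _, fun _ => ∅, ?_, ?_⟩⟩
    · intro x hx
      exact absurd hx (Finset.notMem_empty x)
    · intro z
      simp
  obtain ⟨S1, hS1, hmax⟩ := Finset.exists_max_image (S.powerset.filter P) Finset.card hne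
  rw [Finset.mem_filter, Finset.mem_powerset] at hS1
  obtain ⟨hS1S, N, hN1, hN2⟩ := hS1
  obtain ⟨Z0, hZ0⟩ : ∃ Z0, Z0 = Z.filter (fun z => a ≤ (S1.filter (fun x => z ∈ N x)).card) :=
    ⟨_, rfl⟩
  obtain ⟨Exc, hExc⟩ : ∃ E, E = (Z \ Z0).filter (fun z => c < (nb G (S \ S1) z).card) := ⟨_, rfl⟩
  -- step 1
  have h1 : Z0.card ≤ S1.card := by
    have e := Finset.sum_card_bipartiteAbove_eq_sum_card_bipartiteBelow
      (s := Z0) (t := S1) (fun z x => z ∈ N x)
    have e1 : a * Z0.card ≤ ∑ z ∈ Z0, (S1.filter (fun x => z ∈ N x)).card := by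
      rw [mul_comm, ← smul_eq_mul]
      apply Finset.card_nsmul_le_sum
      intro z hz
      rw [hZ0, Finset.mem_filter] at hz
      exact hz.2
    have e2 : ∑ x ∈ S1, (Z0.filter (fun z => z ∈ N x)).card ≤ S1.card * a := by
      rw [← smul_eq_mul]
      apply Finset.sum_le_card_nsmul
      intro x hx
      rw [← (hN1 x hx).2]
      apply Finset.card_le_card
      intro z hz
      exact (Finset.mem_filter.1 hz).2
    have e3 : a * Z0.card ≤ S1.card * a := by
      refine e1.trans (le_of_eq_of_le ?_ e2)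
      exact e
    rw [mul_comm S1.card a] at e3
    exact Nat.le_of_mul_le_mul_left e3 ha
  -- step 2
  have h2 : ∀ x ∈ S \ S1, (nb G (Z \ Z0) x).card < a := by
    intro x hx
    rw [Finset.mem_sdiff] at hx
    by_contra hcon
    rw [not_lt] at hcon
    obtain ⟨M, hM, hMc⟩ := Finset.exists_subset_card_eq hcon
    have hMZ : ∀ z ∈ M, z ∈ Z ∧ z ∉ Z0 ∧ G.Adj x z := by
      intro z hz
      have := mem_nbf.1 (hM hz)
      rw [Finset.mem_sdiff] at this
      exact ⟨this.1.1, this.1.2, this.2⟩
    have hup : ∀ y ∈ S1, Function.update N x M y = N y := by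
      intro y hy
      apply Function.update_of_ne
      rintro rfl
      exact hx.2 hy
    have hP : insert x S1 ∈ S.powerset.filter P := by
      rw [Finset.mem_filter, Finset.mem_powerset]
      refine ⟨Finset.insert_subset hx.1 hS1S, Function.update N x M, ?_, ?_⟩
      · intro y hy
        rw [Finset.mem_insert] at hy
        rcases hy with rfl | hy
        · rw [Function.update_self]
          refine ⟨?_, hMc⟩
          intro z hz
          exact mem_nbf.2 ⟨(hMZ z hz).1, (hMZ z hz).2.2⟩
        · rw [hup y hy]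
          exact hN1 y hy
      · intro z
        have e1 : (insert x S1).filter (fun y => z ∈ Function.update N x M y) ⊆
            (if z ∈ M then {x} else ∅) ∪ S1.filter (fun y => z ∈ N y) := by
          intro y hy
          rw [Finset.mem_filter, Finset.mem_insert] at hy
          rw [Finset.mem_union, Finset.mem_filter]
          rcases hy with ⟨rfl | hy, hz⟩
          · left
            rw [Function.update_self] at hz
            rw [if_pos hz]
            exact Finset.mem_singleton_self _
          · right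
            rw [hup y hy] at hz
            exact ⟨hy, hz⟩
        have e2 := (Finset.card_le_card e1).trans (Finset.card_union_le _ _)
        by_cases hz : z ∈ M
        · rw [if_pos hz, Finset.card_singleton] at e2
          have e3 : ¬ a ≤ (S1.filter (fun y => z ∈ N y)).card := by
            intro h
            apply (hMZ z hz).2.1
            rw [hZ0, Finset.mem_filter]
            exact ⟨(hMZ z hz).1, h⟩
          omega
        · rw [if_neg hz, Finset.card_empty] at e2
          have e3 := hN2 z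
          omega
    have h3 := hmax _ hP
    rw [Finset.card_insert_of_notMem hx.2] at h3
    omega
  -- step 3
  have h3 : Exc.card ≤ S.card := by
    have e := Finset.sum_card_bipartiteAbove_eq_sum_card_bipartiteBelow
      (s := Exc) (t := S \ S1) (fun z x => G.Adj z x)
    have e1 : (c + 1) * Exc.card ≤ ∑ z ∈ Exc, (nb G (S \ S1) z).card := by
      rw [mul_comm, ← smul_eq_mul]
      apply Finset.card_nsmul_le_sum
      intro z hz
      rw [hExc, Finset.mem_filter] at hz
      exact hz.2
    have e2 : ∑ x ∈ S \ S1, (Exc.filter (fun z => G.Adj z x)).card ≤ (S \ S1).card * a := by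
      rw [← smul_eq_mul]
      apply Finset.sum_le_card_nsmul
      intro x hx
      refine (Finset.card_le_card ?_).trans (h2 x hx).le
      intro z hz
      rw [Finset.mem_filter] at hz
      rw [mem_nbf]
      have h4 := hz.1
      rw [hExc, Finset.mem_filter] at h4
      exact ⟨h4.1, hz.2.symm⟩
    have e3 : (c + 1) * Exc.card ≤ (S \ S1).card * a := by
      refine e1.trans (le_of_eq_of_le ?_ e2)
      exact e
    have e4 : (S \ S1).card ≤ S.card := Finset.card_le_card Finset.sdiff_subset
    have e5 : (S \ S1).card * a ≤ (c + 1) * S.card := by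
      rw [mul_comm]
      exact Nat.mul_le_mul (by omega) e4
    exact Nat.le_of_mul_le_mul_left (e3.trans e5) (Nat.succ_pos c)
  refine ⟨S1, N, Z0 ∪ Exc, hS1S, ?_, hN1, hN2, ?_⟩
  · have := Finset.card_union_le Z0 Exc
    have := Finset.card_le_card hS1S
    omega
  · intro z hz hzF
    rw [Finset.mem_union, not_or] at hzF
    by_contra hcon
    apply hzF.2
    rw [hExc, Finset.mem_filter, Finset.mem_sdiff]
    exact ⟨⟨hz, hzF.1⟩, by omega⟩

/-- Hall's theorem (`Finset.all_card_le_biUnion_card_iff_exists_injective`) for the family `al t`,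
`t ∈ T1 ∪ T2`: a set `T' ⊆ T1 ∪ T2` that contains a `t ∈ T2` has
`|T'| ≤ |T1 ∪ T2| ≤ |al t|`; for `T' ⊆ T1` count the pairs `(t, z)`, `t ∈ T'`, `z ∈ al t`:
`b |T'| ≤ ∑ t ∈ T', |al t| ≤ b |⋃ al t|`. -/
theorem exists_match (T1 T2 : Finset V) (al : V → Finset V) (b : ℕ) (hb : 0 < b)
    (h1 : ∀ t ∈ T1, b ≤ (al t).card)
    (h1' : ∀ z, (T1.filter (fun t => z ∈ al t)).card ≤ b)
    (h2 : ∀ t ∈ T2, (T1 ∪ T2).card ≤ (al t).card) :
    ∃ π : V → V, (∀ t ∈ T1 ∪ T2, π t ∈ al t) ∧ Set.InjOn π (T1 ∪ T2 : Finset V) := by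
  have hall : ∀ s : Finset {t // t ∈ T1 ∪ T2}, s.card ≤ (s.biUnion (fun t => al t.1)).card := by
    intro s
    by_cases hs : ∃ t ∈ s, t.1 ∈ T2
    · obtain ⟨t, hts, ht⟩ := hs
      have e1 : s.card ≤ (T1 ∪ T2).card := by
        refine (Finset.card_le_univ s).trans ?_
        rw [Fintype.card_coe]
      have e2 : (al t.1).card ≤ (s.biUnion (fun t => al t.1)).card :=
        Finset.card_le_card (Finset.subset_biUnion_of_mem (fun t : {t // t ∈ T1 ∪ T2} => al t.1) hts)
      exact e1.trans ((h2 t.1 ht).trans e2)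
    · push Not at hs
      have hs1 : ∀ t ∈ s, t.1 ∈ T1 := by
        intro t ht
        rcases Finset.mem_union.1 t.2 with h | h
        · exact h
        · exact absurd h (hs t ht)
      obtain ⟨U, hU⟩ : ∃ U, U = s.biUnion (fun t => al t.1) := ⟨_, rfl⟩
      have e := Finset.sum_card_bipartiteAbove_eq_sum_card_bipartiteBelow
        (s := s) (t := U) (fun t z => z ∈ al t.1)
      have e1 : b * s.card ≤ ∑ t ∈ s, (U.filter (fun z => z ∈ al t.1)).card := by
        rw [mul_comm, ← smul_eq_mul]
        apply Finset.card_nsmul_le_sum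
        intro t ht
        refine (h1 t.1 (hs1 t ht)).trans (Finset.card_le_card ?_)
        intro z hz
        rw [Finset.mem_filter]
        refine ⟨?_, hz⟩
        rw [hU, Finset.mem_biUnion]
        exact ⟨t, ht, hz⟩
      have e2 : ∑ z ∈ U, (s.filter (fun t => z ∈ al t.1)).card ≤ U.card * b := by
        rw [← smul_eq_mul]
        apply Finset.sum_le_card_nsmul
        intro z _
        refine le_trans ?_ (h1' z)
        apply Finset.card_le_card_of_injOn Subtype.val
        · intro t ht
          rw [Finset.mem_coe, Finset.mem_filter] at ht ⊢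
          exact ⟨hs1 t ht.1, ht.2⟩
        · intro t _ t' _ h
          exact Subtype.ext h
      have e3 : b * s.card ≤ b * U.card := by
        rw [mul_comm b U.card]
        refine e1.trans (le_of_eq_of_le ?_ e2)
        exact e
      rw [← hU]
      exact Nat.le_of_mul_le_mul_left e3 hb
  obtain ⟨f, hf1, hf2⟩ := (Finset.all_card_le_biUnion_card_iff_exists_injective
    (fun t : {t // t ∈ T1 ∪ T2} => al t.1)).1 hall
  refine ⟨fun v => if h : v ∈ T1 ∪ T2 then f ⟨v, h⟩ else v, ?_, ?_⟩
  · intro t ht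
    simp only [dif_pos ht]
    exact hf2 ⟨t, ht⟩
  · intro t ht t' ht' h
    rw [Finset.mem_coe] at ht ht'
    simp only [dif_pos ht, dif_pos ht'] at h
    exact congrArg Subtype.val (hf1 h)

end Pool.MP_a862e4_co.H18
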