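import Pool.Agent.W_a862e4_h18.ExT

/-!
Probabilities of the degree events.
-/

set_option autoImplicit false
set_option linter.unusedSectionVars false

namespace Pool.MP_a862e4_co.H18

open Pool.MP_4929df_co.H91
open scoped Classical

variable {V : Type*} [Fintype V]

/-- `N = |N|`, `k = N / 38400 + 1`: the event is empty if `|N| = 0` and implies `k ≤ |N ∩ A|`.
`Ex_tail`; `choose ≤ |N| ^ k / k!` (`Nat.choose_le_pow_div`), `k ^ k / k! ≤ exp k ≤ 3 ^ k`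
(`Real.pow_div_factorial_le_exp`, `Real.exp_one_lt_d9`), `|N| / k ≤ 38400`: the probability is at most
`(3 * 38400 / 2 ^ 22) ^ k ≤ (1/32) ^ k = (1/2) ^ (5 k)`, and `5 k ≥ b` as
`4 * 38400 * k ≥ 4 |N| ≥ 38400 b`, i.e. `4 k ≥ b`. -/
theorem e1_prob (N : Finset V) (b : ℕ) (hN : 9600 * b ≤ N.card) :
    Ex Finset.univ (1 / 2 ^ 22 : ℝ) (fun A => ind (N.card < 38400 * (N ∩ A).card)) ≤
      (1 / 2 : ℝ) ^ b := by
  obtain ⟨k, hk⟩ : ∃ k, k = N.card / 38400 + 1 := ⟨_, rfl⟩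
  have hk1 : N.card < 38400 * k := by omega
  have h1 : Ex Finset.univ (1 / 2 ^ 22 : ℝ) (fun A => ind (N.card < 38400 * (N ∩ A).card)) ≤
      Ex Finset.univ (1 / 2 ^ 22 : ℝ) (fun A => ind (k ≤ (N ∩ A).card)) :=
    Ex_mono (by norm_num) (by norm_num) fun A _ => ind_mono fun h => by omega
  have h2 := Ex_tail (Finset.subset_univ N) (q := (1 / 2 ^ 22 : ℝ)) (by norm_num) (by norm_num) k
  have h3 : (N.card.choose k : ℝ) ≤ (115200 : ℝ) ^ k := by
    have a1 : (N.card.choose k : ℝ) ≤ (N.card : ℝ) ^ k / (k.factorial : ℝ) :=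
      Nat.choose_le_pow_div k N.card
    have a2 : (N.card : ℝ) ^ k ≤ (38400 * (k : ℝ)) ^ k := by
      refine pow_le_pow_left₀ (by positivity) ?_ k
      exact_mod_cast hk1.le
    have a3 : (k : ℝ) ^ k / (k.factorial : ℝ) ≤ Real.exp k :=
      Real.pow_div_factorial_le_exp (k : ℝ) (by positivity) k
    have a4 : Real.exp (k : ℝ) ≤ 3 ^ k := by
      have : Real.exp (k : ℝ) = Real.exp 1 ^ k := by
        rw [← Real.exp_nat_mul, mul_one]
      rw [this]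
      exact pow_le_pow_left₀ (Real.exp_pos 1).le
        (by linarith [Real.exp_one_lt_d9]) k
    have a5 : (0 : ℝ) < (k.factorial : ℝ) := by exact_mod_cast Nat.factorial_pos k
    calc (N.card.choose k : ℝ) ≤ (N.card : ℝ) ^ k / (k.factorial : ℝ) := a1
      _ ≤ (38400 * (k : ℝ)) ^ k / (k.factorial : ℝ) := div_le_div_of_nonneg_right a2 a5.le
      _ = 38400 ^ k * ((k : ℝ) ^ k / (k.factorial : ℝ)) := by rw [mul_pow, mul_div_assoc]
      _ ≤ 38400 ^ k * 3 ^ k := mul_le_mul_of_nonneg_left (a3.trans a4) (by positivity)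
      _ = (115200 : ℝ) ^ k := by rw [← mul_pow]; norm_num
  have h4 : (N.card.choose k : ℝ) * (1 / 2 ^ 22 : ℝ) ^ k ≤ (1 / 32 : ℝ) ^ k := by
    calc (N.card.choose k : ℝ) * (1 / 2 ^ 22 : ℝ) ^ k ≤ (115200 : ℝ) ^ k * (1 / 2 ^ 22 : ℝ) ^ k :=
          mul_le_mul_of_nonneg_right h3 (by positivity)
      _ = (115200 * (1 / 2 ^ 22 : ℝ)) ^ k := by rw [mul_pow]
      _ ≤ (1 / 32 : ℝ) ^ k := pow_le_pow_left₀ (by norm_num) (by norm_num) k
  have h5 : (1 / 32 : ℝ) ^ k ≤ (1 / 2 : ℝ) ^ b := by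
    have : (1 / 32 : ℝ) ^ k = (1 / 2 : ℝ) ^ (5 * k) := by
      rw [pow_mul]; norm_num
    rw [this]
    exact pow_le_pow_of_le_one (by norm_num) (by norm_num) (by omega)
  exact (h1.trans h2).trans (h4.trans h5)

/-- `Ex_tail` with `k = b + 1`, `choose ≤ 2 ^ |N| ≤ 2 ^ (2 b)`. -/
theorem e2_prob (N : Finset V) (b : ℕ) (hN : N.card ≤ 2 * b) :
    Ex Finset.univ (1 / 2 ^ 22 : ℝ) (fun A => ind (b < (N ∩ A).card)) ≤
      (1 / 2 : ℝ) ^ (20 * b) := by
  have h2 := Ex_tail (Finset.subset_univ N) (q := (1 / 2 ^ 22 : ℝ)) (by norm_num) (by norm_num)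
    (b + 1)
  refine h2.trans ?_
  have h3 : (N.card.choose (b + 1) : ℝ) ≤ 2 ^ (2 * b) := by
    have a1 : N.card.choose (b + 1) ≤ 2 ^ N.card := Nat.choose_le_two_pow _ _
    have a2 : 2 ^ N.card ≤ 2 ^ (2 * b) := Nat.pow_le_pow_right (by norm_num) hN
    exact_mod_cast a1.trans a2
  have h4 : (1 / 2 ^ 22 : ℝ) ^ (b + 1) = (1 / 2 : ℝ) ^ (22 * b + 22) := by
    rw [← one_div_pow, ← pow_mul]
    congr 1
  have h5 : (1 / 2 : ℝ) ^ (22 * b + 22) ≤ (1 / 2 : ℝ) ^ (22 * b) :=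
    pow_le_pow_of_le_one (by norm_num) (by norm_num) (by omega)
  calc (N.card.choose (b + 1) : ℝ) * (1 / 2 ^ 22 : ℝ) ^ (b + 1)
      ≤ 2 ^ (2 * b) * (1 / 2 : ℝ) ^ (22 * b) := by
        rw [h4]
        exact mul_le_mul h3 h5 (by positivity) (by positivity)
    _ = (1 / 2 : ℝ) ^ (20 * b) := by
        have : (22 * b) = 2 * b + 20 * b := by ring
        rw [this, pow_add, ← mul_assoc, ← mul_pow]
        norm_num

end Pool.MP_a862e4_co.H18
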