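import Pool.Agent.W_a862e4_h18.Defs

/-!
Random subsets: `Ex S q f` is the expectation of `f A`, where `A ⊆ S` contains every element of
`S` independently with probability `q`.  Everything by `Ex_insert` and induction on `S`.
-/

set_option autoImplicit false
set_option linter.unusedSectionVars false

namespace Pool.MP_a862e4_co.H18

open Pool.MP_4929df_co.H91
open scoped Classical

variable {V : Type*} [Fintype V]

/-- indicator -/
noncomputable def ind (P : Prop) : ℝ := if P then 1 else 0

/-- expectation -/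
noncomputable def Ex (S : Finset V) (q : ℝ) (f : Finset V → ℝ) : ℝ :=
  ∑ A ∈ S.powerset, q ^ A.card * (1 - q) ^ (S \ A).card * f A

theorem ind_nonneg (P : Prop) : 0 ≤ ind P := by unfold ind; split_ifs <;> norm_num

theorem ind_le_one (P : Prop) : ind P ≤ 1 := by unfold ind; split_ifs <;> norm_num

theorem ind_true {P : Prop} (h : P) : ind P = 1 := if_pos h

theorem ind_false {P : Prop} (h : ¬ P) : ind P = 0 := if_neg h

theorem ind_mono {P Q : Prop} (h : P → Q) : ind P ≤ ind Q := by
  by_cases hP : P
  · rw [ind_true hP, ind_true (h hP)]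
  · rw [ind_false hP]; exact ind_nonneg Q

theorem ind_or_le (P Q : Prop) : ind (P ∨ Q) ≤ ind P + ind Q := by
  by_cases hP : P
  · rw [ind_true hP, ind_true (Or.inl hP)]; linarith [ind_nonneg Q]
  · by_cases hQ : Q
    · rw [ind_true hQ, ind_true (Or.inr hQ)]; linarith [ind_nonneg P]
    · rw [ind_false (fun h => h.elim hP hQ)]; linarith [ind_nonneg P, ind_nonneg Q]

theorem ind_and (P Q : Prop) : ind (P ∧ Q) = ind P * ind Q := by
  by_cases hP : P <;> by_cases hQ : Q <;> simp [ind, hP, hQ]

theorem ind_exists_le {ι : Type*} (s : Finset ι) (P : ι → Prop) :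
    ind (∃ i ∈ s, P i) ≤ ∑ i ∈ s, ind (P i) := by
  by_cases h : ∃ i ∈ s, P i
  · rw [ind_true h]
    obtain ⟨i, hi, hP⟩ := h
    calc (1 : ℝ) = ind (P i) := (ind_true hP).symm
      _ ≤ _ := Finset.single_le_sum (f := fun i => ind (P i)) (fun j _ => ind_nonneg _) hi
  · rw [ind_false h]
    exact Finset.sum_nonneg fun j _ => ind_nonneg _

/-! ### basic rules -/

theorem Ex_empty (q : ℝ) (f : Finset V → ℝ) : Ex ∅ q f = f ∅ := by
  simp [Ex]

/-- `Finset.sum_powerset_insert`; for `A ⊆ S`, `v ∉ S`: `insert v S \ A = insert v (S \ A)`,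
`insert v S \ insert v A = S \ A`. -/
theorem Ex_insert {S : Finset V} {v : V} (hv : v ∉ S) (q : ℝ) (f : Finset V → ℝ) :
    Ex (insert v S) q f = q * Ex S q (fun A => f (insert v A)) + (1 - q) * Ex S q f := by
  unfold Ex
  rw [Finset.sum_powerset_insert hv, add_comm, Finset.mul_sum, Finset.mul_sum]
  congr 1
  · refine Finset.sum_congr rfl fun A hA => ?_
    have hA' := Finset.mem_powerset.1 hA
    have hvA : v ∉ A := fun h => hv (hA' h)
    have h1 : insert v S \ insert v A = S \ A := by
      ext x
      simp only [Finset.mem_sdiff, Finset.mem_insert]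
      constructor
      · rintro ⟨h1, h2⟩
        push Not at h2
        exact ⟨h1.resolve_left h2.1, h2.2⟩
      · rintro ⟨h1, h2⟩
        refine ⟨Or.inr h1, ?_⟩
        rintro (rfl | h3)
        · exact hv h1
        · exact h2 h3
    rw [h1, Finset.card_insert_of_notMem hvA, pow_succ]
    ring
  · refine Finset.sum_congr rfl fun A hA => ?_
    have hA' := Finset.mem_powerset.1 hA
    have hvA : v ∉ A := fun h => hv (hA' h)
    have h1 : insert v S \ A = insert v (S \ A) := by
      ext x
      simp only [Finset.mem_sdiff, Finset.mem_insert]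
      constructor
      · rintro ⟨h1 | h1, h2⟩
        · exact Or.inl h1
        · exact Or.inr ⟨h1, h2⟩
      · rintro (rfl | ⟨h1, h2⟩)
        · exact ⟨Or.inl rfl, hvA⟩
        · exact ⟨Or.inr h1, h2⟩
    have h2 : v ∉ S \ A := fun h => hv (Finset.mem_sdiff.1 h).1
    rw [h1, Finset.card_insert_of_notMem h2, pow_succ]
    ring

theorem Ex_congr {S : Finset V} {q : ℝ} {f g : Finset V → ℝ} (h : ∀ A ⊆ S, f A = g A) :
    Ex S q f = Ex S q g := by
  unfold Ex
  exact Finset.sum_congr rfl fun A hA => by rw [h A (Finset.mem_powerset.1 hA)]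

theorem Ex_mono {S : Finset V} {q : ℝ} (h0 : 0 ≤ q) (h1 : q ≤ 1) {f g : Finset V → ℝ}
    (h : ∀ A ⊆ S, f A ≤ g A) : Ex S q f ≤ Ex S q g := by
  unfold Ex
  refine Finset.sum_le_sum fun A hA => ?_
  have h2 : (0 : ℝ) ≤ 1 - q := by linarith
  exact mul_le_mul_of_nonneg_left (h A (Finset.mem_powerset.1 hA)) (by positivity)

theorem Ex_add (S : Finset V) (q : ℝ) (f g : Finset V → ℝ) :
    Ex S q (fun A => f A + g A) = Ex S q f + Ex S q g := by
  unfold Ex
  rw [← Finset.sum_add_distrib]
  exact Finset.sum_congr rfl fun A _ => by ring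

theorem Ex_mul_left (S : Finset V) (q c : ℝ) (f : Finset V → ℝ) :
    Ex S q (fun A => c * f A) = c * Ex S q f := by
  unfold Ex
  rw [Finset.mul_sum]
  exact Finset.sum_congr rfl fun A _ => by ring

theorem Ex_sum {ι : Type*} (s : Finset ι) (S : Finset V) (q : ℝ) (f : ι → Finset V → ℝ) :
    Ex S q (fun A => ∑ i ∈ s, f i A) = ∑ i ∈ s, Ex S q (f i) := by
  unfold Ex
  rw [Finset.sum_comm]
  exact Finset.sum_congr rfl fun A _ => by rw [Finset.mul_sum]

/-- induction on `S` -/
theorem Ex_const (S : Finset V) (q c : ℝ) : Ex S q (fun _ => c) = c := by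
  induction S using Finset.induction_on with
  | empty => exact Ex_empty q _
  | insert v S hv ih => rw [Ex_insert hv, ih]; ring

/-- induction on `T` -/
theorem Ex_union {S T : Finset V} (h : Disjoint S T) (q : ℝ) (f : Finset V → ℝ) :
    Ex (S ∪ T) q f = Ex S q (fun A => Ex T q (fun B => f (A ∪ B))) := by
  induction T using Finset.induction_on generalizing f with
  | empty => simp only [Finset.union_empty, Ex_empty]
  | insert v T hv ih =>
    have hd : Disjoint S T := Finset.disjoint_of_subset_right (Finset.subset_insert v T) h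
    have hvS : v ∉ S := Finset.disjoint_right.1 h (Finset.mem_insert_self v T)
    have hvU : v ∉ S ∪ T := by
      rw [Finset.mem_union]
      rintro (h1 | h1)
      · exact hvS h1
      · exact hv h1
    rw [Finset.union_insert, Ex_insert hvU, ih hd, ih hd, ← Ex_mul_left, ← Ex_mul_left,
      ← Ex_add]
    refine Ex_congr fun A _ => ?_
    rw [Ex_insert hv]
    simp only [Finset.union_insert]

/-- union of independent sets; induction on `S` for all `f` -/
theorem Ex_cup (S : Finset V) (q q' : ℝ) (f : Finset V → ℝ) :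
    Ex S q (fun A => Ex S q' (fun B => f (A ∪ B))) = Ex S (q + q' - q * q') f := by
  induction S using Finset.induction_on generalizing f with
  | empty => simp only [Ex_empty, Finset.union_empty]
  | insert v S hv ih =>
    rw [Ex_insert hv, Ex_insert hv, ← ih, ← ih]
    have h1 : ∀ A : Finset V, Ex (insert v S) q' (fun B => f (insert v A ∪ B)) =
        Ex S q' (fun B => f (insert v (A ∪ B))) := by
      intro A
      rw [Ex_insert hv]
      simp only [Finset.insert_union, Finset.union_insert, Finset.insert_idem]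
      ring
    have h2 : ∀ A : Finset V, Ex (insert v S) q' (fun B => f (A ∪ B)) =
        q' * Ex S q' (fun B => f (insert v (A ∪ B))) + (1 - q') * Ex S q' (fun B => f (A ∪ B)) := by
      intro A
      rw [Ex_insert hv]
      simp only [Finset.union_insert]
    simp only [h1, h2]
    rw [Ex_add, Ex_mul_left, Ex_mul_left]
    ring

/-- thinning; induction on `S` for all `f` -/
theorem Ex_diff (S : Finset V) (q q' : ℝ) (f : Finset V → ℝ) :
    Ex S q (fun A => Ex S q' (fun B => f (A \ B))) = Ex S (q * (1 - q')) f := by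
  induction S using Finset.induction_on generalizing f with
  | empty => simp only [Ex_empty, Finset.sdiff_empty]
  | insert v S hv ih =>
    rw [Ex_insert hv, Ex_insert hv, ← ih, ← ih]
    have h1 : ∀ A ⊆ S, Ex (insert v S) q' (fun B => f (insert v A \ B)) =
        q' * Ex S q' (fun B => f (A \ B)) + (1 - q') * Ex S q' (fun B => f (insert v (A \ B))) := by
      intro A hA
      have hvA : v ∉ A := fun h => hv (hA h)
      rw [Ex_insert hv]
      congr 2
      · refine Ex_congr fun B _ => ?_
        congr 1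
        rw [Finset.insert_sdiff_insert, Finset.sdiff_insert_of_notMem hvA]
      · refine Ex_congr fun B hB => ?_
        congr 1
        rw [Finset.insert_sdiff_of_notMem]
        exact fun h => hv (hB h)
    have h2 : ∀ A ⊆ S, Ex (insert v S) q' (fun B => f (A \ B)) = Ex S q' (fun B => f (A \ B)) := by
      intro A hA
      have hvA : v ∉ A := fun h => hv (hA h)
      rw [Ex_insert hv]
      simp only [Finset.sdiff_insert_of_notMem hvA]
      ring
    rw [Ex_congr h1, Ex_congr h2, Ex_add, Ex_mul_left, Ex_mul_left]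
    ring

/-- a function of `A ∩ T` only; `Ex_union` for `T` and `S \ T`, `Ex_const` -/
theorem Ex_local {S T : Finset V} (hT : T ⊆ S) (q : ℝ) (f : Finset V → ℝ)
    (hf : ∀ A ⊆ S, f A = f (A ∩ T)) : Ex S q f = Ex T q f := by
  have hS : S = T ∪ (S \ T) := (Finset.union_sdiff_of_subset hT).symm
  have h := Ex_union (Finset.disjoint_sdiff (s := T) (t := S)) q f
  rw [← hS] at h
  rw [h]
  refine Ex_congr fun A hA => ?_
  have h1 : ∀ B ⊆ S \ T, f (A ∪ B) = f A := by
    intro B hB
    have hAB : A ∪ B ⊆ S :=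
      Finset.union_subset (hA.trans hT) (hB.trans Finset.sdiff_subset)
    rw [hf _ hAB]
    congr 1
    ext x
    simp only [Finset.mem_inter, Finset.mem_union]
    constructor
    · rintro ⟨h2 | h2, h3⟩
      · exact h2
      · exact absurd h3 (Finset.mem_sdiff.1 (hB h2)).2
    · intro h2
      exact ⟨Or.inl h2, hA h2⟩
  rw [Ex_congr h1, Ex_const]

/-- independence: `f` depends on `A ∩ T`, `g` on `A ∩ T'`, `T`, `T'` disjoint.  `Ex_union` for `T` and
`S \ T`, `Ex_local`. -/
theorem Ex_indep {S T T' : Finset V} (hT : T ⊆ S) (hT' : T' ⊆ S) (hd : Disjoint T T') (q : ℝ)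
    (f g : Finset V → ℝ) (hf : ∀ A ⊆ S, f A = f (A ∩ T)) (hg : ∀ A ⊆ S, g A = g (A ∩ T')) :
    Ex S q (fun A => f A * g A) = Ex S q f * Ex S q g := by
  have hS : S = T ∪ (S \ T) := (Finset.union_sdiff_of_subset hT).symm
  have h := fun F : Finset V → ℝ => Ex_union (Finset.disjoint_sdiff (s := T) (t := S)) q F
  rw [← hS] at h
  have h1 : ∀ A ⊆ T, ∀ B ⊆ S \ T, f (A ∪ B) = f A := by
    intro A hA B hB
    have hAB : A ∪ B ⊆ S :=
      Finset.union_subset (hA.trans hT) (hB.trans Finset.sdiff_subset)
    rw [hf _ hAB]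
    congr 1
    ext x
    simp only [Finset.mem_inter, Finset.mem_union]
    constructor
    · rintro ⟨h2 | h2, h3⟩
      · exact h2
      · exact absurd h3 (Finset.mem_sdiff.1 (hB h2)).2
    · intro h2
      exact ⟨Or.inl h2, hA h2⟩
  have h2 : ∀ A ⊆ T, ∀ B ⊆ S \ T, g (A ∪ B) = g B := by
    intro A hA B hB
    have hAB : A ∪ B ⊆ S :=
      Finset.union_subset (hA.trans hT) (hB.trans Finset.sdiff_subset)
    rw [hg _ hAB, hg _ (hB.trans Finset.sdiff_subset)]
    congr 1
    ext x
    simp only [Finset.mem_inter, Finset.mem_union]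
    constructor
    · rintro ⟨h2 | h2, h3⟩
      · exact absurd h3 (Finset.disjoint_left.1 hd (hA h2))
      · exact ⟨h2, h3⟩
    · rintro ⟨h2, h3⟩
      exact ⟨Or.inr h2, h3⟩
  have hF : Ex S q f = Ex T q f := Ex_local hT q f hf
  have hG : Ex S q g = Ex (S \ T) q g := by
    rw [h g, Ex_congr (g := fun _ => Ex (S \ T) q g) (fun A hA => Ex_congr (h2 A hA)), Ex_const]
  rw [hF, hG, h]
  rw [Ex_congr (g := fun A => Ex (S \ T) q g * f A), Ex_mul_left, mul_comm]
  intro A hA
  rw [Ex_congr (g := fun B => f A * g B), Ex_mul_left, mul_comm]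
  intro B hB
  rw [h1 A hA B hB, h2 A hA B hB]

end Pool.MP_a862e4_co.H18
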