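import Pool.Agent.W_a862e4_h18.StC
import Pool.Agent.W_a862e4_h18.CutB
import Pool.Agent.W_a862e4_h18.Evt

/-!
Probability of good sets; the event for `W`.
-/

set_option autoImplicit false
set_option linter.unusedSectionVars false

namespace Pool.MP_a862e4_co.H18

open Pool.MP_4929df_co.H91
open scoped Classical

variable {V : Type*} [Fintype V]

theorem FinA_dl_nonneg (n b : ℕ) : 0 ≤ dl n b := by
  unfold dl
  positivity

theorem FinA_union_bound {G : SimpleGraph V} {b ρ : ℕ} {W X S S1 : Finset V}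
    {N : V → Finset V} (A : Finset V) :
    ind (¬ GoodA G b ρ W X S S1 N A) ≤
      ((∑ z ∈ W, ind (9600 * b ≤ (nb G W z).card ∧
          (nb G W z).card < 38400 * (nb G W z ∩ A).card)) +
        ((∑ x ∈ S1, ind (b < (N x ∩ A).card)) +
          ∑ z : V, ind (b < ((S1.filter (fun x => z ∈ N x)) ∩ A).card))) +
        ind (¬ Cut3 (gam G S) ρ X S A) := by
  have h1 : ind (¬ GoodA G b ρ W X S S1 N A) ≤
      ind (((∃ z ∈ W, 9600 * b ≤ (nb G W z).card ∧
          (nb G W z).card < 38400 * (nb G W z ∩ A).card) ∨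
        ((∃ x ∈ S1, b < (N x ∩ A).card) ∨
          ∃ z ∈ (Finset.univ : Finset V), b < ((S1.filter (fun x => z ∈ N x)) ∩ A).card)) ∨
        ¬ Cut3 (gam G S) ρ X S A) := by
    refine ind_mono fun hG => ?_
    by_contra hne
    push Not at hne
    obtain ⟨⟨k1, k2, k3⟩, k4⟩ := hne
    exact hG ⟨k1, k2, fun z => k3 z (Finset.mem_univ z), k4⟩
  refine h1.trans ((ind_or_le _ _).trans (add_le_add_left ?_ _))
  refine (ind_or_le _ _).trans (add_le_add (ind_exists_le _ _) ?_)
  exact (ind_or_le _ _).trans (add_le_add (ind_exists_le _ _) (ind_exists_le _ _))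

/-- `¬ GoodA` implies one of: some `z ∈ W` violates `e1` (`e1_prob`, at most `n` vertices), some
`x ∈ S1` violates `e2` (`e2_prob` for `N x`), some `z` violates `e2'` (`e2_prob` for
`S1.filter (z ∈ N x)`), `e3` fails (`cut3_prob` for `gam G S` by `End.fr` with `m = 128 ρ`,
`75 * 128 = 9600`; `b ≤ ρ`). -/
theorem good_prob {G : SimpleGraph V} {b c ρ : ℕ} (hb : 0 < b) {W X S S1 : Finset V}
    {N : V → Finset V} {v : V} (h : SD G b c ρ W X S S1 N v) :
    Ex Finset.univ (1 / 2 ^ 22 : ℝ) (fun A => ind (¬ GoodA G b ρ W X S S1 N A)) ≤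
      dl (Fintype.card V) b := by
  have hq0 : (0 : ℝ) ≤ 1 / 2 ^ 22 := by positivity
  have hq1 : (1 / 2 ^ 22 : ℝ) ≤ 1 := by norm_num
  have hρ : 0 < ρ := lt_of_lt_of_le hb h.bρ
  have hcard : ∀ T : Finset V, (T.card : ℝ) ≤ Fintype.card V := fun T => by
    exact_mod_cast Finset.card_le_univ T
  refine (Ex_mono hq0 hq1 fun A _ => FinA_union_bound (G := G) (b := b) (ρ := ρ) (W := W)
    (X := X) (S := S) (S1 := S1) (N := N) A).trans ?_
  rw [Ex_add, Ex_add, Ex_add, Ex_sum, Ex_sum, Ex_sum]
  have b1 : ∑ z ∈ W, Ex Finset.univ (1 / 2 ^ 22 : ℝ) (fun A => ind (9600 * b ≤ (nb G W z).card ∧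
      (nb G W z).card < 38400 * (nb G W z ∩ A).card)) ≤ Fintype.card V * (1 / 2) ^ b := by
    refine (Finset.sum_le_card_nsmul W _ ((1 / 2 : ℝ) ^ b) fun z _ => ?_).trans ?_
    · by_cases hz : 9600 * b ≤ (nb G W z).card
      · exact (Ex_mono hq0 hq1 fun A _ => ind_mono fun hh => hh.2).trans (e1_prob _ b hz)
      · refine (Ex_mono (g := fun _ => (0 : ℝ)) hq0 hq1 fun A _ => ?_).trans ?_
        · exact le_of_eq (ind_false fun hh => hz hh.1)
        · rw [Ex_const]; positivity
    · rw [nsmul_eq_mul]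
      exact mul_le_mul_of_nonneg_right (hcard W) (by positivity)
  have b2 : ∑ x ∈ S1, Ex Finset.univ (1 / 2 ^ 22 : ℝ) (fun A => ind (b < (N x ∩ A).card)) ≤
      Fintype.card V * (1 / 2) ^ (20 * b) := by
    refine (Finset.sum_le_card_nsmul S1 _ ((1 / 2 : ℝ) ^ (20 * b)) fun x hx => ?_).trans ?_
    · exact e2_prob _ b (h.N2 x hx).le
    · rw [nsmul_eq_mul]
      exact mul_le_mul_of_nonneg_right (hcard S1) (by positivity)
  have b3 : ∑ z : V, Ex Finset.univ (1 / 2 ^ 22 : ℝ)
      (fun A => ind (b < ((S1.filter (fun x => z ∈ N x)) ∩ A).card)) ≤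
      Fintype.card V * (1 / 2) ^ (20 * b) := by
    refine (Finset.sum_le_card_nsmul Finset.univ _ ((1 / 2 : ℝ) ^ (20 * b)) fun z _ => ?_).trans ?_
    · exact e2_prob _ b (h.N3 z)
    · rw [nsmul_eq_mul]
      exact mul_le_mul_of_nonneg_right (hcard Finset.univ) (by positivity)
  have b4 : Ex Finset.univ (1 / 2 ^ 22 : ℝ) (fun A => ind (¬ Cut3 (gam G S) ρ X S A)) ≤
      2 * (Fintype.card V : ℝ) * (1 / 2) ^ (7 * b) +
        16 * (Fintype.card V : ℝ) ^ 2 * (1 / 2) ^ (58 * b) := by
    have hE : End G (75 * (128 * ρ)) W X S := by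
      have h1 := h.e
      have h2 : 75 * (128 * ρ) = 9600 * ρ := by ring
      rw [h2]
      exact h1
    refine (cut3_prob hρ hE.fr).trans ?_
    have h3 : (1 / 2 : ℝ) ^ (7 * ρ) ≤ (1 / 2) ^ (7 * b) :=
      pow_le_pow_of_le_one (by norm_num) (by norm_num) (by have := h.bρ; omega)
    have h4 : (1 / 2 : ℝ) ^ (58 * ρ) ≤ (1 / 2) ^ (58 * b) :=
      pow_le_pow_of_le_one (by norm_num) (by norm_num) (by have := h.bρ; omega)
    exact add_le_add (mul_le_mul_of_nonneg_left h3 (by positivity))
      (mul_le_mul_of_nonneg_left h4 (by positivity))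
  unfold dl
  have e : (Fintype.card V : ℝ) * (1 / 2) ^ b + 2 * (Fintype.card V : ℝ) * (1 / 2) ^ (20 * b) +
      (2 * (Fintype.card V : ℝ) * (1 / 2) ^ (7 * b) +
        16 * (Fintype.card V : ℝ) ^ 2 * (1 / 2) ^ (58 * b)) =
      ((Fintype.card V : ℝ) * (1 / 2) ^ b + ((Fintype.card V : ℝ) * (1 / 2) ^ (20 * b) +
        (Fintype.card V : ℝ) * (1 / 2) ^ (20 * b))) +
      (2 * (Fintype.card V : ℝ) * (1 / 2) ^ (7 * b) +
        16 * (Fintype.card V : ℝ) ^ 2 * (1 / 2) ^ (58 * b)) := by ring
  rw [e]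
  exact add_le_add (add_le_add b1 (add_le_add b2 b3)) b4

theorem FinA_nb_mono {G : SimpleGraph V} {Y Z : Finset V} (h : Y ⊆ Z) (v : V) :
    nb G Y v ⊆ nb G Z v := by
  intro w hw
  rw [mem_nbf] at hw ⊢
  exact ⟨h hw.1, hw.2⟩

/-- Induction on `W.card`.  `W = ∅`: `E = True`, `Colb G ∅ _` needs `0 < 9600 b`.  `W` nonempty: if some
`v ∈ W` has `(nb G W v).card < 9600 b`: take `E` for `W.erase v`; `v ∉ A`: nothing to do, `v ∈ A`:
`greedy_step`.  Otherwise `exists_SD` with `c = 9600 b - p`, `E A ∧ GoodA A` with `E` for `W.erase v`;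
`good_prob`, `ind_or_le`, `step`. -/
theorem exists_event (G : SimpleGraph V) (b p : ℕ) (hb : 0 < b) (hp : p ≤ b) (W : Finset V) :
    ∃ E : Finset V → Prop,
      Ex Finset.univ (1 / 2 ^ 22 : ℝ) (fun A => ind (¬ E A)) ≤ W.card * dl (Fintype.card V) b ∧
      ∀ A, E A → Colb G (A ∩ W) (9600 * b) ∨ Scheme G p := by
  have hq0 : (0 : ℝ) ≤ 1 / 2 ^ 22 := by positivity
  have hq1 : (1 / 2 ^ 22 : ℝ) ≤ 1 := by norm_num
  have hdl := FinA_dl_nonneg (Fintype.card V) b
  induction hk : W.card generalizing W with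
  | zero =>
    rw [Finset.card_eq_zero] at hk
    subst hk
    refine ⟨fun _ => True, ?_, fun A _ => Or.inl ⟨fun _ => ⟨0, by omega⟩, ?_⟩⟩
    · have h1 : Ex Finset.univ (1 / 2 ^ 22 : ℝ) (fun _ : Finset V => ind (¬ True)) = 0 := by
        have h2 : (fun _ : Finset V => ind (¬ True)) = fun _ : Finset V => (0 : ℝ) := by
          funext A
          exact ind_false (fun h => h trivial)
        rw [h2, Ex_const]
      rw [h1]
      simp
    · intro x hx
      rw [Finset.inter_empty] at hx
      exact absurd hx (Finset.notMem_empty x)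
  | succ k ih =>
    have hW : W.Nonempty := by
      rw [← Finset.card_pos]
      omega
    by_cases hlow : ∃ v ∈ W, (nb G W v).card < 9600 * b
    · obtain ⟨v, hvW, hv⟩ := hlow
      have hc : (W.erase v).card = k := by
        rw [Finset.card_erase_of_mem hvW, hk]
        rfl
      obtain ⟨E, hE1, hE2⟩ := ih (W.erase v) hc
      refine ⟨E, ?_, ?_⟩
      · refine hE1.trans ?_
        push_cast
        nlinarith
      · intro A hA
        rcases hE2 A hA with h | h
        · left
          by_cases hvA : v ∈ A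
          · have h1 : A ∩ W = insert v (A ∩ W.erase v) := by
              ext x
              simp only [Finset.mem_inter, Finset.mem_insert, Finset.mem_erase]
              by_cases hx : x = v
              · subst hx
                simp [hvA, hvW]
              · simp [hx]
            rw [h1]
            refine greedy_step G _ _ v h (lt_of_le_of_lt (Finset.card_le_card
              (FinA_nb_mono ?_ v)) hv)
            exact fun x hx => Finset.mem_of_mem_erase (Finset.mem_inter.1 hx).2
          · have h1 : A ∩ W = A ∩ W.erase v := by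
              ext x
              simp only [Finset.mem_inter, Finset.mem_erase]
              by_cases hx : x = v
              · subst hx
                simp [hvA]
              · simp [hx]
            rw [h1]
            exact h
        · exact Or.inr h
    · push Not at hlow
      obtain ⟨ρ, X, S, S1, N, v, hSD⟩ := exists_SD G b (9600 * b - p) hb (by omega) W hW hlow
      have hvW : v ∈ W := hSD.e.XW (Finset.mem_sdiff.1 hSD.vZ).1
      have hc : (W.erase v).card = k := by
        rw [Finset.card_erase_of_mem hvW, hk]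
        rfl
      obtain ⟨E, hE1, hE2⟩ := ih (W.erase v) hc
      refine ⟨fun A => E A ∧ GoodA G b ρ W X S S1 N A, ?_, ?_⟩
      · have h1 : ∀ A ⊆ (Finset.univ : Finset V), ind (¬ (E A ∧ GoodA G b ρ W X S S1 N A)) ≤
            ind (¬ E A) + ind (¬ GoodA G b ρ W X S S1 N A) := by
          intro A _
          refine (ind_mono fun hh => ?_).trans (ind_or_le _ _)
          exact not_and_or.1 hh
        refine (Ex_mono hq0 hq1 h1).trans ?_
        rw [Ex_add]
        have h2 := good_prob hb hSD
        push_cast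
        linarith
      · rintro A ⟨hA1, hA2⟩
        rcases hE2 A hA1 with h | h
        · exact step hb (by omega) hSD hA2 h
        · exact Or.inr h

end Pool.MP_a862e4_co.H18
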