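import Pool.Agent.W_a862e4_h18.Ex

/-!
Labels.
-/

set_option autoImplicit false
set_option linter.unusedSectionVars false

namespace Pool.MP_a862e4_co.H18

open Pool.MP_4929df_co.H91
open scoped Classical

variable {V : Type*} [Fintype V]

theorem FinB_cls {r : ℕ} (i : Fin r) (A : Finset V) :
    (Finset.univ.filter (fun c : V → Fin r =>
      Finset.univ.filter (fun v => c v = i) = A)).card = (r - 1) ^ (Fintype.card V - A.card) := by
  have h1 : Finset.univ.filter (fun c : V → Fin r => Finset.univ.filter (fun v => c v = i) = A) =
      Fintype.piFinset (fun v => if v ∈ A then {i} else Finset.univ.erase i) := by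
    ext c
    simp only [Finset.mem_filter, Finset.mem_univ, true_and, Fintype.mem_piFinset]
    constructor
    · rintro rfl v
      by_cases h : c v = i
      · rw [if_pos (by simp [h])]
        simp [h]
      · rw [if_neg (by simp [h])]
        simp [h]
    · intro h
      ext v
      have h2 := h v
      by_cases hv : v ∈ A
      · rw [if_pos hv] at h2
        simpa [hv] using h2
      · rw [if_neg hv] at h2
        simpa [hv] using h2
  rw [h1, Fintype.card_piFinset]
  have h2 : ∀ v : V, (if v ∈ A then ({i} : Finset (Fin r)) else Finset.univ.erase i).card =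
      if v ∈ A then 1 else r - 1 := by
    intro v
    split_ifs
    · rfl
    · rw [Finset.card_erase_of_mem (Finset.mem_univ i)]
      simp
  rw [Finset.prod_congr rfl fun v _ => h2 v, Finset.prod_ite, Finset.prod_const_one, one_mul,
    Finset.prod_const]
  congr 1
  have h3 : Finset.univ.filter (fun v => v ∉ A) = Aᶜ := by
    ext v
    simp
  rw [h3, Finset.card_compl]

/-- The label classes: the number of `c : V → Fin r` whose class `{v | c v = i}` is `A` is
`(r - 1) ^ (|V| - |A|)` (`Fintype.card_piFinset`). -/
theorem label_count {r : ℕ} (hr : 0 < r) (i : Fin r) (E : Finset V → Prop) :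
    ((Finset.univ.filter (fun c : V → Fin r => E (Finset.univ.filter (fun v => c v = i)))).card : ℝ) =
      (r : ℝ) ^ (Fintype.card V) * Ex Finset.univ (1 / (r : ℝ)) (fun A => ind (E A)) := by
  have h1 := Finset.card_eq_sum_card_fiberwise
    (s := Finset.univ.filter (fun c : V → Fin r => E (Finset.univ.filter (fun v => c v = i))))
    (t := (Finset.univ : Finset V).powerset) (f := fun c => Finset.univ.filter (fun v => c v = i))
    (fun c _ => by simp)
  rw [h1, Nat.cast_sum]
  unfold Ex
  rw [Finset.mul_sum]
  refine Finset.sum_congr rfl fun A _ => ?_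
  have hr' : (r : ℝ) ≠ 0 := by
    have : (0 : ℝ) < r := by exact_mod_cast hr
    exact this.ne'
  have hA : A.card ≤ Fintype.card V := Finset.card_le_univ A
  have hsd : (Finset.univ \ A).card = Fintype.card V - A.card := by
    rw [← Finset.compl_eq_univ_sdiff, Finset.card_compl]
  rw [hsd]
  beta_reduce
  by_cases hE : E A
  · rw [ind_true hE, mul_one]
    have h2 : (Finset.univ.filter
        (fun c : V → Fin r => E (Finset.univ.filter (fun v => c v = i)))).filter
        (fun c => Finset.univ.filter (fun v => c v = i) = A) =
        Finset.univ.filter (fun c : V → Fin r => Finset.univ.filter (fun v => c v = i) = A) := by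
      ext c
      simp only [Finset.mem_filter, Finset.mem_univ, true_and]
      constructor
      · exact fun h => h.2
      · intro h
        refine ⟨?_, h⟩
        rw [h]
        exact hE
    rw [h2, FinB_cls, Nat.cast_pow, Nat.cast_sub hr, Nat.cast_one]
    obtain ⟨d, hd⟩ := Nat.exists_eq_add_of_le hA
    rw [hd, Nat.add_sub_cancel_left, pow_add]
    have h3 : (1 : ℝ) - 1 / r = (r - 1) / r := by
      field_simp
    rw [h3, div_pow, div_pow, one_pow]
    field_simp
  · rw [ind_false hE, mul_zero, mul_zero]
    have h2 : (Finset.univ.filter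
        (fun c : V → Fin r => E (Finset.univ.filter (fun v => c v = i)))).filter
        (fun c => Finset.univ.filter (fun v => c v = i) = A) = ∅ := by
      rw [Finset.filter_eq_empty_iff]
      intro c hc h
      rw [Finset.mem_filter] at hc
      rw [h] at hc
      exact hE hc.2
    rw [h2]
    simp

/-- If `r * Ex (1/r) (ind (¬ E)) < 1` there is `c : V → Fin r` all of whose classes satisfy `E`:
otherwise the `r ^ |V|` functions are covered by the sets of `label_count` for `¬ E`. -/
theorem exists_label {r : ℕ} (hr : 0 < r) (E : Finset V → Prop)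
    (h : (r : ℝ) * Ex Finset.univ (1 / (r : ℝ)) (fun A => ind (¬ E A)) < 1) :
    ∃ c : V → Fin r, ∀ i, E (Finset.univ.filter (fun v => c v = i)) := by
  by_contra hcon
  push Not at hcon
  have h1 : (Finset.univ : Finset (V → Fin r)) ⊆ (Finset.univ : Finset (Fin r)).biUnion
      (fun i => Finset.univ.filter
        (fun c : V → Fin r => ¬ E (Finset.univ.filter (fun v => c v = i)))) := by
    intro c _
    obtain ⟨i, hi⟩ := hcon c
    rw [Finset.mem_biUnion]
    exact ⟨i, Finset.mem_univ i, Finset.mem_filter.2 ⟨Finset.mem_univ c, hi⟩⟩
  have h2 := (Finset.card_le_card h1).trans Finset.card_biUnion_le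
  have h3 : ((Finset.univ : Finset (V → Fin r)).card : ℝ) ≤
      ∑ i : Fin r, ((Finset.univ.filter
        (fun c : V → Fin r => ¬ E (Finset.univ.filter (fun v => c v = i)))).card : ℝ) := by
    exact_mod_cast h2
  have h4 : ∀ i : Fin r, ((Finset.univ.filter
        (fun c : V → Fin r => ¬ E (Finset.univ.filter (fun v => c v = i)))).card : ℝ) =
      (r : ℝ) ^ (Fintype.card V) * Ex Finset.univ (1 / (r : ℝ)) (fun A => ind (¬ E A)) := by
    intro i
    have := label_count hr i (fun A => ¬ E A)
    convert this using 2
    congr 1
    ext c
    simp only [Finset.mem_filter]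
  rw [Finset.sum_congr rfl fun i _ => h4 i, Finset.sum_const, Finset.card_univ, Fintype.card_fun,
    Fintype.card_fin, nsmul_eq_mul, Finset.card_univ, Fintype.card_fin] at h3
  push_cast at h3
  have h5 : (0 : ℝ) < (r : ℝ) ^ (Fintype.card V) := by positivity
  nlinarith

/-- if all classes of `c : V → Fin r` are `k`-colourable then `G` is `(r * k)`-colourable -/
theorem colorable_of_classes (G : SimpleGraph V) {r k : ℕ} (c : V → Fin r)
    (h : ∀ i, Colb G (Finset.univ.filter (fun v => c v = i)) k) : G.Colorable (r * k) := by
  choose d hd using h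
  have hC : G.Coloring (Fin r × Fin k) := SimpleGraph.Coloring.mk (fun v => (c v, d (c v) v)) (by
    intro a b hab heq
    rw [Prod.mk.injEq] at heq
    have h1 : c a = c b := heq.1
    have h2 := hd (c a) a (by simp) b (by simp [h1]) hab
    apply h2
    rw [heq.2, h1])
  have := hC.colorable
  simpa using this

end Pool.MP_a862e4_co.H18
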