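import Pool.Agent.W_a862e4_h18.FinA
import Pool.Agent.W_a862e4_h18.FinB

/-!
The final theorem.
-/

set_option autoImplicit false
set_option linter.unusedSectionVars false

namespace Pool.MP_a862e4_co.H18

open Pool.MP_4929df_co.H91
open scoped Classical

variable {V : Type*} [Fintype V]

/-- `n ≤ 2 ^ ℓ`, `b = p + 4 ℓ + 40`: `2 ^ 22 * (n * dl n b) < 1`. -/
theorem dl_small {n p ℓ : ℕ} (hn : n ≤ 2 ^ ℓ) :
    (2 : ℝ) ^ 22 * (n * dl n (p + 4 * ℓ + 40)) < 1 := by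
  have hn' : (n : ℝ) ≤ 2 ^ ℓ := by exact_mod_cast hn
  have hn0 : (0 : ℝ) ≤ n := Nat.cast_nonneg n
  unfold dl
  generalize (n : ℝ) = x at hn' hn0 ⊢
  set t : ℝ := (1 / 2 : ℝ) ^ ℓ with ht
  have ht0 : 0 < t := by positivity
  have ht1 : t ≤ 1 := pow_le_one₀ (by norm_num) (by norm_num)
  have hnt : x * t ≤ 1 := by
    calc x * t ≤ 2 ^ ℓ * t := by gcongr
      _ = 1 := by rw [ht, ← mul_pow]; norm_num
  have hnt0 : 0 ≤ x * t := by positivity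
  have hp1 : (1 / 2 : ℝ) ^ p ≤ 1 := pow_le_one₀ (by norm_num) (by norm_num)
  have hp0 : (0 : ℝ) < (1 / 2 : ℝ) ^ p := by positivity
  set b := p + 4 * ℓ + 40 with hb
  have e20 : (1 / 2 : ℝ) ^ (20 * b) = ((1 / 2 : ℝ) ^ b) ^ 20 := by rw [mul_comm, pow_mul]
  have e7 : (1 / 2 : ℝ) ^ (7 * b) = ((1 / 2 : ℝ) ^ b) ^ 7 := by rw [mul_comm, pow_mul]
  have e58 : (1 / 2 : ℝ) ^ (58 * b) = ((1 / 2 : ℝ) ^ b) ^ 58 := by rw [mul_comm, pow_mul]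
  rw [e20, e7, e58]
  have hy : (1 / 2 : ℝ) ^ b ≤ t ^ 4 * (1 / 2) ^ 40 := by
    rw [hb, pow_add, pow_add, mul_comm 4 ℓ, pow_mul, ← ht]
    have : (1 / 2 : ℝ) ^ p * t ^ 4 ≤ 1 * t ^ 4 := by gcongr
    rw [one_mul] at this
    gcongr
  have hy0 : (0 : ℝ) < (1 / 2 : ℝ) ^ b := by positivity
  have hy1 : (1 / 2 : ℝ) ^ b ≤ 1 := pow_le_one₀ (by norm_num) (by norm_num)
  generalize (1 / 2 : ℝ) ^ b = y at hy hy0 hy1 ⊢
  have y20 : y ^ 20 ≤ y := pow_le_of_le_one hy0.le hy1 (by norm_num)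
  have y7 : y ^ 7 ≤ y := pow_le_of_le_one hy0.le hy1 (by norm_num)
  have y58 : y ^ 58 ≤ y := pow_le_of_le_one hy0.le hy1 (by norm_num)
  have a2 : x ^ 2 * y ≤ (1 / 2) ^ 40 := by
    calc x ^ 2 * y ≤ x ^ 2 * (t ^ 4 * (1 / 2) ^ 40) := by gcongr
      _ = (x * t) ^ 2 * t ^ 2 * (1 / 2) ^ 40 := by ring
      _ ≤ 1 * 1 * (1 / 2) ^ 40 := by
        have h1 : (x * t) ^ 2 ≤ 1 := pow_le_one₀ hnt0 hnt
        have h2 : t ^ 2 ≤ 1 := pow_le_one₀ ht0.le ht1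
        gcongr
      _ = (1 / 2) ^ 40 := by ring
  have a3 : x ^ 3 * y ≤ (1 / 2) ^ 40 := by
    calc x ^ 3 * y ≤ x ^ 3 * (t ^ 4 * (1 / 2) ^ 40) := by gcongr
      _ = (x * t) ^ 3 * t * (1 / 2) ^ 40 := by ring
      _ ≤ 1 * 1 * (1 / 2) ^ 40 := by
        have h1 : (x * t) ^ 3 ≤ 1 := pow_le_one₀ hnt0 hnt
        gcongr
      _ = (1 / 2) ^ 40 := by ring
  calc (2 : ℝ) ^ 22 * (x * (x * y + 2 * x * y ^ 20 + (2 * x * y ^ 7 + 16 * x ^ 2 * y ^ 58)))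
      ≤ (2 : ℝ) ^ 22 * (x * (x * y + 2 * x * y + (2 * x * y + 16 * x ^ 2 * y))) := by gcongr
    _ = (2 : ℝ) ^ 22 * (5 * (x ^ 2 * y) + 16 * (x ^ 3 * y)) := by ring
    _ ≤ (2 : ℝ) ^ 22 * (5 * (1 / 2) ^ 40 + 16 * (1 / 2) ^ 40) := by gcongr
    _ < 1 := by norm_num

/-- **Main theorem.** -/
theorem main (G : SimpleGraph V) (p : ℕ) (h : ¬ Scheme G p) :
    G.Colorable (2 ^ 22 * (9600 * (p + 4 * Nat.clog 2 (Fintype.card V) + 40))) := by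
  set ℓ := Nat.clog 2 (Fintype.card V) with hℓ
  set b := p + 4 * ℓ + 40 with hb
  obtain ⟨E, hE1, hE2⟩ := exists_event G b p (by omega) (by omega) Finset.univ
  have hn : Fintype.card V ≤ 2 ^ ℓ := Nat.le_pow_clog (by norm_num) _
  have hsmall := dl_small (p := p) hn
  obtain ⟨c, hc⟩ := exists_label (r := 2 ^ 22) (by positivity) E (by
    refine lt_of_le_of_lt ?_ hsmall
    have e : (((2 ^ 22 : ℕ)) : ℝ) = (2 : ℝ) ^ 22 := by norm_num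
    rw [Finset.card_univ] at hE1
    rw [e]
    exact mul_le_mul_of_nonneg_left hE1 (by positivity))
  refine colorable_of_classes G c fun i => ?_
  rcases hE2 _ (hc i) with h1 | h1
  · rwa [Finset.inter_univ] at h1
  · exact absurd h1 h

end Pool.MP_a862e4_co.H18
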