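import Pool.Agent.W_a862e4_h18.Defs

/-!
Frames and connectors.
-/

set_option autoImplicit false
set_option linter.unusedSectionVars false

namespace Pool.MP_a862e4_co.H18

open Pool.MP_4929df_co.H91
open scoped Classical

variable {V : Type*} [Fintype V]

/-- for `z ∈ X \ S`: `nb (gam G S) X z = nb G W z` -/
theorem End.nb_gam {G : SimpleGraph V} {d : ℕ} {W X S : Finset V} (h : End G d W X S) {z : V}
    (hz : z ∈ X \ S) : nb (gam G S) X z = nb G W z := by
  ext w
  rw [mem_nbf, mem_nbf, gam_adj]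
  constructor
  · rintro ⟨h1, h2, _⟩
    exact ⟨h.XW h1, h2⟩
  · rintro ⟨h1, h2⟩
    exact ⟨h.nbX z hz (mem_nbf.2 ⟨h1, h2⟩), h2, fun h3 => (Finset.mem_sdiff.1 hz).2 h3.1⟩

theorem End.fr {G : SimpleGraph V} {m : ℕ} {W X S : Finset V} (h : End G (75 * m) W X S) :
    Fr (gam G S) m X S where
  SX := h.SX
  ne := h.ne
  noS := fun a ha b hb hab => hab.2 ⟨ha, hb⟩
  deg := fun z hz => by
    rw [h.nb_gam hz]
    exact h.deg z hz
  cS := by
    have := h.cS
    omega
  sep := fun P Q hPQ hc => h.sep P Q hPQ (by omega)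

/-- the triple `t` is a connector -/
def FrA_conn (H : SimpleGraph V) (S ZP ZQ : Finset V) (t : V × V × V) : Prop :=
  t.1 ∈ ZP ∧ t.2.2 ∈ ZQ ∧ (t.2.1 = t.2.2 ∧ H.Adj t.1 t.2.2 ∨
    t.2.1 ∈ S ∧ H.Adj t.1 t.2.1 ∧ H.Adj t.2.1 t.2.2)

/-- the set of vertices of the triple `t` -/
noncomputable def FrA_vs (t : V × V × V) : Finset V := {t.1, t.2.1, t.2.2}

/-- a family of pairwise disjoint connectors -/
def FrA_fam (H : SimpleGraph V) (S ZP ZQ : Finset V) (F : Finset (V × V × V)) : Prop :=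
  (∀ t ∈ F, FrA_conn H S ZP ZQ t) ∧
    ∀ s ∈ F, ∀ t ∈ F, s ≠ t → Disjoint (FrA_vs s) (FrA_vs t)

theorem FrA_fam_insert {H : SimpleGraph V} {S ZP ZQ : Finset V} {F : Finset (V × V × V)}
    (hF : FrA_fam H S ZP ZQ F) (hmax : ∀ F', FrA_fam H S ZP ZQ F' → F'.card ≤ F.card)
    (t : V × V × V) (ht : FrA_conn H S ZP ZQ t)
    (h1 : t.1 ∉ F.biUnion FrA_vs) (h2 : t.2.1 ∉ F.biUnion FrA_vs)
    (h3 : t.2.2 ∉ F.biUnion FrA_vs) : False := by
  have hdis : ∀ s ∈ F, Disjoint (FrA_vs s) (FrA_vs t) := by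
    intro s hs
    rw [Finset.disjoint_left]
    intro a ha hat
    have hU : a ∈ F.biUnion FrA_vs := Finset.mem_biUnion.2 ⟨s, hs, ha⟩
    simp only [FrA_vs, Finset.mem_insert, Finset.mem_singleton] at hat
    rcases hat with rfl | rfl | rfl
    · exact h1 hU
    · exact h2 hU
    · exact h3 hU
  have htF : t ∉ F := by
    intro htF
    apply h1
    exact Finset.mem_biUnion.2 ⟨t, htF, by simp [FrA_vs]⟩
  have hnew : FrA_fam H S ZP ZQ (insert t F) := by
    constructor
    · intro s hs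
      rcases Finset.mem_insert.1 hs with rfl | hs
      · exact ht
      · exact hF.1 s hs
    · intro s hs s' hs' hne
      rcases Finset.mem_insert.1 hs with h4 | h4
      · rcases Finset.mem_insert.1 hs' with h5 | h5
        · exact absurd (h4.trans h5.symm) hne
        · rw [h4]
          exact (hdis s' h5).symm
      · rcases Finset.mem_insert.1 hs' with h5 | h5
        · rw [h5]
          exact hdis s h4
        · exact hF.2 s h4 s' h5 hne
  have := hmax _ hnew
  rw [Finset.card_insert_of_notMem htF] at this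
  omega

/-- **Connectors.**  A connector is a triple `(u, x, w)`, `u ∈ ZP`, `w ∈ ZQ`, with `x = w`, `u ~ w`, or with
`x ∈ S`, `u ~ x ~ w`.  Take a family of pairwise disjoint connectors with the maximal number of members
(at most `|V|`); if it has at least `m` members we are done.  Otherwise let `U` be the union of the
connectors, `|U| ≤ 3 m`.
`P = U ∪ (ZP \ U) ∪ {x ∈ S \ U | x` has a neighbour in `ZP \ U}`,
`Q = U ∪ (ZQ \ U) ∪ {x ∈ S \ U | x` has no neighbour in `ZP \ U}`.  This is a separation of `H` on `X` with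
cut `U` (an edge would give a new connector; no edges in `S`), and `ZP \ U`, `ZQ \ U` are nonempty:
contradiction to `h.sep`. -/
theorem Fr.connectors {H : SimpleGraph V} {m : ℕ} {X S : Finset V} (h : Fr H m X S)
    (ZP ZQ : Finset V) (hU : ZP ∪ ZQ = X \ S) (hd : Disjoint ZP ZQ) (hP : 3 * m < ZP.card)
    (hQ : 3 * m < ZQ.card) :
    ∃ u x w : Fin m → V,
      (∀ i, u i ∈ ZP ∧ w i ∈ ZQ ∧ (x i = w i ∧ H.Adj (u i) (w i) ∨
        x i ∈ S ∧ H.Adj (u i) (x i) ∧ H.Adj (x i) (w i))) ∧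
      ∀ i j, i ≠ j → Disjoint ({u i, x i, w i} : Finset V) {u j, x j, w j} := by
  obtain ⟨F, hF, hmax⟩ := Finset.exists_max_image
    ((Finset.univ : Finset (Finset (V × V × V))).filter (FrA_fam H S ZP ZQ)) Finset.card
    ⟨∅, by simp [FrA_fam]⟩
  have hF' : FrA_fam H S ZP ZQ F := (Finset.mem_filter.1 hF).2
  have hmax' : ∀ F', FrA_fam H S ZP ZQ F' → F'.card ≤ F.card := fun F' h' =>
    hmax F' (Finset.mem_filter.2 ⟨Finset.mem_univ _, h'⟩)
  by_cases hm : m ≤ F.card
  · obtain ⟨F0, hF0, hc⟩ := Finset.exists_subset_card_eq hm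
    let e : F0 ≃ Fin m := F0.equivFinOfCardEq hc
    refine ⟨fun i => (e.symm i).1.1, fun i => (e.symm i).1.2.1, fun i => (e.symm i).1.2.2,
      fun i => hF'.1 _ (hF0 (e.symm i).2), fun i j hij => ?_⟩
    exact hF'.2 _ (hF0 (e.symm i).2) _ (hF0 (e.symm j).2)
      (fun h1 => hij (e.symm.injective (Subtype.ext h1)))
  · exfalso
    set U := F.biUnion FrA_vs with hUdef
    have hUc : U.card ≤ 3 * m := by
      have h1 : U.card ≤ F.card * 3 := by
        apply Finset.card_biUnion_le_card_mul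
        intro t _
        exact Finset.card_le_three
      omega
    have hZPX : ∀ z ∈ ZP, z ∈ X ∧ z ∉ S := fun z hz => by
      have : z ∈ X \ S := hU ▸ Finset.mem_union_left _ hz
      exact Finset.mem_sdiff.1 this
    have hZQX : ∀ z ∈ ZQ, z ∈ X ∧ z ∉ S := fun z hz => by
      have : z ∈ X \ S := hU ▸ Finset.mem_union_right _ hz
      exact Finset.mem_sdiff.1 this
    have hUX : ∀ z ∈ U, z ∈ X := by
      intro z hz
      obtain ⟨t, ht, hzt⟩ := Finset.mem_biUnion.1 hz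
      obtain ⟨c1, c2, c3⟩ := hF'.1 t ht
      simp only [FrA_vs, Finset.mem_insert, Finset.mem_singleton] at hzt
      rcases hzt with rfl | rfl | rfl
      · exact (hZPX _ c1).1
      · rcases c3 with ⟨c3, _⟩ | ⟨c3, _⟩
        · rw [c3]
          exact (hZQX _ c2).1
        · exact h.SX c3
      · exact (hZQX _ c2).1
    set SP := (S \ U).filter (fun x => ∃ z ∈ ZP \ U, H.Adj z x) with hSP
    set SQ := (S \ U).filter (fun x => ¬ ∃ z ∈ ZP \ U, H.Adj z x) with hSQ
    set P := U ∪ (ZP \ U) ∪ SP with hPdef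
    set Q := U ∪ (ZQ \ U) ∪ SQ with hQdef
    have memP : ∀ a, a ∈ P ↔ a ∈ U ∨ (a ∈ ZP ∧ a ∉ U) ∨
        ((a ∈ S ∧ a ∉ U) ∧ ∃ z ∈ ZP \ U, H.Adj z a) := by
      intro a
      simp only [hPdef, hSP, Finset.mem_union, Finset.mem_sdiff, Finset.mem_filter, or_assoc]
    have memQ : ∀ a, a ∈ Q ↔ a ∈ U ∨ (a ∈ ZQ ∧ a ∉ U) ∨
        ((a ∈ S ∧ a ∉ U) ∧ ¬ ∃ z ∈ ZP \ U, H.Adj z a) := by
      intro a
      simp only [hQdef, hSQ, Finset.mem_union, Finset.mem_sdiff, Finset.mem_filter, or_assoc]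
    have hPQU : P ∩ Q ⊆ U := by
      intro a ha
      obtain ⟨haP, haQ⟩ := Finset.mem_inter.1 ha
      rw [memP] at haP
      rw [memQ] at haQ
      rcases haP with haP | ⟨haP, _⟩ | ⟨⟨haP, _⟩, haP'⟩
      · exact haP
      · rcases haQ with haQ | ⟨haQ, _⟩ | ⟨⟨haQ, _⟩, _⟩
        · exact haQ
        · exact absurd haQ (Finset.disjoint_left.1 hd haP)
        · exact absurd haQ (hZPX a haP).2
      · rcases haQ with haQ | ⟨haQ, _⟩ | ⟨⟨haQ, _⟩, haQ'⟩
        · exact haQ
        · exact absurd haP (hZQX a haQ).2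
        · exact absurd haP' haQ'
    have hsep : Sep H X P Q := by
      constructor
      · ext a
        rw [Finset.mem_union, memP, memQ]
        constructor
        · rintro ((ha | ⟨ha, _⟩ | ⟨⟨ha, _⟩, _⟩) | (ha | ⟨ha, _⟩ | ⟨⟨ha, _⟩, _⟩))
          · exact hUX a ha
          · exact (hZPX a ha).1
          · exact h.SX ha
          · exact hUX a ha
          · exact (hZQX a ha).1
          · exact h.SX ha
        · intro ha
          by_cases haU : a ∈ U
          · exact Or.inl (Or.inl haU)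
          by_cases haS : a ∈ S
          · by_cases hz : ∃ z ∈ ZP \ U, H.Adj z a
            · exact Or.inl (Or.inr (Or.inr ⟨⟨haS, haU⟩, hz⟩))
            · exact Or.inr (Or.inr (Or.inr ⟨⟨haS, haU⟩, hz⟩))
          · have : a ∈ ZP ∪ ZQ := by
              rw [hU]
              exact Finset.mem_sdiff.2 ⟨ha, haS⟩
            rcases Finset.mem_union.1 this with h1 | h1
            · exact Or.inl (Or.inr (Or.inl ⟨h1, haU⟩))
            · exact Or.inr (Or.inr (Or.inl ⟨h1, haU⟩))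
      · intro a haP haQ b hbQ hbP hab
        have haU : a ∉ U := fun h1 => haQ ((memQ a).2 (Or.inl h1))
        have hbU : b ∉ U := fun h1 => hbP ((memP b).2 (Or.inl h1))
        rw [memP] at haP
        rw [memQ] at hbQ
        rcases haP with haP | ⟨haP, _⟩ | ⟨⟨haP, _⟩, haP'⟩
        · exact haU haP
        · rcases hbQ with hbQ | ⟨hbQ, _⟩ | ⟨⟨hbQ, _⟩, hbQ'⟩
          · exact hbU hbQ
          · exact FrA_fam_insert hF' hmax' (a, b, b) ⟨haP, hbQ, Or.inl ⟨rfl, hab⟩⟩ haU hbU hbU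
          · exact hbQ' ⟨a, Finset.mem_sdiff.2 ⟨haP, haU⟩, hab⟩
        · rcases hbQ with hbQ | ⟨hbQ, _⟩ | ⟨⟨hbQ, _⟩, hbQ'⟩
          · exact hbU hbQ
          · obtain ⟨z, hz, hza⟩ := haP'
            obtain ⟨hz1, hz2⟩ := Finset.mem_sdiff.1 hz
            exact FrA_fam_insert hF' hmax' (z, a, b) ⟨hz1, hbQ, Or.inr ⟨haP, hza, hab⟩⟩ hz2 haU hbU
          · exact h.noS a haP b hbQ hab
    have hPne : ∃ z ∈ ZP, z ∉ U := by
      by_contra hcon
      push Not at hcon
      have := Finset.card_le_card (fun z hz => hcon z hz : ZP ⊆ U)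
      omega
    have hQne : ∃ z ∈ ZQ, z ∉ U := by
      by_contra hcon
      push Not at hcon
      have := Finset.card_le_card (fun z hz => hcon z hz : ZQ ⊆ U)
      omega
    rcases h.sep P Q hsep ((Finset.card_le_card hPQU).trans hUc) with h1 | h1
    · obtain ⟨z, hz, hzU⟩ := hPne
      refine (hZPX z hz).2 (h1 (Finset.mem_sdiff.2 ⟨(memP z).2 (Or.inr (Or.inl ⟨hz, hzU⟩)), ?_⟩))
      intro hzQ
      exact hzU (hPQU (Finset.mem_inter.2 ⟨(memP z).2 (Or.inr (Or.inl ⟨hz, hzU⟩)), hzQ⟩))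
    · obtain ⟨z, hz, hzU⟩ := hQne
      refine (hZQX z hz).2 (h1 (Finset.mem_sdiff.2 ⟨(memQ z).2 (Or.inr (Or.inl ⟨hz, hzU⟩)), ?_⟩))
      intro hzP
      exact hzU (hPQU (Finset.mem_inter.2 ⟨hzP, (memQ z).2 (Or.inr (Or.inl ⟨hz, hzU⟩))⟩))

end Pool.MP_a862e4_co.H18
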