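import Pool.Agent.W_a862e4_h18.Defs

/-!
Components after deletion.
-/

set_option autoImplicit false
set_option linter.unusedSectionVars false

namespace Pool.MP_a862e4_co.H18

open Pool.MP_4929df_co.H91
open scoped Classical

variable {V : Type*} [Fintype V]

theorem cps_disj {H : SimpleGraph V} {S D K K' : Finset V} (hK : K ∈ cps H S D)
    (hK' : K' ∈ cps H S D) (hne : K ≠ K') : Disjoint K K' := by
  have h1 := (mem_cps.1 hK).1
  have h2 := (mem_cps.1 hK').1
  have h3 : (K : Set V) ≠ (K' : Set V) := fun h => hne (by exact_mod_cast h)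
  exact_mod_cast h1.disjoint h2 h3

/-- the components are disjoint and nonempty -/
theorem cps_card_le (H : SimpleGraph V) (S D : Finset V) :
    (cps H S D).card ≤ Fintype.card V := by
  have hne : ∀ K ∈ cps H S D, K.Nonempty := by
    intro K hK
    obtain ⟨x, hx⟩ := (mem_cps.1 hK).2
    exact ⟨x, (Finset.mem_sdiff.1 hx).1⟩
  have h1 : (cps H S D).card = ∑ K ∈ cps H S D, 1 := by simp
  have h2 : ∑ K ∈ cps H S D, 1 ≤ ∑ K ∈ cps H S D, K.card :=
    Finset.sum_le_sum fun K hK => Finset.card_pos.2 (hne K hK)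
  have h3 : ∑ K ∈ cps H S D, K.card = ((cps H S D).biUnion id).card := by
    rw [Finset.card_biUnion]
    · rfl
    · intro K hK K' hK' hne
      exact cps_disj hK hK' hne
  rw [h1]
  refine h2.trans ?_
  rw [h3]
  exact Finset.card_le_univ _

/-- `exists_comp` -/
theorem exists_cps {H : SimpleGraph V} {S D : Finset V} {z : V} (hz : z ∈ D) (hzS : z ∉ S) :
    ∃ K ∈ cps H S D, z ∈ K := by
  obtain ⟨K, hK, hzK⟩ := exists_comp H (U := (D : Set V)) (u := z) (by exact_mod_cast hz)
  obtain ⟨K', hK'⟩ : ∃ K' : Finset V, (K' : Set V) = K :=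
    ⟨(Set.toFinite K).toFinset, Set.Finite.coe_toFinset _⟩
  have hz' : z ∈ K' := by
    have : z ∈ (K' : Set V) := hK'.symm ▸ hzK
    exact this
  refine ⟨K', ?_, hz'⟩
  rw [mem_cps, hK']
  exact ⟨hK, z, Finset.mem_sdiff.2 ⟨hz', hzS⟩⟩

/-- `K` is a component of `H[X \ A]` meeting `X \ S`: an event that depends only on
`A ∩ (K ∪ nbs H X K)` -/
theorem mem_cps_sdiff {H : SimpleGraph V} {S X A K : Finset V} :
    K ∈ cps H S (X \ A) ↔
      (K ⊆ X ∧ Cn H (K : Set V) ∧ (K \ S).Nonempty) ∧ Disjoint K A ∧ nbs H X K ⊆ A := by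
  rw [mem_cps]
  constructor
  · rintro ⟨⟨h1, h2, h3⟩, h4⟩
    have h1' : K ⊆ X \ A := by exact_mod_cast h1
    refine ⟨⟨h1'.trans Finset.sdiff_subset, h2, h4⟩, ?_, ?_⟩
    · rw [Finset.disjoint_left]
      intro x hx hxA
      exact (Finset.mem_sdiff.1 (h1' hx)).2 hxA
    · intro w hw
      rw [mem_nbs] at hw
      obtain ⟨hwX, hwK, a, haK, haw⟩ := hw
      by_contra hwA
      exact hwK (by
        have := h3 a (by exact_mod_cast haK) w (by
          have : w ∈ X \ A := Finset.mem_sdiff.2 ⟨hwX, hwA⟩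
          exact_mod_cast this) haw
        exact_mod_cast this)
  · rintro ⟨⟨h1, h2, h4⟩, h5, h6⟩
    refine ⟨⟨?_, h2, ?_⟩, h4⟩
    · have : K ⊆ X \ A := fun x hx => Finset.mem_sdiff.2
        ⟨h1 hx, fun hxA => Finset.disjoint_left.1 h5 hx hxA⟩
      exact_mod_cast this
    · intro a ha b hb hab
      have ha' : a ∈ K := by exact_mod_cast ha
      have hb' : b ∈ X \ A := by exact_mod_cast hb
      rw [Finset.mem_sdiff] at hb'
      by_contra hbK
      have hbK' : b ∉ K := fun h => hbK (by exact_mod_cast h)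
      exact hb'.2 (h6 (mem_nbs.2 ⟨hb'.1, hbK', a, ha', hab⟩))

/-- two vertices outside `S` on different sides of a separation of order 0 give two components -/
theorem two_le_cps {H : SimpleGraph V} {S D P Q : Finset V} (hs : Sep H D P Q) (h0 : P ∩ Q = ∅)
    (hP : (P \ S).Nonempty) (hQ : (Q \ S).Nonempty) : 2 ≤ (cps H S D).card := by
  obtain ⟨x, hx⟩ := hP
  obtain ⟨y, hy⟩ := hQ
  rw [Finset.mem_sdiff] at hx hy
  obtain ⟨K, hK, hxK⟩ := exists_cps (H := H) (hs.left_subset hx.1) hx.2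
  obtain ⟨L, hL, hyL⟩ := exists_cps (H := H) (hs.right_subset hy.1) hy.2
  have hdis : ∀ v, v ∈ P → v ∉ Q := fun v h1 h2 => by
    have : v ∈ P ∩ Q := Finset.mem_inter.2 ⟨h1, h2⟩
    rw [h0] at this
    exact absurd this (Finset.notMem_empty v)
  have hKP : (K : Set V) ⊆ (P : Set V) := by
    have hc := (mem_cps.1 hK).1
    refine hc.2.1.subset_of_closed ⟨x, by exact_mod_cast hxK, by exact_mod_cast hx.1⟩ ?_
    intro a _ haP b hb hab
    have haP' : a ∈ P := by exact_mod_cast haP
    have hbD : b ∈ D := by exact_mod_cast hc.1 hb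
    by_contra hbP
    have hbP' : b ∉ P := fun h => hbP (by exact_mod_cast h)
    have hbQ : b ∈ Q := by
      have : b ∈ P ∪ Q := by rw [hs.1]; exact hbD
      exact (Finset.mem_union.1 this).resolve_left hbP'
    exact hs.2 a haP' (hdis a haP') b hbQ hbP' hab
  have hne : K ≠ L := by
    rintro rfl
    have : y ∈ P := by exact_mod_cast hKP (by exact_mod_cast hyL)
    exact hdis y this hy.1
  have : 1 < (cps H S D).card := Finset.one_lt_card.2 ⟨K, hK, L, hL, hne⟩
  exact this

end Pool.MP_a862e4_co.H18
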