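import Pool.Agent.W_a862e4_h18.Defs

/-!
Kempe changes: tools.
-/

set_option autoImplicit false
set_option linter.unusedSectionVars false

namespace Pool.MP_a862e4_co.H18

open Pool.MP_4929df_co.H91
open scoped Classical

variable {V : Type*} [Fintype V]

/-- The library predicate `Cn` gives Mathlib connectedness of the induced graph. -/
theorem connected_of_cn {G : SimpleGraph V} {C : Set V} (h : Cn G C) : (G.induce C).Connected := by
  obtain ⟨x, hx⟩ := h.1
  rw [SimpleGraph.connected_iff_exists_forall_reachable]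
  refine ⟨⟨x, hx⟩, ?_⟩
  have key : {y : V | ∃ hy : y ∈ C, (G.induce C).Reachable ⟨x, hx⟩ ⟨y, hy⟩} = C := by
    refine h.2 _ (fun y hy => hy.1) ⟨x, hx, SimpleGraph.Reachable.refl _⟩ ?_
    rintro a ⟨ha, har⟩ b hb hab
    refine ⟨hb, har.trans (SimpleGraph.Adj.reachable ?_)⟩
    exact hab
  rintro ⟨y, hy⟩
  have h1 : y ∈ {y : V | ∃ hy : y ∈ C, (G.induce C).Reachable ⟨x, hx⟩ ⟨y, hy⟩} := by
    rw [key]
    exact hy
  exact h1.2

/-- greedy colouring of a vertex with fewer than `k` coloured neighbours -/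
theorem greedy_step (G : SimpleGraph V) (k : ℕ) (Y : Finset V) (v : V) (hcol : Colb G Y k)
    (hc : (nb G Y v).card < k) : Colb G (insert v Y) k := by
  by_cases hv : v ∈ Y
  · rw [Finset.insert_eq_of_mem hv]
    exact hcol
  obtain ⟨c, hcp⟩ := hcol
  have h1 : ((nb G Y v).image c).card < k := lt_of_le_of_lt Finset.card_image_le hc
  have h2 : ∃ a : Fin k, a ∉ (nb G Y v).image c := by
    by_contra hcon
    push Not at hcon
    have h3 : (nb G Y v).image c = Finset.univ := Finset.eq_univ_iff_forall.2 hcon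
    rw [h3, Finset.card_univ, Fintype.card_fin] at h1
    exact lt_irrefl _ h1
  obtain ⟨a, ha⟩ := h2
  have hne : ∀ y ∈ Y, y ≠ v := fun y hy h => hv (h ▸ hy)
  have hay : ∀ y ∈ Y, G.Adj v y → a ≠ c y := by
    intro y hy hvy h
    exact ha (Finset.mem_image.2 ⟨y, mem_nbf.2 ⟨hy, hvy⟩, h.symm⟩)
  refine ⟨fun y => if y = v then a else c y, ?_⟩
  intro x hx y hy hxy
  rcases Finset.mem_insert.1 hx with hx1 | hx1
  · rcases Finset.mem_insert.1 hy with hy1 | hy1
    · rw [hx1, hy1] at hxy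
      exact absurd hxy (G.irrefl)
    · simp only [if_pos hx1, if_neg (hne y hy1)]
      exact hay y hy1 (hx1 ▸ hxy)
  · rcases Finset.mem_insert.1 hy with hy1 | hy1
    · simp only [if_pos hy1, if_neg (hne x hx1)]
      exact (hay x hx1 (hy1 ▸ hxy.symm)).symm
    · simp only [if_neg (hne x hx1), if_neg (hne y hy1)]
      exact hcp x hx1 y hy1 hxy

/-- Exchange of two colours.  `c` a proper colouring of `G[Y]`, `i ≠ j`, and no connected subset `D` of
the vertices of `Y` with colours `i`, `j` contains a neighbour of `v` of colour `i` and one of colour `j`.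
Let `Z` be the union of all connected subsets of `{y ∈ Y | c y = i ∨ c y = j}` that contain a
neighbour of `v` of colour `i`; `Z` is closed under adjacency in `{y ∈ Y | c y = i ∨ c y = j}` and contains no
neighbour of `v` of colour `j`.  Exchange `i` and `j` on `Z` and colour `v` with `i`. -/
theorem kempe_swap (G : SimpleGraph V) (k : ℕ) (Y : Finset V) (v : V) (hv : v ∉ Y) (c : V → Fin k)
    (hc : ∀ x ∈ Y, ∀ y ∈ Y, G.Adj x y → c x ≠ c y) (i j : Fin k) (hij : i ≠ j)
    (h : ∀ D : Set V, Cn G D → (∀ y ∈ D, y ∈ Y ∧ (c y = i ∨ c y = j)) →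
      ∀ s ∈ D, ∀ t ∈ D, G.Adj v s → G.Adj v t → c s = i → c t = j → False) :
    Colb G (insert v Y) k := by
  let P : Set V := {y | y ∈ Y ∧ (c y = i ∨ c y = j)}
  let Z : Set V := {z | ∃ D : Set V, Cn G D ∧ D ⊆ P ∧ z ∈ D ∧ ∃ s ∈ D, G.Adj v s ∧ c s = i}
  have hZP : ∀ z ∈ Z, z ∈ Y ∧ (c z = i ∨ c z = j) := by
    rintro z ⟨D, _, hD, hz, _⟩
    exact hD hz
  have hZi : ∀ y ∈ Y, G.Adj v y → c y = i → y ∈ Z := by
    intro y hy hvy hcy
    refine ⟨{y}, cn_singleton G y, ?_, rfl, y, rfl, hvy, hcy⟩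
    intro z hz
    rw [Set.mem_singleton_iff] at hz
    subst hz
    exact ⟨hy, Or.inl hcy⟩
  have hZj : ∀ y ∈ Z, G.Adj v y → c y ≠ j := by
    rintro y ⟨D, hDc, hD, hz, s, hs, hvs, hcs⟩ hvy hcy
    exact h D hDc (fun w hw => hD hw) s hs y hz hvs hvy hcs hcy
  have hZcl : ∀ x ∈ Z, ∀ y ∈ Y, (c y = i ∨ c y = j) → G.Adj x y → y ∈ Z := by
    rintro x ⟨D, hDc, hD, hx, s, hs, hvs, hcs⟩ y hy hcy hxy
    refine ⟨D ∪ {y}, hDc.union_adj (cn_singleton G y) hx rfl hxy, ?_, Or.inr rfl, s, Or.inl hs,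
      hvs, hcs⟩
    rintro w (hw | hw)
    · exact hD hw
    · rw [Set.mem_singleton_iff] at hw
      subst hw
      exact ⟨hy, hcy⟩
  have hne : ∀ y ∈ Y, y ≠ v := fun y hy h => hv (h ▸ hy)
  have hsw : ∀ y ∈ Z, Equiv.swap i j (c y) = i ∨ Equiv.swap i j (c y) = j := by
    intro y hy
    rcases (hZP y hy).2 with h1 | h1
    · rw [h1, Equiv.swap_apply_left]
      exact Or.inr rfl
    · rw [h1, Equiv.swap_apply_right]
      exact Or.inl rfl
  have hvy : ∀ y ∈ Y, G.Adj v y → i ≠ (if y ∈ Z then Equiv.swap i j (c y) else c y) := by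
    intro y hy hvy
    by_cases hyZ : y ∈ Z
    · rw [if_pos hyZ]
      have h1 : c y = i := (hZP y hyZ).2.resolve_right (hZj y hyZ hvy)
      rw [h1, Equiv.swap_apply_left]
      exact hij
    · rw [if_neg hyZ]
      intro h1
      exact hyZ (hZi y hy hvy h1.symm)
  have hxy1 : ∀ x ∈ Y, ∀ y ∈ Y, G.Adj x y → x ∈ Z → y ∉ Z →
      Equiv.swap i j (c x) ≠ c y := by
    intro x _ y hy hxy hxZ hyZ h1
    apply hyZ
    refine hZcl x hxZ y hy ?_ hxy
    rw [← h1]
    exact hsw x hxZ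
  refine ⟨fun y => if y = v then i else if y ∈ Z then Equiv.swap i j (c y) else c y, ?_⟩
  intro x hx y hy hxy
  rcases Finset.mem_insert.1 hx with hx1 | hx1
  · rcases Finset.mem_insert.1 hy with hy1 | hy1
    · rw [hx1, hy1] at hxy
      exact absurd hxy (G.irrefl)
    · simp only [if_pos hx1, if_neg (hne y hy1)]
      exact hvy y hy1 (hx1 ▸ hxy)
  · rcases Finset.mem_insert.1 hy with hy1 | hy1
    · simp only [if_pos hy1, if_neg (hne x hx1)]
      exact (hvy x hx1 (hy1 ▸ hxy.symm)).symm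
    · clear hx hy
      have hx := hx1
      have hy := hy1
      simp only [if_neg (hne x hx), if_neg (hne y hy)]
      by_cases hxZ : x ∈ Z <;> by_cases hyZ : y ∈ Z
      · rw [if_pos hxZ, if_pos hyZ]
        intro h1
        exact hc x hx y hy hxy ((Equiv.swap i j).injective h1)
      · rw [if_pos hxZ, if_neg hyZ]
        exact hxy1 x hx y hy hxy hxZ hyZ
      · rw [if_neg hxZ, if_pos hyZ]
        exact (hxy1 y hy x hx hxy.symm hyZ hxZ).symm
      · rw [if_neg hxZ, if_neg hyZ]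
        exact hc x hx y hy hxy

end Pool.MP_a862e4_co.H18
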