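import Pool.Agent.W_a862e4_h18.KH1

/-!
Kempe changes with hubs (Lemma KH).
-/

set_option autoImplicit false
set_option linter.unusedSectionVars false

namespace Pool.MP_a862e4_co.H18

open Pool.MP_4929df_co.H91
open scoped Classical

variable {V : Type*} [Fintype V]

/-- The scheme built from the chains and the hubs. -/
theorem KH2_scheme (G : SimpleGraph V) (p k : ℕ) (Y : Finset V) (v : V) (c : V → Fin k)
    (K : Fin k → Set V) (e : Fin p → Fin k) (he : Function.Injective e)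
    (hK1 : ∀ i, K i = ∅ ∨ Cn G (K i))
    (hK2 : ∀ i j, i ≠ j → Disjoint (K i) (K j)) (hK3 : ∀ i, Disjoint (K i) (Y : Set V))
    (w : Fin p → V) (hwY : ∀ i, w i ∈ Y) (hwv : ∀ i, G.Adj v (w i)) (hwc : ∀ i, c (w i) = e i)
    (hub : ∀ i : Fin p, ∀ t ∈ Y, G.Adj v t → c t = e i → ∃ a ∈ K (e i), G.Adj t a)
    (D : Fin p → Fin p → Set V)
    (hD1 : ∀ i j, i ≠ j → Cn G (D i j))
    (hD2 : ∀ i j, i ≠ j → ∀ y ∈ D i j, y ∈ Y ∧ (c y = e i ∨ c y = e j))
    (hD3 : ∀ i j, i ≠ j → ∃ s ∈ D i j, G.Adj v s ∧ c s = e i)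
    (hD4 : ∀ i j, i ≠ j → ∃ s ∈ D i j, G.Adj v s ∧ c s = e j) : Scheme G p := by
  -- the classes
  let A : Fin p → Set V := fun i => K (e i) ∪ ⋃ t : {t : V // t ∈ Y ∧ G.Adj v t ∧ c t = e i}, {t.1}
  have hAmem : ∀ i x, x ∈ A i ↔ x ∈ K (e i) ∨ (x ∈ Y ∧ G.Adj v x ∧ c x = e i) := by
    intro i x
    simp only [A, Set.mem_union, Set.mem_iUnion, Set.mem_singleton_iff]
    constructor
    · rintro (h | ⟨t, ht⟩)
      · exact Or.inl h
      · right
        rw [ht]
        exact t.2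
    · rintro (h | h)
      · exact Or.inl h
      · exact Or.inr ⟨⟨x, h⟩, rfl⟩
  have hAcn : ∀ i, Cn G (A i) := by
    intro i
    have hKcn : Cn G (K (e i)) := by
      rcases hK1 (e i) with h | h
      · obtain ⟨a, ha, _⟩ := hub i (w i) (hwY i) (hwv i) (hwc i)
        rw [h] at ha
        exact absurd ha (Set.notMem_empty a)
      · exact h
    refine hKcn.union_iUnion fun t => ?_
    refine ⟨cn_singleton G t.1, Or.inr ?_⟩
    obtain ⟨a, ha, hta⟩ := hub i t.1 t.2.1 t.2.2.1 t.2.2.2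
    exact ⟨a, ha, t.1, rfl, hta.symm⟩
  have hwA : ∀ i, w i ∈ A i := fun i => (hAmem i _).2 (Or.inr ⟨hwY i, hwv i, hwc i⟩)
  let C : Fin p → Fin p → Set V := fun i j => (A i ∪ A j) ∪ (if i = j then ∅ else D i j ∪ D j i)
  have hCsub : ∀ i j x, x ∈ C i j →
      (x ∈ K (e i) ∨ (x ∈ Y ∧ c x = e i)) ∨ (x ∈ K (e j) ∨ (x ∈ Y ∧ c x = e j)) := by
    intro i j x hx
    simp only [C] at hx
    rcases hx with (hx | hx) | hx
    · rcases (hAmem i x).1 hx with h | h
      · exact Or.inl (Or.inl h)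
      · exact Or.inl (Or.inr ⟨h.1, h.2.2⟩)
    · rcases (hAmem j x).1 hx with h | h
      · exact Or.inr (Or.inl h)
      · exact Or.inr (Or.inr ⟨h.1, h.2.2⟩)
    · by_cases hij : i = j
      · rw [if_pos hij] at hx
        exact absurd hx (Set.notMem_empty x)
      · rw [if_neg hij] at hx
        rcases hx with hx | hx
        · obtain ⟨h1, h2⟩ := hD2 i j hij x hx
          rcases h2 with h2 | h2
          · exact Or.inl (Or.inr ⟨h1, h2⟩)
          · exact Or.inr (Or.inr ⟨h1, h2⟩)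
        · obtain ⟨h1, h2⟩ := hD2 j i (Ne.symm hij) x hx
          rcases h2 with h2 | h2
          · exact Or.inr (Or.inr ⟨h1, h2⟩)
          · exact Or.inl (Or.inr ⟨h1, h2⟩)
  have hexcl : ∀ i j x, i ≠ j → (x ∈ K (e i) ∨ (x ∈ Y ∧ c x = e i)) →
      (x ∈ K (e j) ∨ (x ∈ Y ∧ c x = e j)) → False := by
    intro i j x hij h1 h2
    have heij : e i ≠ e j := fun h => hij (he h)
    rcases h1 with h1 | h1 <;> rcases h2 with h2 | h2
    · exact Set.disjoint_left.1 (hK2 _ _ heij) h1 h2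
    · exact Set.disjoint_left.1 (hK3 _) h1 h2.1
    · exact Set.disjoint_left.1 (hK3 _) h2 h1.1
    · exact heij (h1.2.symm.trans h2.2)
  have hwinj : Function.Injective w := by
    intro i j hij
    apply he
    rw [← hwc i, ← hwc j, hij]
  refine ⟨w, hwinj, C, ?_, ?_, ?_⟩
  · intro i j
    simp only [C]
    by_cases hij : i = j
    · rw [hij]
    · rw [if_neg hij, if_neg (Ne.symm hij), Set.union_comm (A i), Set.union_comm (D i j)]
  · intro i j hij
    refine ⟨Or.inl (Or.inl (hwA i)), Or.inl (Or.inr (hwA j)), connected_of_cn ?_⟩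
    have hC : C i j = ((A i ∪ D i j) ∪ A j) ∪ D j i := by
      simp only [C]
      rw [if_neg hij]
      ext x
      simp only [Set.mem_union]
      tauto
    rw [hC]
    obtain ⟨s, hs, hvs, hcs⟩ := hD3 i j hij
    obtain ⟨t, ht, hvt, hct⟩ := hD4 i j hij
    obtain ⟨u, hu, hvu, hcu⟩ := hD3 j i (Ne.symm hij)
    have hsY := (hD2 i j hij s hs).1
    have htY := (hD2 i j hij t ht).1
    have huY := (hD2 j i (Ne.symm hij) u hu).1
    have h1 : Cn G (A i ∪ D i j) :=
      (hAcn i).union (hD1 i j hij) ⟨s, (hAmem i s).2 (Or.inr ⟨hsY, hvs, hcs⟩), hs⟩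
    have h2 : Cn G ((A i ∪ D i j) ∪ A j) :=
      h1.union (hAcn j) ⟨t, Or.inr ht, (hAmem j t).2 (Or.inr ⟨htY, hvt, hct⟩)⟩
    exact h2.union (hD1 j i (Ne.symm hij))
      ⟨u, Or.inr ((hAmem j u).2 (Or.inr ⟨huY, hvu, hcu⟩)), hu⟩
  · intro i j a b hij hia hib hja hjb hab
    rw [Set.disjoint_left]
    intro x hx hx2
    rcases hCsub i j x hx with h1 | h1 <;> rcases hCsub a b x hx2 with h2 | h2
    · exact hexcl i a x hia h1 h2
    · exact hexcl i b x hib h1 h2
    · exact hexcl j a x hja h1 h2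
    · exact hexcl j b x hjb h1 h2

/-- **Lemma KH.**  `c` a proper colouring of `G[Y]` with `k` colours, `K` from the hub condition for
`f = c`, `Q` the set of colours `i` such that no vertex of `Bad` has colour `i`: `p ≤ |Q|`.
`T i` = the set of neighbours of `v` in `Y` of colour `i`.  If `T i` is empty for an `i ∈ Q` colour `v`
with `i`.  If `kempe_swap` applies for some `i ≠ j` in `Q`: done.  Otherwise for all `i ≠ j` in `Q`
there is a connected `D i j` in the colours `i`, `j` inside `Y` which contains an element of `T i` and one of `T j`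
(choose `D` symmetric: use `D` for the ordered pair with the smaller index first, or take the union
`D i j ∪ D j i`, which is connected together with `T i`, `K i`, `T j`, `K j`).
`e : Fin p ↪ Q`, `v i ∈ T (e i)`,
`C i j = T (e i) ∪ K (e i) ∪ T (e j) ∪ K (e j) ∪ D (e i) (e j) ∪ D (e j) (e i)`.
`T i ∪ K i` is connected: every `t ∈ T i` (`t ∉ Bad`) has a neighbour in `K i`
(`Cn.union_sUnion` with singletons; `K i` is nonempty and connected).  Disjointness: different colours inside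
`Y`, the `K`'s are pairwise disjoint and disjoint from `Y`.  `connected_of_cn`. -/
theorem kh (G : SimpleGraph V) (k p : ℕ) (Y : Finset V) (v : V) (hv : v ∉ Y) (Bad : Finset V)
    (hcard : Bad.card + p ≤ k) (hcol : Colb G Y k)
    (hub : ∀ f : V → Fin k, ∃ K : Fin k → Set V, (∀ i, K i = ∅ ∨ Cn G (K i)) ∧
      (∀ i j, i ≠ j → Disjoint (K i) (K j)) ∧ (∀ i, Disjoint (K i) (Y : Set V)) ∧
      ∀ t ∈ nb G Y v, t ∉ Bad → ∃ a ∈ K (f t), G.Adj t a) :
    Colb G (insert v Y) k ∨ Scheme G p := by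
  obtain ⟨c, hc⟩ := hcol
  obtain ⟨K, hK1, hK2, hK3, hK4⟩ := hub c
  by_contra hcon
  push Not at hcon
  obtain ⟨hno, hns⟩ := hcon
  -- the good colours
  let Q : Finset (Fin k) := Finset.univ \ Bad.image c
  have hQcard : p ≤ Q.card := by
    have h1 : Q.card = (Finset.univ : Finset (Fin k)).card - (Bad.image c).card := by
      rw [Finset.card_sdiff_of_subset (Finset.subset_univ _)]
    have h2 : (Bad.image c).card ≤ Bad.card := Finset.card_image_le
    rw [Finset.card_univ, Fintype.card_fin] at h1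
    omega
  have hQ : ∀ i ∈ Q, ∀ x ∈ Bad, c x ≠ i := by
    intro i hi x hx hxi
    have := (Finset.mem_sdiff.1 hi).2
    exact this (Finset.mem_image.2 ⟨x, hx, hxi⟩)
  -- every good colour occurs at a neighbour of `v`
  have hT : ∀ i ∈ Q, ∃ t ∈ Y, G.Adj v t ∧ c t = i := by
    intro i hi
    by_contra hne
    push Not at hne
    refine hno ⟨Function.update c v i, ?_⟩
    intro x hx y hy hxy
    rw [Finset.mem_insert] at hx hy
    have hne' : x ≠ y := hxy.ne
    by_cases hxv : x = v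
    · subst hxv
      have hyx : y ≠ x := Ne.symm hne'
      have hyY : y ∈ Y := hy.resolve_left hyx
      rw [Function.update_self, Function.update_of_ne hyx]
      exact fun h => hne y hyY hxy h.symm
    · have hxY : x ∈ Y := hx.resolve_left hxv
      by_cases hyv : y = v
      · subst hyv
        rw [Function.update_self, Function.update_of_ne hxv]
        exact fun h => hne x hxY hxy.symm h
      · have hyY : y ∈ Y := hy.resolve_left hyv
        rw [Function.update_of_ne hxv, Function.update_of_ne hyv]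
        exact hc x hxY y hyY hxy
  -- chains
  have hD : ∀ i ∈ Q, ∀ j ∈ Q, i ≠ j → ∃ D : Set V, Cn G D ∧
      (∀ y ∈ D, y ∈ Y ∧ (c y = i ∨ c y = j)) ∧ (∃ s ∈ D, G.Adj v s ∧ c s = i) ∧
      (∃ t ∈ D, G.Adj v t ∧ c t = j) := by
    intro i _ j _ hij
    by_contra hne
    refine hno (kempe_swap G k Y v hv c hc i j hij ?_)
    intro D h1 h2 s hs t ht hvs hvt hcs hct
    exact hne ⟨D, h1, h2, ⟨s, hs, hvs, hcs⟩, ⟨t, ht, hvt, hct⟩⟩
  let e : Fin p → Fin k := fun i => Finset.orderEmbOfCardLe Q hQcard i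
  have he : Function.Injective e := (Finset.orderEmbOfCardLe Q hQcard).injective
  have heQ : ∀ i, e i ∈ Q := fun i => Finset.orderEmbOfCardLe_mem Q hQcard i
  have hT' : ∀ i : Fin p, ∃ t ∈ Y, G.Adj v t ∧ c t = e i := fun i => hT _ (heQ i)
  choose w hwY hwv hwc using hT'
  have hD' : ∀ i j : Fin p, ∃ D : Set V, i ≠ j → (Cn G D ∧
      (∀ y ∈ D, y ∈ Y ∧ (c y = e i ∨ c y = e j)) ∧ (∃ s ∈ D, G.Adj v s ∧ c s = e i) ∧
      (∃ t ∈ D, G.Adj v t ∧ c t = e j)) := by
    intro i j
    by_cases hij : i = j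
    · exact ⟨∅, fun h => absurd hij h⟩
    · obtain ⟨D, hD⟩ := hD (e i) (heQ i) (e j) (heQ j) (fun h => hij (he h))
      exact ⟨D, fun _ => hD⟩
  choose D hD using hD'
  refine hns (KH2_scheme G p k Y v c K e he hK1 hK2 hK3 w hwY hwv hwc ?_ D
    (fun i j hij => (hD i j hij).1) (fun i j hij => (hD i j hij).2.1)
    (fun i j hij => (hD i j hij).2.2.1) (fun i j hij => (hD i j hij).2.2.2))
  intro i t ht hvt hct
  have hnb : t ∈ nb G Y v := mem_nbf.2 ⟨ht, hvt⟩
  have hbad : t ∉ Bad := fun h => hQ (e i) (heQ i) t h hct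
  obtain ⟨a, ha, hta⟩ := hK4 t hnb hbad
  rw [hct] at ha
  exact ⟨a, ha, hta⟩

end Pool.MP_a862e4_co.H18
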