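import Pool.Agent.W_a862e4_h18.Defs

/-!
Theorem K: Menger for separations.
-/

set_option autoImplicit false
set_option linter.unusedSectionVars false

namespace Pool.MP_a862e4_co.H18

open Pool.MP_4929df_co.H91
open scoped Classical

variable {V : Type*} [Fintype V]

/-- **Menger for separations.**  Apply `menger_in G k U X M`.  Let the set `C` meet every connected
`Q ⊆ U` that meets `X` and `M`; to show: `k ≤ C.ncard`.  Put
`R = {w ∈ U | w ∉ C ∧ ∃ Q ⊆ U \ C, Cn G Q ∧ w ∈ Q ∧ (Q ∩ X).Nonempty}` (as a finset) and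
`A = R ∪ (C ∩ U)`, `B = U \ R`.  `X ⊆ A` (singletons), `M ⊆ B` (a vertex of `M ∩ R` gives a connected
`Q` that meets `X`, `M` and not `C`), `A ∪ B = U`, `A ∩ B = C ∩ U`, and there is no edge from
`a ∈ A \ B ⊆ R` to `b ∈ B \ A`, since `b ∉ C`, so `insert b Q` shows `b ∈ R` (`Cn.insert`).
So `k ≤ (A ∩ B).card ≤ C.ncard`. -/
theorem menger_sep (G : SimpleGraph V) (U X M : Finset V) (hX : X ⊆ U) (hM : M ⊆ U) (k : ℕ)
    (hk : ∀ A B, Sep G U A B → X ⊆ A → M ⊆ B → k ≤ (A ∩ B).card) :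
    ∃ Q : Fin k → Set V, (∀ i, Q i ⊆ (U : Set V) ∧ Cn G (Q i) ∧ (Q i ∩ X).Nonempty ∧
      (Q i ∩ M).Nonempty) ∧ ∀ i j, i ≠ j → Disjoint (Q i) (Q j) := by
  refine menger_in G k (U : Set V) (X : Set V) (M : Set V) (by exact_mod_cast hX)
    (by exact_mod_cast hM) ?_
  intro C hC
  let R : Finset V := U.filter (fun w => w ∉ C ∧ ∃ Q : Set V, Q ⊆ (U : Set V) ∧ Disjoint Q C ∧
    Cn G Q ∧ w ∈ Q ∧ (Q ∩ (X : Set V)).Nonempty)
  have mR : ∀ w, w ∈ R ↔ w ∈ U ∧ (w ∉ C ∧ ∃ Q : Set V, Q ⊆ (U : Set V) ∧ Disjoint Q C ∧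
      Cn G Q ∧ w ∈ Q ∧ (Q ∩ (X : Set V)).Nonempty) := by
    intro w
    simp only [R, Finset.mem_filter]
  let D : Finset V := U.filter (fun w => w ∈ C)
  have mD : ∀ w, w ∈ D ↔ w ∈ U ∧ w ∈ C := by
    intro w
    simp only [D, Finset.mem_filter]
  have hRU : R ⊆ U := fun w hw => ((mR w).1 hw).1
  have hDU : D ⊆ U := fun w hw => ((mD w).1 hw).1
  have hsep : Sep G U (R ∪ D) (U \ R) := by
    constructor
    · ext w
      simp only [Finset.mem_union, Finset.mem_sdiff]
      constructor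
      · rintro ((h | h) | h)
        · exact hRU h
        · exact hDU h
        · exact h.1
      · intro h
        by_cases hw : w ∈ R
        · exact Or.inl (Or.inl hw)
        · exact Or.inr ⟨h, hw⟩
    · intro a ha haB b hb hbA hab
      have haU : a ∈ U := by
        rcases Finset.mem_union.1 ha with h | h
        · exact hRU h
        · exact hDU h
      have haR : a ∈ R := by
        by_contra h
        exact haB (Finset.mem_sdiff.2 ⟨haU, h⟩)
      have hbU : b ∈ U := (Finset.mem_sdiff.1 hb).1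
      have hbR : b ∉ R := (Finset.mem_sdiff.1 hb).2
      have hbC : b ∉ C := fun h => hbA (Finset.mem_union_right _ ((mD b).2 ⟨hbU, h⟩))
      obtain ⟨-, -, Q, hQU, hQC, hQ, haQ, hQX⟩ := (mR a).1 haR
      apply hbR
      rw [mR]
      refine ⟨hbU, hbC, insert b Q, ?_, ?_, hQ.insert haQ hab, Set.mem_insert b Q, ?_⟩
      · exact Set.insert_subset (by exact_mod_cast hbU) hQU
      · rw [Set.disjoint_left] at hQC ⊢
        rintro w (rfl | hw)
        · exact hbC
        · exact hQC hw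
      · obtain ⟨w, hw1, hw2⟩ := hQX
        exact ⟨w, Set.mem_insert_of_mem b hw1, hw2⟩
  have hXA : X ⊆ R ∪ D := by
    intro x hx
    by_cases hxC : x ∈ C
    · exact Finset.mem_union_right _ ((mD x).2 ⟨hX hx, hxC⟩)
    · refine Finset.mem_union_left _ ((mR x).2 ⟨hX hx, hxC, {x}, ?_, ?_, cn_singleton G x,
        rfl, x, rfl, by exact_mod_cast hx⟩)
      · rw [Set.singleton_subset_iff]
        exact_mod_cast hX hx
      · rw [Set.disjoint_singleton_left]
        exact hxC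
  have hMB : M ⊆ U \ R := by
    intro w hw
    rw [Finset.mem_sdiff]
    refine ⟨hM hw, fun hwR => ?_⟩
    obtain ⟨-, -, Q, hQU, hQC, hQ, hwQ, hQX⟩ := (mR w).1 hwR
    obtain ⟨z, hz1, hz2⟩ := hC Q hQU hQ hQX ⟨w, hwQ, by exact_mod_cast hw⟩
    exact Set.disjoint_left.1 hQC hz1 hz2
  refine (hk _ _ hsep hXA hMB).trans ?_
  rw [← Set.ncard_coe_finset]
  refine Set.ncard_le_ncard ?_ (Set.toFinite C)
  intro w hw
  have hw' : w ∈ (R ∪ D) ∩ (U \ R) := by exact_mod_cast hw
  rw [Finset.mem_inter, Finset.mem_union, Finset.mem_sdiff] at hw'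
  rcases hw'.1 with h | h
  · exact absurd h hw'.2.2
  · exact ((mD w).1 h).2

end Pool.MP_a862e4_co.H18
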