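import Pool.Agent.W_a862e4_h18.KnA1

/-!
Theorem K: linked sets.
-/

set_option autoImplicit false
set_option linter.unusedSectionVars false

namespace Pool.MP_a862e4_co.H18

open Pool.MP_4929df_co.H91
open scoped Classical

variable {V : Type*} [Fintype V]

/-- one set: `y ∈ Q`, `Q` connected and meets `M`: there is a connected `Q' ⊆ Q` with `y ∈ Q'` that
meets `M` in exactly one vertex.  If `y ∈ M` take `{y}`.  Otherwise let `K` be the component of `y` in
`Q \ M` (`exists_comp`); `K ≠ Q`, so (`Cn.exists_adj`) there are `a ∈ K`, `b ∈ Q`, `b ∉ K` adjacent,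
`b ∈ M` as `K` is a component; take `insert b K`. -/
theorem exists_first (G : SimpleGraph V) (Q : Set V) (M : Finset V) (y : V) (hQ : Cn G Q)
    (hy : y ∈ Q) (hM : (Q ∩ M).Nonempty) :
    ∃ Q' m, Q' ⊆ Q ∧ Cn G Q' ∧ y ∈ Q' ∧ m ∈ M ∧ m ∈ Q' ∧ ∀ w ∈ Q', w ∈ M → w = m := by
  by_cases hyM : y ∈ M
  · refine ⟨{y}, y, by simpa using hy, cn_singleton G y, rfl, hyM, rfl, ?_⟩
    intro w hw _
    exact hw
  · have hyU : y ∈ Q \ (M : Set V) := ⟨hy, by simpa using hyM⟩
    obtain ⟨K, hK, hyK⟩ := exists_comp G hyU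
    have hKQ : K ⊆ Q := fun z hz => (hK.1 hz).1
    have hne : K ≠ Q := by
      rintro rfl
      obtain ⟨w, hw1, hw2⟩ := hM
      exact (hK.1 hw1).2 hw2
    obtain ⟨a, ha, b, hb, hbK, hab⟩ := hQ.exists_adj hKQ ⟨y, hyK⟩ hne
    have hbM : b ∈ M := by
      by_contra hbM
      exact hbK (hK.2.2 a ha b ⟨hb, by simpa using hbM⟩ hab)
    refine ⟨insert b K, b, ?_, hK.2.1.insert ha hab, Set.mem_insert_of_mem _ hyK, hbM,
      Set.mem_insert _ _, ?_⟩
    · exact Set.insert_subset hb hKQ
    · intro w hw hwM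
      rcases hw with hw | hw
      · exact hw
      · exact absurd (by simpa using hwM) (hK.1 hw).2

/-- From `Y.card` disjoint connected sets meeting `Y` and `M` to `Linked`.  Choose
`y i ∈ Q i ∩ Y`; `y` is injective (disjointness), so bijective onto `Y` (cardinality
`Fin Y.card`); apply `exists_first` to every `Q i` and `y i`; reindex by `Y`. -/
theorem linked_of_fin (G : SimpleGraph V) (U Y M : Finset V) (Q : Fin Y.card → Set V)
    (hQ : ∀ i, Q i ⊆ (U : Set V) ∧ Cn G (Q i) ∧ (Q i ∩ Y).Nonempty ∧ (Q i ∩ M).Nonempty)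
    (hd : ∀ i j, i ≠ j → Disjoint (Q i) (Q j)) : Linked G U Y M := by
  choose y hy using fun i => (hQ i).2.2.1
  have hyinj : Function.Injective y := by
    intro i j hij
    by_contra hne
    have h1 := hy i
    have h2 := hy j
    rw [← hij] at h2
    exact (Set.disjoint_left.1 (hd i j hne)) h1.1 h2.1
  have h3 : ∀ i, ∃ Q' m, Q' ⊆ Q i ∧ Cn G Q' ∧ y i ∈ Q' ∧ m ∈ M ∧ m ∈ Q' ∧
      ∀ w ∈ Q', w ∈ M → w = m := fun i =>
    exists_first G (Q i) M (y i) (hQ i).2.1 (hy i).1 (hQ i).2.2.2
  choose Q' m h4 h5 h6 h7 h8 h9 using h3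
  have hsurj : ∀ z ∈ Y, ∃ i, y i = z := by
    have himg : Finset.univ.image y = Y := by
      refine Finset.eq_of_subset_of_card_le ?_ ?_
      · intro z hz
        rw [Finset.mem_image] at hz
        obtain ⟨i, -, rfl⟩ := hz
        exact (hy i).2
      · rw [Finset.card_image_of_injective _ hyinj, Finset.card_univ, Fintype.card_fin]
    intro z hz
    rw [← himg, Finset.mem_image] at hz
    obtain ⟨i, -, hi⟩ := hz
    exact ⟨i, hi⟩
  refine ⟨fun z => if hz : ∃ i, y i = z then Q' hz.choose else ∅,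
    fun z => if hz : ∃ i, y i = z then m hz.choose else z, ?_, ?_⟩
  · intro z hz
    have hz' : ∃ i, y i = z := hsurj z hz
    have hc : y hz'.choose = z := hz'.choose_spec
    simp only [dif_pos hz']
    refine ⟨(h4 _).trans (hQ _).1, h5 _, ?_, h7 _, h8 _, h9 _⟩
    have := h6 hz'.choose
    rwa [hc] at this
  · intro a ha b hb hab
    have ha' : ∃ i, y i = a := hsurj a ha
    have hb' : ∃ i, y i = b := hsurj b hb
    have hca : y ha'.choose = a := ha'.choose_spec
    have hcb : y hb'.choose = b := hb'.choose_spec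
    simp only [dif_pos ha', dif_pos hb']
    refine (hd _ _ ?_).mono (h4 _) (h4 _)
    intro h
    apply hab
    rw [← hca, ← hcb, h]

/-- A separation between `X` and `M` of minimal order.  `(X, U)` is a separation with `X ⊆ X`,
`M ⊆ U` of order `X.card`.  Let `(A, B)` be one with `(A ∩ B).card` minimal.  `Linked G B (A ∩ B) M`:
`linked_of_fin` and `menger_sep G B (A ∩ B) M` with `k = (A ∩ B).card`; its hypothesis: for
`Sep G B A' B'`, `A ∩ B ⊆ A'`, `M ⊆ B'` the pair `(A ∪ A', B')` is a separation of `G[U]` with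
`(A ∪ A') ∩ B' = A' ∩ B'` (`A ∩ B' ⊆ A ∩ B ⊆ A'`), so minimality applies.  If
`(A ∩ B).card = X.card`: `menger_sep G U X M` with `k = X.card`. -/
theorem exists_min_sep (G : SimpleGraph V) (U X M : Finset V) (hX : X ⊆ U) (hM : M ⊆ U) :
    ∃ A B, Sep G U A B ∧ X ⊆ A ∧ M ⊆ B ∧ (A ∩ B).card ≤ X.card ∧ Linked G B (A ∩ B) M ∧
      ((A ∩ B).card = X.card → Linked G U X M) := by
  have hex : ∃ n, ∃ A B, Sep G U A B ∧ X ⊆ A ∧ M ⊆ B ∧ (A ∩ B).card = n :=
    ⟨_, X, U, ⟨Finset.union_eq_right.2 hX, fun a ha haU => absurd (hX ha) haU⟩,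
      Finset.Subset.refl X, hM, rfl⟩
  obtain ⟨A, B, hs, hXA, hMB, hc⟩ := Nat.find_spec hex
  have hmin : ∀ A' B', Sep G U A' B' → X ⊆ A' → M ⊆ B' → (A ∩ B).card ≤ (A' ∩ B').card := by
    intro A' B' h1 h2 h3
    rw [hc]
    exact Nat.find_min' hex ⟨A', B', h1, h2, h3, rfl⟩
  have hle : (A ∩ B).card ≤ X.card := by
    have h := hmin X U ⟨Finset.union_eq_right.2 hX, fun a ha haU => absurd (hX ha) haU⟩
      (Finset.Subset.refl X) hM
    rwa [Finset.inter_eq_left.2 hX] at h
  refine ⟨A, B, hs, hXA, hMB, hle, ?_, ?_⟩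
  · have hk : ∀ A' B', Sep G B A' B' → (A ∩ B) ⊆ A' → M ⊆ B' →
        (A ∩ B).card ≤ (A' ∩ B').card := by
      intro A' B' h1 h2 h3
      have hB'B : B' ⊆ B := h1.right_subset
      have hA'B : A' ⊆ B := h1.left_subset
      have hsep : Sep G U (A ∪ A') B' := by
        refine ⟨?_, ?_⟩
        · rw [Finset.union_assoc, h1.1, hs.1]
        · intro a ha haB' b hb hbA hab
          rw [Finset.mem_union] at ha hbA
          push Not at hbA
          have haU : a ∈ A ∨ a ∈ A' := ha
          by_cases haB : a ∈ B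
          · have haA' : a ∈ A' := by
              have : a ∈ A' ∪ B' := by rw [h1.1]; exact haB
              rcases Finset.mem_union.1 this with h | h
              · exact h
              · exact absurd h haB'
            exact h1.2 a haA' haB' b hb hbA.2 hab
          · have haA : a ∈ A := by
              rcases haU with h | h
              · exact h
              · exact absurd (hA'B h) haB
            exact hs.2 a haA haB b (hB'B hb) hbA.1 hab
      have h4 := hmin (A ∪ A') B' hsep (hXA.trans Finset.subset_union_left) h3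
      have h5 : (A ∪ A') ∩ B' = A' ∩ B' := by
        ext w
        simp only [Finset.mem_inter, Finset.mem_union]
        constructor
        · rintro ⟨h | h, h'⟩
          · exact ⟨h2 (Finset.mem_inter.2 ⟨h, hB'B h'⟩), h'⟩
          · exact ⟨h, h'⟩
        · rintro ⟨h, h'⟩
          exact ⟨Or.inr h, h'⟩
      rwa [h5] at h4
    obtain ⟨Q, hQ1, hQ2⟩ := menger_sep G B (A ∩ B) M Finset.inter_subset_right hMB
      (A ∩ B).card hk
    exact linked_of_fin G B (A ∩ B) M Q hQ1 hQ2
  · intro hcard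
    have hk : ∀ A' B', Sep G U A' B' → X ⊆ A' → M ⊆ B' → X.card ≤ (A' ∩ B').card := by
      intro A' B' h1 h2 h3
      rw [← hcard]
      exact hmin A' B' h1 h2 h3
    obtain ⟨Q, hQ1, hQ2⟩ := menger_sep G U X M hX hM X.card hk
    exact linked_of_fin G U X M Q hQ1 hQ2

end Pool.MP_a862e4_co.H18
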