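import Pool.Agent.W_a862e4_h18.Defs

/-!
Theorem K: transfer of knittedness along linked sets.
-/

set_option autoImplicit false
set_option linter.unusedSectionVars false

namespace Pool.MP_a862e4_co.H18

open Pool.MP_4929df_co.H91
open scoped Classical

variable {V : Type*} [Fintype V]

/-- `Y` linked to `S` in `A`, subsets of `S` of size at most `|Y|` are knitted in `B`, `A ∩ B ⊆ S`.
Let `g` be labels on `Y`, `Q`, `m` the linkage.  `m` is injective on `Y`.  `N = Y.image m ⊆ S`,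
`g' w = g y` if `w = m y`, `y ∈ Y` (choice; 0 otherwise).  `hK N` gives `L`.  Put
`K i = L i ∪ ⋃ y ∈ Y, g y = i, Q y` if some `y ∈ Y` has `g y = i`, and `K i = ∅` otherwise.
Connected: `L i` is connected (nonempty), `Q y` meets it in `m y` (`Cn.union_sUnion` or
`Cn.union_iUnion`).  Disjoint for `i ≠ j`: `L i ∩ Q z`, `g z = j`: a common point lies in
`A ∩ B ⊆ S`, so it is `m z ∈ L j`, and `L i`, `L j` are disjoint. -/
theorem knitted_of_linked (G : SimpleGraph V) (A B Y S : Finset V) (hAB : A ∩ B ⊆ S)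
    (hL : Linked G A Y S) (hK : ∀ N ⊆ S, N.card ≤ Y.card → Knitted G B N) :
    Knitted G (A ∪ B) Y := by
  obtain ⟨Q, m, hQ, hQd⟩ := hL
  intro g
  have hinj : ∀ y ∈ Y, ∀ z ∈ Y, m y = m z → y = z := by
    intro y hy z hz h
    by_contra hne
    have h1 := (hQ y hy).2.2.2.2.1
    have h2 := (hQ z hz).2.2.2.2.1
    rw [← h] at h2
    exact Set.disjoint_left.mp (hQd y hy z hz hne) h1 h2
  have hN : Y.image m ⊆ S := by
    intro w hw
    obtain ⟨y, hy, rfl⟩ := Finset.mem_image.mp hw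
    exact (hQ y hy).2.2.2.1
  obtain ⟨g', hg'⟩ : ∃ g' : V → ℕ, ∀ y ∈ Y, g' (m y) = g y := by
    refine ⟨fun w => if h : ∃ y ∈ Y, m y = w then g h.choose else 0, fun y hy => ?_⟩
    have h : ∃ z ∈ Y, m z = m y := ⟨y, hy, rfl⟩
    show (if h : ∃ z ∈ Y, m z = m y then g h.choose else 0) = g y
    rw [dif_pos h]
    exact congrArg g (hinj _ h.choose_spec.1 y hy h.choose_spec.2)
  obtain ⟨L, h1, h2, h3, h4⟩ := hK (Y.image m) hN Finset.card_image_le g'
  have hmL : ∀ y ∈ Y, m y ∈ L (g y) := by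
    intro y hy
    have := h4 (m y) (Finset.mem_image_of_mem m hy)
    rwa [hg' y hy] at this
  refine ⟨fun i => {v | ∃ y ∈ Y, g y = i ∧ (v ∈ L i ∨ v ∈ Q y)}, ?_, ?_, ?_, ?_⟩
  · rintro i v ⟨y, hy, -, hv | hv⟩
    · have := h1 i hv
      rw [Finset.mem_coe] at this ⊢
      exact Finset.mem_union_right _ this
    · have := (hQ y hy).1 hv
      rw [Finset.mem_coe] at this ⊢
      exact Finset.mem_union_left _ this
  · intro i
    by_cases hi : ∃ y ∈ Y, g y = i
    · right
      obtain ⟨y0, hy0, rfl⟩ := hi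
      have hm0 := hmL y0 hy0
      have hLc : Cn G (L (g y0)) := by
        rcases h2 (g y0) with h | h
        · rw [h] at hm0
          exact absurd hm0 (Set.notMem_empty _)
        · exact h
      refine cn_of_base (x := m y0) ⟨y0, hy0, rfl, Or.inl hm0⟩ ?_
      intro A' hA' hmA' hcl
      have hLA : L (g y0) ⊆ A' := hLc.subset_of_closed ⟨m y0, hm0, hmA'⟩
        fun a _ haA b hb hab => hcl a haA b ⟨y0, hy0, rfl, Or.inl hb⟩ hab
      refine Set.Subset.antisymm hA' ?_
      rintro v ⟨y, hy, hgy, hv | hv⟩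
      · exact hLA hv
      · have hmy := hmL y hy
        rw [hgy] at hmy
        exact (hQ y hy).2.1.subset_of_closed ⟨m y, (hQ y hy).2.2.2.2.1, hLA hmy⟩
          (fun a _ haA b hb hab => hcl a haA b ⟨y, hy, hgy, Or.inr hb⟩ hab) hv
    · left
      refine Set.eq_empty_of_forall_notMem ?_
      rintro v ⟨y, hy, hgy, -⟩
      exact hi ⟨y, hy, hgy⟩
  · intro i j hij
    have key : ∀ k l, k ≠ l → ∀ v, v ∈ L k → ∀ z ∈ Y, g z = l → v ∉ Q z := by
      intro k l hkl v hv z hz hgz hvz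
      have hvS : v ∈ S := by
        refine hAB (Finset.mem_inter.mpr ⟨?_, ?_⟩)
        · exact Finset.mem_coe.mp ((hQ z hz).1 hvz)
        · exact Finset.mem_coe.mp (h1 k hv)
      have hvm := (hQ z hz).2.2.2.2.2 v hvz hvS
      have h5 := hmL z hz
      rw [← hvm, hgz] at h5
      exact Set.disjoint_left.mp (h3 k l hkl) hv h5
    rw [Set.disjoint_left]
    rintro v ⟨y, hy, hgy, hv | hv⟩ ⟨z, hz, hgz, hw | hw⟩
    · exact Set.disjoint_left.mp (h3 i j hij) hv hw
    · exact key i j hij v hv z hz hgz hw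
    · exact key j i hij.symm v hw y hy hgy hv
    · have hyz : y ≠ z := by
        rintro rfl
        exact hij (hgy.symm.trans hgz)
      exact Set.disjoint_left.mp (hQd y hy z hz hyz) hv hw
  · intro x hx
    exact ⟨x, hx, rfl, Or.inr (hQ x hx).2.2.1⟩

end Pool.MP_a862e4_co.H18
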