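import Pool.Agent.W_a862e4_h18.Defs

/-!
Theorem K: knittedness over a clique and under contraction.
-/

set_option autoImplicit false
set_option linter.unusedSectionVars false

namespace Pool.MP_a862e4_co.H18

open Pool.MP_4929df_co.H91
open scoped Classical

variable {V : Type*} [Fintype V]

/-- Let `g` be labels on `X`, `K` from `hK`.  `g' s = i` if `s ∈ S ∩ K i` (`i` is unique), `0` if
`s ∈ S` is in no `K i`; `L` from `hS` for `g'`.  Put `K' i = K i ∪ L i` if `K i` meets `S`,
`K' i = K i` otherwise.  `K i ∪ L i` is connected in `G`: `cn_of_base` with a base point in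
`K i ∩ S ⊆ L i`: a closed set contains `L i`, and then `K i` by `Cn.subset_of_closed` for the graph
`clq G S` (a clique edge inside `K i` ends in `K i ∩ S ⊆ L i`).  If `K i` does not meet `S` then it is
connected in `G`.  Disjoint: a point of `L i ∩ K j` lies in `A ∩ B ⊆ S`, so in `L j`. -/
theorem knitted_of_clq (G : SimpleGraph V) (A B S X : Finset V) (hAB : A ∩ B ⊆ S)
    (hK : Knitted (clq G S) A X) (hS : Knitted G B S) : Knitted G (A ∪ B) X := by
  intro g
  obtain ⟨K, hKA, hKc, hKd, hKX⟩ := hK g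
  obtain ⟨L, hLB, hLc, hLd, hLS⟩ := hS (fun s => if h : ∃ i, s ∈ K i then h.choose else 0)
  have hL : ∀ i s, s ∈ S → s ∈ K i → s ∈ L i := by
    intro i s hs hsK
    have h1 : ∃ i, s ∈ K i := ⟨i, hsK⟩
    have h2 := hLS s hs
    rw [dif_pos h1] at h2
    have h3 : h1.choose = i := by
      by_contra hne
      exact Set.disjoint_left.1 (hKd _ _ hne) h1.choose_spec hsK
    rwa [h3] at h2
  have hLK : ∀ i j, i ≠ j → ∀ s, s ∈ L i → s ∉ K j := by
    intro i j hij s hsL hsK
    have h1 : s ∈ S := hAB (Finset.mem_inter.2 ⟨by exact_mod_cast hKA j hsK,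
      by exact_mod_cast hLB i hsL⟩)
    exact Set.disjoint_left.1 (hLd _ _ hij) hsL (hL j s h1 hsK)
  refine ⟨fun i => {x | x ∈ K i ∨ (x ∈ L i ∧ ∃ s ∈ S, s ∈ K i)}, ?_, ?_, ?_, ?_⟩
  · rintro i x (hx | ⟨hx, _⟩)
    · rw [Finset.coe_union]; exact Or.inl (hKA i hx)
    · rw [Finset.coe_union]; exact Or.inr (hLB i hx)
  · intro i
    rcases hKc i with h0 | hc
    · left
      rw [Set.eq_empty_iff_forall_notMem]
      rintro x (hx | ⟨_, s, _, hs⟩)
      · rw [h0] at hx; exact hx
      · rw [h0] at hs; exact hs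
    · right
      by_cases hm : ∃ s ∈ S, s ∈ K i
      · obtain ⟨x0, hx0S, hx0K⟩ := hm
        have hx0L := hL i x0 hx0S hx0K
        have hLci : Cn G (L i) := by
          rcases hLc i with h1 | h1
          · rw [h1] at hx0L; exact absurd hx0L (Set.notMem_empty _)
          · exact h1
        refine cn_of_base (x := x0) (Or.inl hx0K) fun T hT hx0T hcl => ?_
        have h1 : L i ⊆ T := hLci.subset_of_closed ⟨x0, hx0L, hx0T⟩
          (fun a _ haT b hb hab => hcl a haT b (Or.inr ⟨hb, x0, hx0S, hx0K⟩) hab)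
        have h2 : K i ⊆ T := hc.subset_of_closed ⟨x0, hx0K, hx0T⟩ (by
          intro a _ haT b hb hab
          rcases hab with hab | ⟨_, _, hbS⟩
          · exact hcl a haT b (Or.inl hb) hab
          · exact h1 (hL i b hbS hb))
        apply Set.Subset.antisymm hT
        rintro x (hx | ⟨hx, _⟩)
        · exact h2 hx
        · exact h1 hx
      · have h1 : {x | x ∈ K i ∨ (x ∈ L i ∧ ∃ s ∈ S, s ∈ K i)} = K i := by
          ext x
          constructor
          · rintro (hx | ⟨_, hx⟩)
            · exact hx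
            · exact absurd hx hm
          · exact fun hx => Or.inl hx
        show Cn G {x | x ∈ K i ∨ (x ∈ L i ∧ ∃ s ∈ S, s ∈ K i)}
        rw [h1]
        refine ⟨hc.1, fun T hT hne hcl => hc.2 T hT hne ?_⟩
        intro a ha b hb hab
        rcases hab with hab | ⟨_, haS, _⟩
        · exact hcl a ha b hb hab
        · exact absurd ⟨a, haS, hT ha⟩ hm
  · intro i j hij
    rw [Set.disjoint_left]
    rintro x (hx | ⟨hx, _⟩) (hy | ⟨hy, _⟩)
    · exact Set.disjoint_left.1 (hKd _ _ hij) hx hy
    · exact hLK j i hij.symm x hy hx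
    · exact hLK i j hij x hx hy
    · exact Set.disjoint_left.1 (hLd _ _ hij) hx hy
  · intro x hx
    exact Or.inl (hKX x hx)

/-- Replace the set `K i` that contains `u` by `insert v (K i)`.  Connected in `G`: a set `T` closed in
`insert v (K i)` for `G` that contains `u` contains `v` (`u ~ v`), so `T` is closed for `ctr G u v` inside `K i` (an
edge of `ctr` at `u` that is not in `G` comes from an edge at `v`).  `Y ⊆ B'` is not needed: `v ∉ B'`. -/
theorem knitted_of_ctr (G : SimpleGraph V) (u v : V) (huv : G.Adj u v) (B' Y : Finset V)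
    (hv : v ∉ B') (hK : Knitted (ctr G u v) B' Y) : Knitted G (insert v B') Y := by
  intro g
  obtain ⟨K, hKA, hKc, hKd, hKX⟩ := hK g
  have hvK : ∀ i, v ∉ K i := fun i h => hv (by exact_mod_cast hKA i h)
  refine ⟨fun i => {x | x ∈ K i ∨ (x = v ∧ u ∈ K i)}, ?_, ?_, ?_, ?_⟩
  · rintro i x (hx | ⟨rfl, _⟩)
    · rw [Finset.coe_insert]; exact Or.inr (hKA i hx)
    · rw [Finset.coe_insert]; exact Or.inl rfl
  · intro i
    rcases hKc i with h0 | hc
    · left
      rw [Set.eq_empty_iff_forall_notMem]
      rintro x (hx | ⟨_, hx⟩)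
      · rw [h0] at hx; exact hx
      · rw [h0] at hx; exact hx
    · right
      by_cases hu : u ∈ K i
      · refine cn_of_base (x := u) (Or.inl hu) fun T hT huT hcl => ?_
        have hvT : v ∈ T := hcl u huT v (Or.inr ⟨rfl, hu⟩) huv
        have h2 : K i ⊆ T := hc.subset_of_closed ⟨u, hu, huT⟩ (by
          intro a _ haT b hb hab
          rcases hab.2 with hab | ⟨_, hab⟩ | ⟨hbu, _⟩
          · exact hcl a haT b (Or.inl hb) hab
          · exact hcl v hvT b (Or.inl hb) hab
          · rw [hbu]; exact huT)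
        apply Set.Subset.antisymm hT
        rintro x (hx | ⟨rfl, _⟩)
        · exact h2 hx
        · exact hvT
      · have h1 : {x | x ∈ K i ∨ (x = v ∧ u ∈ K i)} = K i := by
          ext x
          constructor
          · rintro (hx | ⟨_, hx⟩)
            · exact hx
            · exact absurd hx hu
          · exact fun hx => Or.inl hx
        show Cn G {x | x ∈ K i ∨ (x = v ∧ u ∈ K i)}
        rw [h1]
        refine ⟨hc.1, fun T hT hne hcl => hc.2 T hT hne ?_⟩
        intro a ha b hb hab
        rcases hab.2 with hab | ⟨hau, _⟩ | ⟨hbu, _⟩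
        · exact hcl a ha b hb hab
        · exact absurd (hau ▸ hT ha) hu
        · exact absurd (hbu ▸ hb) hu
  · intro i j hij
    rw [Set.disjoint_left]
    rintro x (hx | ⟨rfl, hx⟩) (hy | ⟨hyv, hy⟩)
    · exact Set.disjoint_left.1 (hKd _ _ hij) hx hy
    · rw [hyv] at hx; exact hvK i hx
    · exact hvK j hy
    · exact Set.disjoint_left.1 (hKd _ _ hij) hx hy
  · intro x hx
    exact Or.inl (hKX x hx)

end Pool.MP_a862e4_co.H18
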