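import Pool.Agent.W_a862e4_h18.Defs

/-!
Theorem K: small sets in a host are knitted.
-/

set_option autoImplicit false
set_option linter.unusedSectionVars false

namespace Pool.MP_a862e4_co.H18

open Pool.MP_4929df_co.H91
open scoped Classical

variable {V : Type*} [Fintype V]

/-- A finite set `N` of size `≤ x` in a host `M` is knitted in `M`.  Claim, by induction on `N' ⊆ N`:
there are `K : ℕ → Set V` (or finsets), `K i ⊆ M`, empty or connected, pairwise disjoint,
`n ∈ K (g n)` for `n ∈ N'`, `K i ∩ N ⊆ N'`, `K i = ∅` if no `n ∈ N'` has label `i`, and the union `T` of
all `K i` has at most `3 |N'|` vertices.  Step, new `n` with label `i`: if `K i = ∅` put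
`K i = {n}`.  Otherwise take `n' ∈ K i ∩ N'` and `L` from the host property for
`a = n'`, `b = n`, `F = T ∪ N` (`|F| ≤ 3 |N'| + |N \ N'| ≤ 3 x`), and add `L` to `K i`; `L` meets
`T ∪ N` only in `n'` and `n`, so at most 3 new vertices. -/
theorem host_knit (G : SimpleGraph V) (x : ℕ) (M N : Finset V)
    (hM : ∀ a ∈ M, ∀ b ∈ M, ∀ F : Finset V, F.card ≤ 3 * x →
      ∃ L : Finset V, L ⊆ M ∧ Cn G (L : Set V) ∧ a ∈ L ∧ b ∈ L ∧ L.card ≤ 4 ∧
        ∀ w ∈ L, w ∈ F → w = a ∨ w = b)
    (hN : N ⊆ M) (hc : N.card ≤ x) : Knitted G M N := by
  intro g
  have key : ∀ N' : Finset V, N' ⊆ N → ∃ (K : ℕ → Finset V) (T : Finset V),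
      (∀ i, K i ⊆ T) ∧ T ⊆ M ∧ T.card ≤ 3 * N'.card ∧
      (∀ i, K i = ∅ ∨ Cn G (K i : Set V)) ∧ (∀ i j, i ≠ j → Disjoint (K i) (K j)) ∧
      (∀ n ∈ N', n ∈ K (g n)) ∧ (∀ i, ∀ w ∈ K i, w ∈ N → w ∈ N') ∧
      (∀ i, (∀ n ∈ N', g n ≠ i) → K i = ∅) := by
    intro N'
    induction N' using Finset.induction_on with
    | empty =>
      intro _
      exact ⟨fun _ => ∅, ∅, fun _ => Finset.Subset.refl _, Finset.empty_subset _, by simp,
        fun _ => Or.inl rfl, fun _ _ _ => Finset.disjoint_empty_left _,
        fun n hn => absurd hn (Finset.notMem_empty n),
        fun i w hw => absurd hw (Finset.notMem_empty w), fun _ _ => rfl⟩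
    | insert n N' hn ih =>
      intro hsub
      have hnN : n ∈ N := hsub (Finset.mem_insert_self n N')
      have hN' : N' ⊆ N := fun w hw => hsub (Finset.mem_insert_of_mem hw)
      obtain ⟨K, T, h1, h2, h3, h4, h5, h6, h7, h8⟩ := ih hN'
      have hnK : ∀ j, n ∉ K j := fun j hj => hn (h7 j n hj hnN)
      have hcard : (insert n N').card = N'.card + 1 := Finset.card_insert_of_notMem hn
      by_cases hK : K (g n) = ∅
      · refine ⟨Function.update K (g n) {n}, insert n T, ?_, ?_, ?_, ?_, ?_, ?_, ?_, ?_⟩
        · intro i
          by_cases hi : i = g n
          · subst hi
            rw [Function.update_self]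
            exact Finset.singleton_subset_iff.2 (Finset.mem_insert_self n T)
          · rw [Function.update_of_ne hi]
            exact (h1 i).trans (Finset.subset_insert n T)
        · exact Finset.insert_subset (hN hnN) h2
        · have := Finset.card_insert_le n T
          omega
        · intro i
          by_cases hi : i = g n
          · subst hi
            rw [Function.update_self]
            right
            rw [Finset.coe_singleton]
            exact cn_singleton G n
          · rw [Function.update_of_ne hi]
            exact h4 i
        · intro i j hij
          by_cases hi : i = g n
          · subst hi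
            rw [Function.update_self, Function.update_of_ne hij.symm]
            exact Finset.disjoint_singleton_left.2 (hnK j)
          · rw [Function.update_of_ne hi]
            by_cases hj : j = g n
            · subst hj
              rw [Function.update_self]
              exact Finset.disjoint_singleton_right.2 (hnK i)
            · rw [Function.update_of_ne hj]
              exact h5 i j hij
        · intro w hw
          rcases Finset.mem_insert.1 hw with rfl | hw
          · rw [Function.update_self]
            exact Finset.mem_singleton_self w
          · by_cases hi : g w = g n
            · have h9 := h6 w hw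
              rw [hi, hK] at h9
              exact absurd h9 (Finset.notMem_empty w)
            · rw [Function.update_of_ne hi]
              exact h6 w hw
        · intro i w hw hwN
          by_cases hi : i = g n
          · subst hi
            rw [Function.update_self] at hw
            rw [Finset.mem_singleton.1 hw]
            exact Finset.mem_insert_self n N'
          · rw [Function.update_of_ne hi] at hw
            exact Finset.mem_insert_of_mem (h7 i w hw hwN)
        · intro i hi
          have hin : i ≠ g n := fun h => hi n (Finset.mem_insert_self n N') h.symm
          rw [Function.update_of_ne hin]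
          exact h8 i fun w hw => hi w (Finset.mem_insert_of_mem hw)
      · have hex : ∃ n' ∈ N', g n' = g n := by
          by_contra hcon
          push Not at hcon
          exact hK (h8 _ hcon)
        obtain ⟨n', hn', hg⟩ := hex
        have hn'K : n' ∈ K (g n) := by
          have := h6 n' hn'
          rwa [hg] at this
        have hF : (T ∪ N).card ≤ 3 * x := by
          have e1 : T ∪ N = T ∪ (N \ N') := by
            ext w
            rw [Finset.mem_union, Finset.mem_union, Finset.mem_sdiff]
            constructor
            · rintro (h | h)
              · exact Or.inl h
              · by_cases hw : w ∈ N'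
                · exact Or.inl (h1 _ (h6 w hw))
                · exact Or.inr ⟨h, hw⟩
            · rintro (h | h)
              · exact Or.inl h
              · exact Or.inr h.1
          have e2 := Finset.card_union_le T (N \ N')
          have e3 : (N \ N').card + N'.card = N.card := Finset.card_sdiff_add_card_eq_card hN'
          rw [e1]
          omega
        obtain ⟨L, l1, l2, l3, l4, l5, l6⟩ := hM n' (hN (hN' hn')) n (hN hnN) (T ∪ N) hF
        refine ⟨Function.update K (g n) (K (g n) ∪ L), T ∪ L, ?_, ?_, ?_, ?_, ?_, ?_, ?_, ?_⟩
        · intro i
          by_cases hi : i = g n
          · subst hi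
            rw [Function.update_self]
            exact Finset.union_subset_union (h1 _) (Finset.Subset.refl L)
          · rw [Function.update_of_ne hi]
            exact (h1 i).trans Finset.subset_union_left
        · exact Finset.union_subset h2 l1
        · have e1 : T ∪ L = T ∪ L.erase n' := by
            ext w
            rw [Finset.mem_union, Finset.mem_union, Finset.mem_erase]
            constructor
            · rintro (h | h)
              · exact Or.inl h
              · by_cases hw : w = n'
                · exact Or.inl (hw ▸ h1 _ hn'K)
                · exact Or.inr ⟨hw, h⟩
            · rintro (h | h)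
              · exact Or.inl h
              · exact Or.inr h.2
          have e2 := Finset.card_union_le T (L.erase n')
          have e3 := Finset.card_erase_of_mem l3
          rw [e1]
          omega
        · intro i
          by_cases hi : i = g n
          · subst hi
            rw [Function.update_self]
            right
            rw [Finset.coe_union]
            rcases h4 (g n) with h | h
            · exact absurd h hK
            · exact h.union l2 ⟨n', hn'K, l3⟩
          · rw [Function.update_of_ne hi]
            exact h4 i
        · have hd : ∀ j, j ≠ g n → Disjoint (K (g n) ∪ L) (K j) := by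
            intro j hj
            rw [Finset.disjoint_left]
            intro w hw hwj
            rcases Finset.mem_union.1 hw with hw | hw
            · exact Finset.disjoint_left.1 (h5 _ _ hj.symm) hw hwj
            · rcases l6 w hw (Finset.mem_union_left _ (h1 j hwj)) with rfl | rfl
              · exact Finset.disjoint_left.1 (h5 _ _ hj.symm) hn'K hwj
              · exact hnK j hwj
          intro i j hij
          by_cases hi : i = g n
          · subst hi
            rw [Function.update_self, Function.update_of_ne hij.symm]
            exact hd j hij.symm
          · rw [Function.update_of_ne hi]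
            by_cases hj : j = g n
            · subst hj
              rw [Function.update_self]
              exact (hd i hij).symm
            · rw [Function.update_of_ne hj]
              exact h5 i j hij
        · intro w hw
          rcases Finset.mem_insert.1 hw with rfl | hw
          · rw [Function.update_self]
            exact Finset.mem_union_right _ l4
          · by_cases hi : g w = g n
            · have h9 := h6 w hw
              rw [hi] at h9 ⊢
              rw [Function.update_self]
              exact Finset.mem_union_left _ h9
            · rw [Function.update_of_ne hi]
              exact h6 w hw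
        · intro i w hw hwN
          by_cases hi : i = g n
          · subst hi
            rw [Function.update_self] at hw
            rcases Finset.mem_union.1 hw with hw | hw
            · exact Finset.mem_insert_of_mem (h7 _ w hw hwN)
            · rcases l6 w hw (Finset.mem_union_right _ hwN) with rfl | rfl
              · exact Finset.mem_insert_of_mem hn'
              · exact Finset.mem_insert_self w N'
          · rw [Function.update_of_ne hi] at hw
            exact Finset.mem_insert_of_mem (h7 i w hw hwN)
        · intro i hi
          have hin : i ≠ g n := fun h => hi n (Finset.mem_insert_self n N') h.symm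
          rw [Function.update_of_ne hin]
          exact h8 i fun w hw => hi w (Finset.mem_insert_of_mem hw)
  obtain ⟨K, T, h1, h2, h3, h4, h5, h6, h7, h8⟩ := key N (Finset.Subset.refl N)
  refine ⟨fun i => (K i : Set V), fun i => ?_, fun i => ?_, fun i j hij => ?_, fun w hw => ?_⟩
  · exact_mod_cast (h1 i).trans h2
  · rcases h4 i with h | h
    · left
      simp only
      rw [h, Finset.coe_empty]
    · exact Or.inr h
  · exact Finset.disjoint_coe.2 (h5 i j hij)
  · exact h6 w hw

end Pool.MP_a862e4_co.H18
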