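import Pool.Agent.W_a862e4_h18.Defs

/-!
Theorem K: existence of a host.
-/

set_option autoImplicit false
set_option linter.unusedSectionVars false

namespace Pool.MP_a862e4_co.H18

open Pool.MP_4929df_co.H91
open scoped Classical

variable {V : Type*} [Fintype V]

theorem KnB4_cn3 {G : SimpleGraph V} {a c b : V} (h1 : G.Adj a c) (h2 : G.Adj c b) :
    Cn G ({a, c, b} : Set V) := by
  have h := (cn_pair h2).insert (a := c) (b := a) (by simp) h1.symm
  simpa using h

theorem KnB4_cn4 {G : SimpleGraph V} {a c c' b : V} (h1 : G.Adj a c) (h2 : G.Adj c c')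
    (h3 : G.Adj c' b) : Cn G ({a, c, c', b} : Set V) := by
  have h := (KnB4_cn3 h2 h3).insert (a := c) (b := a) (by simp) h1.symm
  simpa using h

/-- A graph `G[H]` with at most `2l+3` vertices and minimum degree `≥ l+2-x` contains a host.
If `H` itself is one: `M = H` (`H` nonempty: `|H| ≥ l+2-x`).  Otherwise there are `a, b ∈ H`, `F`,
`|F| ≤ 3x` without `L`; `a ≠ b` (`L = {a}`), not adjacent (`L = {a,b}`).  `N1 = nb G H a \ F`,
`N2 = nb G H b \ F` are disjoint (`L = {a,c,b}`) and there is no edge between them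
(`L = {a,c,c',b}`, `c ∈ N1`, `c' ∈ N2`).  `|N1|, |N2| ≥ l+2-4x`.  Every `w ∈ N1` has its neighbours in
`H \ N2`, `|H \ N2| ≤ 2l+3-(l+2-4x) = l+4x+1`, so it has at most `5x-1` non-neighbours in `H \ N2`
(itself included), so at most `5x-1` non-neighbours in `N1 ⊆ H \ N2`.  So `M = N1`: for `w, w' ∈ N1`,
`|F'| ≤ 3x` there is a common neighbour in `N1 \ F'` as `l+2-4x > 2(5x-1)+3x`. -/
theorem exists_host (G : SimpleGraph V) (l x : ℕ) (hx : 17 * x ≤ l) (H : Finset V)
    (hH : H.Nonempty) (hc : H.card ≤ 2 * l + 3)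
    (hd : ∀ w ∈ H, l + 2 ≤ (nb G H w).card + x) :
    ∃ M ⊆ H, l + 2 ≤ M.card + 4 * x ∧ ∀ a ∈ M, ∀ b ∈ M, ∀ F : Finset V, F.card ≤ 3 * x →
      ∃ L : Finset V, L ⊆ M ∧ Cn G (L : Set V) ∧ a ∈ L ∧ b ∈ L ∧ L.card ≤ 4 ∧
        ∀ w ∈ L, w ∈ F → w = a ∨ w = b := by
  by_cases hhost : ∀ a ∈ H, ∀ b ∈ H, ∀ F : Finset V, F.card ≤ 3 * x →
      ∃ L : Finset V, L ⊆ H ∧ Cn G (L : Set V) ∧ a ∈ L ∧ b ∈ L ∧ L.card ≤ 4 ∧
        ∀ w ∈ L, w ∈ F → w = a ∨ w = b
  · refine ⟨H, Finset.Subset.refl H, ?_, hhost⟩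
    obtain ⟨w, hw⟩ := hH
    have h1 := hd w hw
    have h2 : (nb G H w).card ≤ H.card := Finset.card_le_card (Finset.filter_subset _ _)
    omega
  push Not at hhost
  obtain ⟨a, ha, b, hb, F, hF, hno⟩ := hhost
  have hno' : ∀ L : Finset V, L ⊆ H → Cn G (L : Set V) → a ∈ L → b ∈ L → L.card ≤ 4 →
      (∀ w ∈ L, w ∈ F → w = a ∨ w = b) → False := by
    intro L h1 h2 h3 h4 h5 h6
    obtain ⟨w, hw, hwF, hwa, hwb⟩ := hno L h1 h2 h3 h4 h5
    rcases h6 w hw hwF with h | h
    · exact hwa h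
    · exact hwb h
  have hN1 : l + 2 ≤ (nb G H a \ F).card + 4 * x := by
    have h1 := hd a ha
    have h2 : (nb G H a).card ≤ (nb G H a \ F).card + F.card :=
      Finset.card_le_card_sdiff_add_card
    omega
  have hN2 : l + 2 ≤ (nb G H b \ F).card + 4 * x := by
    have h1 := hd b hb
    have h2 : (nb G H b).card ≤ (nb G H b \ F).card + F.card :=
      Finset.card_le_card_sdiff_add_card
    omega
  have hN1H : nb G H a \ F ⊆ H := fun w hw =>
    (mem_nbf.1 (Finset.mem_sdiff.1 hw).1).1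
  have hN2H : nb G H b \ F ⊆ H := fun w hw =>
    (mem_nbf.1 (Finset.mem_sdiff.1 hw).1).1
  have hdis : ∀ c, c ∈ nb G H a \ F → c ∉ nb G H b \ F := by
    intro c hc1 hc2
    have h1 := Finset.mem_sdiff.1 hc1
    have h2 := Finset.mem_sdiff.1 hc2
    have h3 := mem_nbf.1 h1.1
    have h4 := mem_nbf.1 h2.1
    refine hno' {a, c, b} ?_ ?_ (by simp) (by simp) ?_ ?_
    · intro w hw
      simp only [Finset.mem_insert, Finset.mem_singleton] at hw
      rcases hw with rfl | rfl | rfl
      · exact ha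
      · exact h3.1
      · exact hb
    · have := KnB4_cn3 h3.2 h4.2.symm
      simpa using this
    · exact (Finset.card_le_three).trans (by norm_num)
    · intro w hw hwF
      simp only [Finset.mem_insert, Finset.mem_singleton] at hw
      rcases hw with rfl | rfl | rfl
      · exact Or.inl rfl
      · exact absurd hwF h1.2
      · exact Or.inr rfl
  have hnoe : ∀ c ∈ nb G H a \ F, ∀ c' ∈ nb G H b \ F, ¬ G.Adj c c' := by
    intro c hc1 c' hc2 hadj
    have h1 := Finset.mem_sdiff.1 hc1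
    have h2 := Finset.mem_sdiff.1 hc2
    have h3 := mem_nbf.1 h1.1
    have h4 := mem_nbf.1 h2.1
    refine hno' {a, c, c', b} ?_ ?_ (by simp) (by simp) ?_ ?_
    · intro w hw
      simp only [Finset.mem_insert, Finset.mem_singleton] at hw
      rcases hw with rfl | rfl | rfl | rfl
      · exact ha
      · exact h3.1
      · exact h4.1
      · exact hb
    · have := KnB4_cn4 h3.2 hadj h4.2.symm
      simpa using this
    · exact Finset.card_le_four
    · intro w hw hwF
      simp only [Finset.mem_insert, Finset.mem_singleton] at hw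
      rcases hw with rfl | rfl | rfl | rfl
      · exact Or.inl rfl
      · exact absurd hwF h1.2
      · exact absurd hwF h2.2
      · exact Or.inr rfl
  -- sizes
  have hHN : (H \ (nb G H b \ F)).card ≤ l + 1 + 4 * x := by
    have := Finset.card_sdiff_add_card_eq_card hN2H
    omega
  have hbig : ∀ w ∈ nb G H a \ F,
      (nb G H a \ F).card + 1 ≤ (nb G H w ∩ (nb G H a \ F)).card + 5 * x := by
    intro w hw
    have h1 : nb G H w ∪ (nb G H a \ F) ⊆ H \ (nb G H b \ F) := by
      intro z hz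
      rw [Finset.mem_union] at hz
      rw [Finset.mem_sdiff]
      rcases hz with hz | hz
      · exact ⟨(mem_nbf.1 hz).1, fun h => hnoe w hw z h (mem_nbf.1 hz).2⟩
      · exact ⟨hN1H hz, hdis z hz⟩
    have h2 := Finset.card_le_card h1
    have h3 := Finset.card_union_add_card_inter (nb G H w) (nb G H a \ F)
    have h4 := hd w (hN1H hw)
    omega
  refine ⟨nb G H a \ F, hN1H, hN1, fun w hw w' hw' F' hF' => ?_⟩
  have h1 := hbig w hw
  have h2 := hbig w' hw'
  have h3 := Finset.card_union_add_card_inter (nb G H w ∩ (nb G H a \ F))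
    (nb G H w' ∩ (nb G H a \ F))
  have h4 : ((nb G H w ∩ (nb G H a \ F)) ∪ (nb G H w' ∩ (nb G H a \ F))).card ≤
      (nb G H a \ F).card := Finset.card_le_card
    (Finset.union_subset Finset.inter_subset_right Finset.inter_subset_right)
  have h5 : F'.card < ((nb G H w ∩ (nb G H a \ F)) ∩ (nb G H w' ∩ (nb G H a \ F))).card := by
    omega
  obtain ⟨c, hc, hcF⟩ := Finset.exists_mem_notMem_of_card_lt_card h5
  rw [Finset.mem_inter, Finset.mem_inter, Finset.mem_inter] at hc
  obtain ⟨⟨hc1, hc2⟩, hc3, -⟩ := hc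
  refine ⟨{w, c, w'}, ?_, ?_, by simp, by simp, ?_, ?_⟩
  · intro z hz
    simp only [Finset.mem_insert, Finset.mem_singleton] at hz
    rcases hz with rfl | rfl | rfl
    · exact hw
    · exact hc2
    · exact hw'
  · have := KnB4_cn3 (mem_nbf.1 hc1).2 (mem_nbf.1 hc3).2.symm
    simpa using this
  · exact (Finset.card_le_three).trans (by norm_num)
  · intro z hz hzF
    simp only [Finset.mem_insert, Finset.mem_singleton] at hz
    rcases hz with rfl | rfl | rfl
    · exact Or.inl rfl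
    · exact absurd hzF hcF
    · exact Or.inr rfl

end Pool.MP_a862e4_co.H18
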