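import Pool.Agent.W_a862e4_h18.Defs

/-!
Theorem K: sides of separations.
-/

set_option autoImplicit false
set_option linter.unusedSectionVars false

namespace Pool.MP_a862e4_co.H18

open Pool.MP_4929df_co.H91
open scoped Classical

variable {V : Type*} [Fintype V]

variable {G : SimpleGraph V} {l x : ℕ} {U X : Finset V}

/-- `(A ∪ P, Q)` is a separation of `G[U]` if `(A, B)` is one and `(P, Q)` is one of `G[B]` with
`A ∩ B ⊆ P`; its cut is `P ∩ Q` (`A ∩ Q ⊆ A ∩ B ⊆ P`) and `Q \ (A ∪ P) = Q \ P`. -/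
theorem sep_trans {A B P Q : Finset V} (h1 : Sep G U A B) (h2 : Sep G B P Q) (h3 : A ∩ B ⊆ P) :
    Sep G U (A ∪ P) Q ∧ (A ∪ P) ∩ Q = P ∩ Q ∧ Q \ (A ∪ P) = Q \ P := by
  have hQB : Q ⊆ B := h2.right_subset
  refine ⟨⟨?_, ?_⟩, ?_, ?_⟩
  · rw [Finset.union_assoc, h2.1, h1.1]
  · intro a ha haQ b hb hbA
    rw [Finset.mem_union, not_or] at hbA
    rcases Finset.mem_union.1 ha with ha | ha
    · by_cases haB : a ∈ B
      · exact h2.2 a (h3 (Finset.mem_inter.2 ⟨ha, haB⟩)) haQ b hb hbA.2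
      · exact h1.2 a ha haB b (hQB hb) hbA.1
    · exact h2.2 a ha haQ b hb hbA.2
  · ext a
    simp only [Finset.mem_inter, Finset.mem_union]
    constructor
    · rintro ⟨ha | ha, hQ⟩
      · exact ⟨h3 (Finset.mem_inter.2 ⟨ha, hQB hQ⟩), hQ⟩
      · exact ⟨ha, hQ⟩
    · rintro ⟨ha, hQ⟩
      exact ⟨Or.inr ha, hQ⟩
  · ext a
    simp only [Finset.mem_sdiff, Finset.mem_union, not_or]
    constructor
    · rintro ⟨hQ, _, hP⟩
      exact ⟨hQ, hP⟩
    · rintro ⟨hQ, hP⟩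
      exact ⟨hQ, fun hA => hP (h3 (Finset.mem_inter.2 ⟨hA, hQB hQ⟩)), hP⟩

theorem KnC1_sdiff (A B : Finset V) : B \ (A ∩ B) = B \ A := by
  ext a
  simp only [Finset.mem_sdiff, Finset.mem_inter]
  tauto

/-- a side with many edges is massed.  `m2`: `sep_trans` and `hm`. -/
theorem massed_side (hm : M2 G l U X) {A B : Finset V} (hs : Sep G U A B) (hX : X ⊆ A)
    (hc : (A ∩ B).card ≤ X.card) (hbig : 2 * l * (B \ A).card < ed G B (A ∩ B)) :
    Massed G l B (A ∩ B) := by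
  refine ⟨?_, ?_⟩
  · rw [KnC1_sdiff]
    exact hbig
  · intro P Q h2 h3 hc2
    obtain ⟨k1, k2, k3⟩ := sep_trans hs h2 h3
    have h4 := hm (A ∪ P) Q k1 (hX.trans Finset.subset_union_left) (by rw [k2]; omega)
    rw [k2, k3] at h4
    exact h4

/-- If `M2` fails take a violating separation `(P, Q)` with `Q.card` minimal.  `Q \ P` is nonempty
since otherwise `P ∩ Q = Q` and `ed G Q Q = 0`.  `Massed G l Q (P ∩ Q)`: `m1` is the violation; `m2`:
a violation `(P', Q')` for `G[Q]`, `P ∩ Q ⊆ P'`, gives by `sep_trans` the violation `(P ∪ P', Q')` of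
`G[U]` with `Q' ⊆ Q`; `Q' ≠ Q` since `P ∩ Q ⊆ P'` and `|P' ∩ Q'| < |P ∩ Q|` exclude `Q' = Q`; so it
contradicts minimality. -/
theorem exists_viol (h : ¬ M2 G l U X) :
    ∃ P Q, Sep G U P Q ∧ X ⊆ P ∧ (P ∩ Q).card < X.card ∧ 2 * l * (Q \ P).card < ed G Q (P ∩ Q) ∧
      (Q \ P).Nonempty ∧ Massed G l Q (P ∩ Q) := by
  have hne : ((Finset.univ : Finset (Finset V × Finset V)).filter (fun p =>
      Sep G U p.1 p.2 ∧ X ⊆ p.1 ∧ (p.1 ∩ p.2).card < X.card ∧
        2 * l * (p.2 \ p.1).card < ed G p.2 (p.1 ∩ p.2))).Nonempty := by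
    unfold M2 at h
    push Not at h
    obtain ⟨A, B, h1, h2, h3, h4⟩ := h
    exact ⟨(A, B), Finset.mem_filter.2 ⟨Finset.mem_univ _, h1, h2, h3, h4⟩⟩
  obtain ⟨⟨P, Q⟩, hPQ, hmin⟩ := Finset.exists_min_image _
    (fun p : Finset V × Finset V => p.2.card) hne
  rw [Finset.mem_filter] at hPQ
  obtain ⟨-, h1, h2, h3, h4⟩ := hPQ
  refine ⟨P, Q, h1, h2, h3, h4, ?_, ?_, ?_⟩
  · by_contra hcon
    rw [Finset.not_nonempty_iff_eq_empty, Finset.sdiff_eq_empty_iff_subset] at hcon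
    have h5 : P ∩ Q = Q := Finset.inter_eq_right.2 hcon
    have h6 : ed G Q Q = 0 := by
      unfold ed
      rw [Finset.card_eq_zero, Finset.filter_eq_empty_iff]
      rintro p hp ⟨-, h7⟩
      rw [Finset.mem_product] at hp
      exact h7 hp
    simp only [h5, h6] at h4
    omega
  · rw [KnC1_sdiff]
    exact h4
  · intro P' Q' hs' hX' hc'
    by_contra hcon
    obtain ⟨k1, k2, k3⟩ := sep_trans h1 hs' hX'
    have h5 := hmin (P ∪ P', Q') (Finset.mem_filter.2 ⟨Finset.mem_univ _, k1,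
      h2.trans Finset.subset_union_left, by simp only [k2]; simp only at h3; omega,
      by simp only [k2, k3]; omega⟩)
    have h6 : Q' = Q := Finset.eq_of_subset_of_card_le hs'.right_subset h5
    subst h6
    have h7 : (P ∩ Q').card ≤ (P' ∩ Q').card :=
      Finset.card_le_card (Finset.subset_inter hX' Finset.inter_subset_right)
    omega

/-- counting over a separation: `ed G U X = ed G A X + ed G B (A ∩ B)` for `X ⊆ A` (a pair of adjacent
vertices of `U` lies in `A` or in `B`; the pairs in `B`, not both in `A ∩ B`, are the pairs not in `A`). -/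
theorem ed_sep {A B : Finset V} (hs : Sep G U A B) (hX : X ⊆ A) :
    ed G U X = ed G A X + ed G B (A ∩ B) := by
  have hU := hs.1
  unfold ed
  rw [← Finset.card_union_of_disjoint]
  · congr 1
    ext p
    rw [Finset.mem_union, mem_ed, mem_ed, mem_ed]
    constructor
    · rintro ⟨⟨hp1, hp2⟩, hadj, hX2⟩
      rw [← hU, Finset.mem_union] at hp1 hp2
      by_cases h1 : p.1 ∈ A
      · by_cases h2 : p.2 ∈ A
        · exact Or.inl ⟨⟨h1, h2⟩, hadj, hX2⟩
        · have h2B : p.2 ∈ B := hp2.resolve_left h2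
          have h1B : p.1 ∈ B := by
            by_contra hcon
            exact hs.2 p.1 h1 hcon p.2 h2B h2 hadj
          exact Or.inr ⟨⟨h1B, h2B⟩, hadj, fun h => h2 (Finset.mem_inter.1 h.2).1⟩
      · have h1B : p.1 ∈ B := hp1.resolve_left h1
        have h2B : p.2 ∈ B := by
          by_contra hcon
          exact hs.2 p.2 (hp2.resolve_right hcon) hcon p.1 h1B h1 hadj.symm
        exact Or.inr ⟨⟨h1B, h2B⟩, hadj, fun h => h1 (Finset.mem_inter.1 h.1).1⟩
    · rintro (⟨⟨h1, h2⟩, hadj, hX2⟩ | ⟨⟨h1, h2⟩, hadj, hX2⟩)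
      · exact ⟨⟨hs.left_subset h1, hs.left_subset h2⟩, hadj, hX2⟩
      · exact ⟨⟨hs.right_subset h1, hs.right_subset h2⟩, hadj, fun h =>
          hX2 ⟨Finset.mem_inter.2 ⟨hX h.1, h1⟩, Finset.mem_inter.2 ⟨hX h.2, h2⟩⟩⟩
  · rw [Finset.disjoint_left]
    intro p hpA hpB
    rw [mem_ed] at hpA hpB
    exact hpB.2.2 ⟨Finset.mem_inter.2 ⟨hpA.1.1, hpB.1.1⟩, Finset.mem_inter.2 ⟨hpA.1.2, hpB.1.2⟩⟩

end Pool.MP_a862e4_co.H18
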