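import Pool.Agent.W_a862e4_h18.KnC1
import Pool.Agent.W_a862e4_h18.KnB2

/-!
Theorem K: step (b1).
-/

set_option autoImplicit false
set_option linter.unusedSectionVars false

namespace Pool.MP_a862e4_co.H18

open Pool.MP_4929df_co.H91
open scoped Classical

variable {V : Type*} [Fintype V]

variable {G : SimpleGraph V} {l x : ℕ} {U X : Finset V}

/-- the clique edges inside `Q` lie inside `S ∩ Q ⊆ T` -/
theorem KnC2_ed_clq {Q S T : Finset V} (hS : ∀ a ∈ S, a ∈ Q → a ∈ T) :
    ed (clq G S) Q T ≤ ed G Q T := by
  refine Finset.card_le_card fun p hp => ?_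
  rw [mem_ed] at hp ⊢
  refine ⟨hp.1, ?_, hp.2.2⟩
  rcases hp.2.1 with h | h
  · exact h
  · exact absurd ⟨hS _ h.2.1 hp.1.1, hS _ h.2.2 hp.1.2⟩ hp.2.2

theorem KnC2_ed_le (S Q T : Finset V) : ed G Q T ≤ ed (clq G S) Q T := by
  refine Finset.card_le_card fun p hp => ?_
  rw [mem_ed] at hp ⊢
  exact ⟨hp.1, Or.inl hp.2.1, hp.2.2⟩

theorem KnC2_aux (h : MC G l x U X) : ∀ (n : ℕ) (A B : Finset V), A.card = n → Sep G U A B →
    X ⊆ A → (A ∩ B).card < X.card → (B \ A).Nonempty → ¬ Knitted G B (A ∩ B) := by
  intro n
  induction n using Nat.strong_induction_on with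
  | _ n ih =>
    intro A B hn hs hXA hc hne hK
    have hAU : A.card < U.card := by
      obtain ⟨b, hb⟩ := hne
      rw [Finset.mem_sdiff] at hb
      exact Finset.card_lt_card ⟨hs.left_subset, fun hh => hb.2 (hh (hs.right_subset hb.1))⟩
    have hm : Massed (clq G (A ∩ B)) l A X := by
      refine ⟨?_, ?_⟩
      · have h1 := ed_sep hs hXA
        have h2 := h.hm.m1
        have h3 := h.hm.m2 A B hs hXA hc
        have h4 : (U \ X).card = (A \ X).card + (B \ A).card := by
          rw [← Finset.card_union_of_disjoint]
          · congr 1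
            ext a
            rw [← hs.1]
            simp only [Finset.mem_sdiff, Finset.mem_union]
            constructor
            · rintro ⟨ha | ha, haX⟩
              · exact Or.inl ⟨ha, haX⟩
              · by_cases haA : a ∈ A
                · exact Or.inl ⟨haA, haX⟩
                · exact Or.inr ⟨ha, haA⟩
            · rintro (⟨ha, haX⟩ | ⟨ha, haA⟩)
              · exact ⟨Or.inl ha, haX⟩
              · exact ⟨Or.inr ha, fun hh => haA (hXA hh)⟩
          · rw [Finset.disjoint_left]
            intro a ha hb
            rw [Finset.mem_sdiff] at ha hb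
            exact hb.2 ha.1
        have h5 := KnC2_ed_le (G := G) (A ∩ B) A X
        rw [h4, Nat.mul_add] at h2
        omega
      · by_contra hM
        obtain ⟨P, Q, p1, p2, p3, p4, p5, p6⟩ := exists_viol hM
        have hQA : Q ⊆ A := p1.right_subset
        have hPA : P ⊆ A := p1.left_subset
        have hkn : Knitted (clq G (A ∩ B)) Q (P ∩ Q) :=
          h.min _ Q (P ∩ Q) Finset.inter_subset_right (by have := h.cX; omega) p6
            (Or.inl (lt_of_le_of_lt (Finset.card_le_card hQA) hAU))
        have hcl : A ∩ B ⊆ P ∨ A ∩ B ⊆ Q := by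
          by_contra hcon
          rw [not_or] at hcon
          obtain ⟨s, hs1, hs2⟩ := Finset.not_subset.1 hcon.1
          obtain ⟨t, ht1, ht2⟩ := Finset.not_subset.1 hcon.2
          have hsQ : s ∈ Q := by
            have : s ∈ P ∪ Q := by rw [p1.1]; exact (Finset.mem_inter.1 hs1).1
            rcases Finset.mem_union.1 this with h1 | h1
            · exact absurd h1 hs2
            · exact h1
          have htP : t ∈ P := by
            have : t ∈ P ∪ Q := by rw [p1.1]; exact (Finset.mem_inter.1 ht1).1
            rcases Finset.mem_union.1 this with h1 | h1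
            · exact h1
            · exact absurd h1 ht2
          exact p1.2 t htP ht2 s hsQ hs2 (Or.inr ⟨fun e => ht2 (e ▸ hsQ), ht1, hs1⟩)
        rcases hcl with hSP | hSQ
        · have hcut : (P ∪ B) ∩ Q = P ∩ Q := by
            ext a
            simp only [Finset.mem_inter, Finset.mem_union]
            constructor
            · rintro ⟨ha | ha, hQ⟩
              · exact ⟨ha, hQ⟩
              · exact ⟨hSP (Finset.mem_inter.2 ⟨hQA hQ, ha⟩), hQ⟩
            · rintro ⟨ha, hQ⟩
              exact ⟨Or.inl ha, hQ⟩
          have hsep : Sep G U (P ∪ B) Q := by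
            refine ⟨?_, ?_⟩
            · rw [← hs.1, ← p1.1]
              ext a
              simp only [Finset.mem_union]
              tauto
            · intro a ha haQ b hb hbP hab
              rw [Finset.mem_union, not_or] at hbP
              by_cases haP : a ∈ P
              · exact p1.2 a haP haQ b hb hbP.1 (Or.inl hab)
              · have haB : a ∈ B := by
                  rcases Finset.mem_union.1 ha with h1 | h1
                  · exact absurd h1 haP
                  · exact h1
                have haA : a ∉ A := fun hh => haP (hSP (Finset.mem_inter.2 ⟨hh, haB⟩))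
                exact hs.2 b (hQA hb) hbP.2 a haB haA hab.symm
          have h6 := h.hm.m2 (P ∪ B) Q hsep (p2.trans Finset.subset_union_left) (by rw [hcut]; exact p3)
          rw [hcut] at h6
          have h7 : (Q \ (P ∪ B)).card ≤ (Q \ P).card :=
            Finset.card_le_card (Finset.sdiff_subset_sdiff (Finset.Subset.refl _)
              Finset.subset_union_left)
          have h8 := KnC2_ed_clq (G := G) (Q := Q) (S := A ∩ B) (T := P ∩ Q)
            (fun a ha haQ => Finset.mem_inter.2 ⟨hSP ha, haQ⟩)
          have h9 : 2 * l * (Q \ (P ∪ B)).card ≤ 2 * l * (Q \ P).card := Nat.mul_le_mul_left _ h7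
          omega
        · have hcut : P ∩ (Q ∪ B) = P ∩ Q := by
            ext a
            simp only [Finset.mem_inter, Finset.mem_union]
            constructor
            · rintro ⟨ha, hQ | hB⟩
              · exact ⟨ha, hQ⟩
              · exact ⟨ha, hSQ (Finset.mem_inter.2 ⟨hPA ha, hB⟩)⟩
            · rintro ⟨ha, hQ⟩
              exact ⟨ha, Or.inl hQ⟩
          have hsep : Sep G U P (Q ∪ B) := by
            refine ⟨?_, ?_⟩
            · rw [← hs.1, ← p1.1]
              ext a
              simp only [Finset.mem_union]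
              tauto
            · intro a ha haQ b hb hbP hab
              rw [Finset.mem_union, not_or] at haQ
              by_cases hbQ : b ∈ Q
              · exact p1.2 a ha haQ.1 b hbQ hbP (Or.inl hab)
              · have hbB : b ∈ B := by
                  rcases Finset.mem_union.1 hb with h1 | h1
                  · exact absurd h1 hbQ
                  · exact h1
                have hbA : b ∉ A := fun hh => hbQ (hSQ (Finset.mem_inter.2 ⟨hh, hbB⟩))
                exact hs.2 a (hPA ha) haQ.2 b hbB hbA hab
          have hkn2 : Knitted G (Q ∪ B) (P ∩ Q) :=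
            knitted_of_clq G Q B (A ∩ B) (P ∩ Q)
              (fun a ha => Finset.mem_inter.2 ⟨hQA (Finset.mem_inter.1 ha).1,
                (Finset.mem_inter.1 ha).2⟩) hkn hK
          have hPc : P.card < A.card := by
            obtain ⟨q, hq⟩ := p5
            rw [Finset.mem_sdiff] at hq
            exact Finset.card_lt_card ⟨hPA, fun hh => hq.2 (hh (hQA hq.1))⟩
          refine ih P.card (by omega) P (Q ∪ B) rfl hsep p2 (by rw [hcut]; exact p3) ?_ ?_
          · obtain ⟨q, hq⟩ := p5
            rw [Finset.mem_sdiff] at hq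
            exact ⟨q, Finset.mem_sdiff.2 ⟨Finset.mem_union_left _ hq.1, hq.2⟩⟩
          · rw [hcut]
            exact hkn2
    have hkA : Knitted (clq G (A ∩ B)) A X := h.min _ A X hXA h.cX hm (Or.inl hAU)
    have hkU := knitted_of_clq G A B (A ∩ B) X (Finset.Subset.refl _) hkA hK
    rw [hs.1] at hkU
    exact h.nk hkU

/-- (b1).  Suppose there is a knitted separation of order `< |X|` with `B \ A` nonempty; take one with
`A.card` minimal.  `S = A ∩ B`, `G' = clq G S`.  `Massed G' l A X`: `m1`: `ed_sep`,
`h.hm.m2 A B`, `(U \ X).card = (A \ X).card + (B \ A).card` and `ed G A X ≤ ed G' A X`.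
`m2`: otherwise `exists_viol` for `G'`, `A` gives `(P, Q)`; `Knitted G' Q (P ∩ Q)` by `h.min`
(`Q ⊆ A`, `A.card < U.card` since `B \ A` is nonempty).  `S` is a clique in `G'`, so `S ⊆ P` or `S ⊆ Q`.
If `S ⊆ P`: `(P ∪ B, Q)` is a separation of `G[U]` with cut `P ∩ Q` (`B ∩ Q ⊆ S ⊆ P`) and
`ed G' Q (P ∩ Q) = ed G Q (P ∩ Q)` (clique edges inside `Q` lie in `S ∩ Q ⊆ P ∩ Q`): contradiction to
`h.hm.m2`.  If `S ⊆ Q`: `(P, Q ∪ B)` is a separation of `G[U]` with cut `P ∩ Q`
(`P ∩ B ⊆ S ⊆ Q`), knitted by `knitted_of_clq G Q B S (P ∩ Q)`, `(Q ∪ B) \ P` nonempty, and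
`P.card < A.card` (`Q \ P` nonempty): contradiction to minimality.
So `X` is knitted in `(G', A)` (`h.min`), and in `G[A ∪ B] = G[U]` by `knitted_of_clq`. -/
theorem MC.b1 (h : MC G l x U X) : ∀ A B : Finset V, Sep G U A B → X ⊆ A →
    (A ∩ B).card < X.card → (B \ A).Nonempty → ¬ Knitted G B (A ∩ B) :=
  fun A B hs hX hc hne => KnC2_aux h A.card A B rfl hs hX hc hne

end Pool.MP_a862e4_co.H18
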