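import Pool.Agent.W_a862e4_h18.KnC2
import Pool.Agent.W_a862e4_h18.KnB1
import Pool.Agent.W_a862e4_h18.KnA2

/-!
Theorem K: steps (b2), (c), (d0).
-/

set_option autoImplicit false
set_option linter.unusedSectionVars false

namespace Pool.MP_a862e4_co.H18

open Pool.MP_4929df_co.H91
open scoped Classical

variable {V : Type*} [Fintype V]

variable {G : SimpleGraph V} {l x : ℕ} {U X : Finset V}

/-- (b2).  Order `< |X|`: `b1`.  Order `= |X|`, `S = A ∩ B` knitted in `G[B]`: `exists_min_sep G A X S`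
gives `(A1, A2)`, `T = A1 ∩ A2`, `T.card ≤ X.card`.  If `T.card < X.card`: `Linked G A2 T S`, so
`T` is knitted in `G[A2 ∪ B]` (`knitted_of_linked`, `A2 ∩ B ⊆ A ∩ B = S`), and `(A1, A2 ∪ B)` is a
separation of `G[U]` with cut `T` (`A1 ∩ B ⊆ A ∩ B = S ⊆ A2`), `(A2 ∪ B) \ A1` contains `B \ A`:
contradiction to `b1`.  If `T.card = X.card`: `Linked G A X S`, so `X` is knitted in
`G[A ∪ B] = G[U]` (`knitted_of_linked`), contradiction to `h.nk`. -/
theorem MC.b2 (h : MC G l x U X) {A B : Finset V} (hs : Sep G U A B) (hX : X ⊆ A)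
    (hc : (A ∩ B).card ≤ X.card) (hne : (B \ A).Nonempty) : ¬ Knitted G B (A ∩ B) := by
  intro hk
  obtain ⟨A1, A2, s1, hXA1, hSA2, hcard, hL, hL2⟩ :=
    exists_min_sep G A X (A ∩ B) hX Finset.inter_subset_left
  have hA1 : A1 ⊆ A := s1.left_subset
  have hA2 : A2 ⊆ A := s1.right_subset
  rcases Nat.lt_or_ge (A1 ∩ A2).card X.card with hlt | hge
  · have hkn : Knitted G (A2 ∪ B) (A1 ∩ A2) :=
      knitted_of_linked G A2 B (A1 ∩ A2) (A ∩ B)
        (Finset.inter_subset_inter_right hA2) hL (fun N hN _ => hk.mono subset_rfl hN)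
    have hcut : A1 ∩ (A2 ∪ B) = A1 ∩ A2 := by
      ext w
      simp only [Finset.mem_inter, Finset.mem_union]
      constructor
      · rintro ⟨h1, h2 | h2⟩
        · exact ⟨h1, h2⟩
        · exact ⟨h1, hSA2 (Finset.mem_inter.mpr ⟨hA1 h1, h2⟩)⟩
      · rintro ⟨h1, h2⟩
        exact ⟨h1, Or.inl h2⟩
    have hsep : Sep G U A1 (A2 ∪ B) := by
      refine ⟨?_, ?_⟩
      · rw [← Finset.union_assoc, s1.1, hs.1]
      · intro a ha haN b hb hbN
        rw [Finset.mem_union, not_or] at haN
        rcases Finset.mem_union.mp hb with hb2 | hbB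
        · exact s1.2 a ha haN.1 b hb2 hbN
        · by_cases hb2 : b ∈ A2
          · exact s1.2 a ha haN.1 b hb2 hbN
          · have hbA : b ∉ A := by
              rw [← s1.1, Finset.mem_union, not_or]
              exact ⟨hbN, hb2⟩
            exact hs.2 a (hA1 ha) haN.2 b hbB hbA
    have hne2 : ((A2 ∪ B) \ A1).Nonempty := by
      obtain ⟨b, hb⟩ := hne
      rw [Finset.mem_sdiff] at hb
      exact ⟨b, Finset.mem_sdiff.mpr
        ⟨Finset.mem_union_right _ hb.1, fun hb1 => hb.2 (hA1 hb1)⟩⟩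
    refine h.b1 A1 (A2 ∪ B) hsep hXA1 ?_ hne2 ?_
    · rw [hcut]; exact hlt
    · rw [hcut]; exact hkn
  · have hLX : Linked G A X (A ∩ B) := hL2 (le_antisymm hcard hge)
    have hkn : Knitted G (A ∪ B) X :=
      knitted_of_linked G A B X (A ∩ B) subset_rfl hLX (fun N hN _ => hk.mono subset_rfl hN)
    rw [hs.1] at hkn
    exact h.nk hkn

/-- (c).  If `2 l |B \ A| < ed G B (A ∩ B)` then `Massed G l B (A ∩ B)` (`massed_side`), so knitted by
`h.min` (`B ⊂ U`), and `B \ A` is nonempty (otherwise `A ∩ B = B` and `ed G B B = 0`): contradiction to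
`b2`. -/
theorem MC.c (h : MC G l x U X) {A B : Finset V} (hs : Sep G U A B) (hX : X ⊆ A)
    (hc : (A ∩ B).card ≤ X.card) (hBU : B ≠ U) : ed G B (A ∩ B) ≤ 2 * l * (B \ A).card := by
  by_contra hcon
  have hbig : 2 * l * (B \ A).card < ed G B (A ∩ B) := Nat.lt_of_not_le hcon
  have hm : Massed G l B (A ∩ B) := massed_side h.hm.m2 hs hX hc hbig
  have hBU' : B ⊂ U := Finset.ssubset_iff_subset_ne.mpr ⟨hs.right_subset, hBU⟩
  have hkn : Knitted G B (A ∩ B) :=
    h.min G B (A ∩ B) Finset.inter_subset_right (hc.trans h.cX) hm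
      (Or.inl (Finset.card_lt_card hBU'))
  refine h.b2 hs hX hc ?_ hkn
  by_contra hne
  rw [Finset.not_nonempty_iff_eq_empty, Finset.sdiff_eq_empty_iff_subset] at hne
  have hAB : A ∩ B = B := Finset.inter_eq_right.mpr hne
  have h0 : ed G B (A ∩ B) = 0 := by
    rw [hAB]
    unfold ed
    rw [Finset.card_eq_zero]
    refine Finset.filter_eq_empty_iff.mpr ?_
    intro p hp hq
    rw [Finset.mem_product] at hp
    exact hq.2 hp
  rw [h0] at hbig
  exact Nat.not_lt_zero _ hbig

/-- (d0) no isolated vertex outside `X`.  Otherwise `U' = U.erase u` is massed: `ed G U' X = ed G U X`,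
`|U' \ X| + 1 = |U \ X|`; a separation `(A, B)` of `G[U']` gives the separation `(insert u A, B)` of
`G[U]` with the same cut and the same `B \ A`.  So `X` is knitted in `U'` and in `U`. -/
theorem MC.d0 (h : MC G l x U X) {u : V} (hu : u ∈ U) (huX : u ∉ X) : (nb G U u).Nonempty := by
  by_contra hne
  rw [Finset.not_nonempty_iff_eq_empty] at hne
  have hiso : ∀ w ∈ U, ¬ G.Adj u w := by
    intro w hw hadj
    have : w ∈ nb G U u := mem_nbf.mpr ⟨hw, hadj⟩
    rw [hne] at this
    exact Finset.notMem_empty w this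
  have hed : ed G (U.erase u) X = ed G U X := by
    unfold ed
    congr 1
    ext p
    rw [mem_ed, mem_ed]
    constructor
    · rintro ⟨⟨h1, h2⟩, h3⟩
      exact ⟨⟨Finset.mem_of_mem_erase h1, Finset.mem_of_mem_erase h2⟩, h3⟩
    · rintro ⟨⟨h1, h2⟩, h3, h4⟩
      refine ⟨⟨Finset.mem_erase.mpr ⟨?_, h1⟩, Finset.mem_erase.mpr ⟨?_, h2⟩⟩, h3, h4⟩
      · intro he
        rw [he] at h3
        exact hiso _ h2 h3
      · intro he
        rw [he] at h3
        exact hiso _ h1 h3.symm
  have hm : Massed G l (U.erase u) X := by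
    refine ⟨?_, ?_⟩
    · rw [hed]
      refine lt_of_le_of_lt ?_ h.hm.m1
      exact Nat.mul_le_mul_left _
        (Finset.card_le_card (Finset.sdiff_subset_sdiff (Finset.erase_subset u U) subset_rfl))
    · intro A B hAB hXA hlt
      have huB : u ∉ B := fun hb => Finset.notMem_erase u U (hAB.right_subset hb)
      have hcut : insert u A ∩ B = A ∩ B := by
        ext w
        simp only [Finset.mem_inter, Finset.mem_insert]
        constructor
        · rintro ⟨h1 | h1, h2⟩
          · exact absurd (h1 ▸ h2) huB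
          · exact ⟨h1, h2⟩
        · rintro ⟨h1, h2⟩
          exact ⟨Or.inr h1, h2⟩
      have hdif : B \ insert u A = B \ A := by
        ext w
        simp only [Finset.mem_sdiff, Finset.mem_insert, not_or]
        constructor
        · rintro ⟨h1, -, h3⟩
          exact ⟨h1, h3⟩
        · rintro ⟨h1, h2⟩
          exact ⟨h1, fun he => huB (he ▸ h1), h2⟩
      have hsep : Sep G U (insert u A) B := by
        refine ⟨?_, ?_⟩
        · rw [Finset.insert_union, hAB.1, Finset.insert_erase hu]
        · intro a ha haB b hb hbA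
          rw [Finset.mem_insert, not_or] at hbA
          rcases Finset.mem_insert.mp ha with ha1 | ha1
          · rw [ha1]
            exact hiso b (Finset.mem_of_mem_erase (hAB.right_subset hb))
          · exact hAB.2 a ha1 haB b hb hbA.2
      have := h.hm.m2 (insert u A) B hsep (hXA.trans (Finset.subset_insert u A))
        (by rw [hcut]; exact hlt)
      rw [hcut, hdif] at this
      exact this
  have hXU' : X ⊆ U.erase u := fun w hw =>
    Finset.mem_erase.mpr ⟨fun he => huX (he ▸ hw), h.XU hw⟩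
  have hkn : Knitted G (U.erase u) X :=
    h.min G (U.erase u) X hXU' h.cX hm (Or.inl (Finset.card_erase_lt_of_mem hu))
  exact h.nk (hkn.mono (Finset.erase_subset u U) subset_rfl)

end Pool.MP_a862e4_co.H18
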