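import Pool.Agent.W_a862e4_h18.Defs

/-!
Theorem K: counting for contractions.
-/

set_option autoImplicit false
set_option linter.unusedSectionVars false

namespace Pool.MP_a862e4_co.H18

open Pool.MP_4929df_co.H91
open scoped Classical

variable {V : Type*} [Fintype V]

variable {G : SimpleGraph V} {l x : ℕ} {U X : Finset V}

/-- Count of the ordered pairs lost in the contraction.  Pairs of `ed G U X` without `v` are pairs of
`ed (ctr G u v) (U.erase v) X`.  The pairs with `v` are `(v, w)`, `(w, v)`, `w ∈ nb G U v`, two for each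
`w`.  For `w ∈ nb G U v`, `w ≠ u`, `w ∉ nb G U u`, not (`u ∈ X` and `w ∈ X`), the pairs `(u, w)`, `(w, u)` are
counted in `ed (ctr G u v) (U.erase v) X` and not in `ed G U X`.  The other `w ∈ nb G U v` are: `u`,
the common neighbours, and (only if `u ∈ X`) elements of `X \ {u}`: at most
`1 + |common| + (|X| - 1)` (as `1 ≤ |X|`, also if `u ∉ X`). -/
theorem ed_ctr {u v : V} (hX : 1 ≤ X.card) (hXU : X ⊆ U) (hu : u ∈ U) (hv : v ∈ U) (hvX : v ∉ X)
    (huv : G.Adj u v) :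
    ed G U X ≤ ed (ctr G u v) (U.erase v) X + 2 * ((nb G U u ∩ nb G U v).card + X.card) := by
  set E := (U ×ˢ U).filter (fun p => G.Adj p.1 p.2 ∧ ¬ (p.1 ∈ X ∧ p.2 ∈ X)) with hE
  set E0 := E.filter (fun p => p.1 ≠ v ∧ p.2 ≠ v) with hE0
  set W := (nb G U v).filter (fun w => w ≠ u ∧ w ∉ nb G U u ∧ ¬ (u ∈ X ∧ w ∈ X)) with hW
  set A := W.image (fun w => (u, w)) with hA
  set B := W.image (fun w => (w, u)) with hB
  have hcA : A.card = W.card :=
    Finset.card_image_of_injective _ (fun a b h => by simpa using h)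
  have hcB : B.card = W.card :=
    Finset.card_image_of_injective _ (fun a b h => by simpa using h)
  have hWm : ∀ w ∈ W, w ∈ U ∧ G.Adj v w ∧ w ≠ u ∧ ¬ G.Adj u w ∧ ¬ (u ∈ X ∧ w ∈ X) := by
    intro w hw
    rw [hW, Finset.mem_filter, mem_nbf, mem_nbf] at hw
    exact ⟨hw.1.1, hw.1.2, hw.2.1, fun h => hw.2.2.1 ⟨hw.1.1, h⟩, hw.2.2.2⟩
  -- the three families are disjoint
  have hd1 : Disjoint E0 A := by
    rw [Finset.disjoint_left]
    intro p hp hpA
    rw [hA, Finset.mem_image] at hpA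
    obtain ⟨w, hw, rfl⟩ := hpA
    rw [hE0, Finset.mem_filter, hE, mem_ed] at hp
    exact (hWm w hw).2.2.2.1 hp.1.2.1
  have hd2 : Disjoint (E0 ∪ A) B := by
    rw [Finset.disjoint_left]
    intro p hp hpB
    rw [hB, Finset.mem_image] at hpB
    obtain ⟨w, hw, rfl⟩ := hpB
    rw [Finset.mem_union] at hp
    rcases hp with hp | hp
    · rw [hE0, Finset.mem_filter, hE, mem_ed] at hp
      exact (hWm w hw).2.2.2.1 hp.1.2.1.symm
    · rw [hA, Finset.mem_image] at hp
      obtain ⟨w', hw', h⟩ := hp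
      have h1 : w' = u := (Prod.ext_iff.1 h).2
      exact (hWm w' hw').2.2.1 h1
  have hsub : (E0 ∪ A) ∪ B ⊆ ((U.erase v) ×ˢ (U.erase v)).filter
      (fun p => (ctr G u v).Adj p.1 p.2 ∧ ¬ (p.1 ∈ X ∧ p.2 ∈ X)) := by
    intro p hp
    rw [mem_ed]
    rw [Finset.mem_union, Finset.mem_union] at hp
    rcases hp with (hp | hp) | hp
    · rw [hE0, Finset.mem_filter, hE, mem_ed] at hp
      exact ⟨⟨Finset.mem_erase.2 ⟨hp.2.1, hp.1.1.1⟩, Finset.mem_erase.2 ⟨hp.2.2, hp.1.1.2⟩⟩,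
        ⟨hp.1.2.1.ne, Or.inl hp.1.2.1⟩, hp.1.2.2⟩
    · rw [hA, Finset.mem_image] at hp
      obtain ⟨w, hw, rfl⟩ := hp
      obtain ⟨h1, h2, h3, h4, h5⟩ := hWm w hw
      exact ⟨⟨Finset.mem_erase.2 ⟨huv.ne, hu⟩, Finset.mem_erase.2 ⟨h2.ne', h1⟩⟩,
        ⟨fun h => h3 h.symm, Or.inr (Or.inl ⟨rfl, h2⟩)⟩, h5⟩
    · rw [hB, Finset.mem_image] at hp
      obtain ⟨w, hw, rfl⟩ := hp
      obtain ⟨h1, h2, h3, h4, h5⟩ := hWm w hw
      exact ⟨⟨Finset.mem_erase.2 ⟨h2.ne', h1⟩, Finset.mem_erase.2 ⟨huv.ne, hu⟩⟩,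
        ⟨h3, Or.inr (Or.inr ⟨rfl, h2⟩)⟩, fun h => h5 ⟨h.2, h.1⟩⟩
  have h1 : E0.card + 2 * W.card ≤ ed (ctr G u v) (U.erase v) X := by
    have := Finset.card_le_card hsub
    rw [Finset.card_union_of_disjoint hd2, Finset.card_union_of_disjoint hd1, hcA, hcB] at this
    unfold ed
    omega
  -- pairs containing `v`
  have h2 : E.card ≤ E0.card + 2 * (nb G U v).card := by
    have hs : E ⊆ (E0 ∪ (nb G U v).image (fun w => (v, w))) ∪
        (nb G U v).image (fun w => (w, v)) := by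
      intro p hp
      have hp' := hp
      rw [hE, mem_ed] at hp'
      rw [Finset.mem_union, Finset.mem_union]
      by_cases hp1 : p.1 = v
      · refine Or.inl (Or.inr (Finset.mem_image.2 ⟨p.2, ?_, ?_⟩))
        · rw [mem_nbf]
          exact ⟨hp'.1.2, hp1 ▸ hp'.2.1⟩
        · rw [← hp1]
      · by_cases hp2 : p.2 = v
        · refine Or.inr (Finset.mem_image.2 ⟨p.1, ?_, ?_⟩)
          · rw [mem_nbf]
            exact ⟨hp'.1.1, hp2 ▸ hp'.2.1.symm⟩
          · rw [← hp2]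
        · exact Or.inl (Or.inl (Finset.mem_filter.2 ⟨hp, hp1, hp2⟩))
    have h3 := Finset.card_le_card hs
    have h4 := Finset.card_union_le (E0 ∪ (nb G U v).image (fun w => (v, w)))
      ((nb G U v).image (fun w => (w, v)))
    have h5 := Finset.card_union_le E0 ((nb G U v).image (fun w => (v, w)))
    have h6 : ((nb G U v).image (fun w => (v, w))).card ≤ (nb G U v).card :=
      Finset.card_image_le
    have h7 : ((nb G U v).image (fun w => (w, v))).card ≤ (nb G U v).card :=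
      Finset.card_image_le
    omega
  -- the neighbours of `v`
  have h3 : (nb G U v).card ≤ W.card + ((nb G U u ∩ nb G U v).card + X.card) := by
    obtain ⟨Z, hZc, huZ, hZX⟩ : ∃ Z : Finset V, Z.card ≤ X.card ∧ u ∈ Z ∧ (u ∈ X → X ⊆ Z) := by
      by_cases hux : u ∈ X
      · exact ⟨X, le_rfl, hux, fun _ => subset_rfl⟩
      · exact ⟨{u}, by rw [Finset.card_singleton]; exact hX, Finset.mem_singleton_self u,
          fun h => absurd h hux⟩
    have hs : nb G U v ⊆ W ∪ ((nb G U u ∩ nb G U v) ∪ Z) := by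
      intro w hw
      rw [Finset.mem_union, Finset.mem_union]
      by_cases h1 : w = u
      · exact Or.inr (Or.inr (h1 ▸ huZ))
      · by_cases h2 : w ∈ nb G U u
        · exact Or.inr (Or.inl (Finset.mem_inter.2 ⟨h2, hw⟩))
        · by_cases h3 : u ∈ X ∧ w ∈ X
          · exact Or.inr (Or.inr (hZX h3.1 h3.2))
          · exact Or.inl (Finset.mem_filter.2 ⟨hw, h1, h2, h3⟩)
    have h4 := Finset.card_le_card hs
    have h5 := Finset.card_union_le W ((nb G U u ∩ nb G U v) ∪ Z)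
    have h6 := Finset.card_union_le (nb G U u ∩ nb G U v) Z
    omega
  have h4 : ed G U X = E.card := rfl
  omega

/-- Away from `u` nothing changes: for `u ∉ B` (and `v ∉ B`) the graphs `G` and `ctr G u v` agree on
`B`. -/
theorem ed_ctr_of_notMem {u v : V} {B C : Finset V} (hu : u ∉ B) :
    ed (ctr G u v) B C = ed G B C := by
  unfold ed
  congr 1
  ext p
  rw [mem_ed, mem_ed]
  constructor
  · rintro ⟨⟨h1, h2⟩, ⟨-, h3⟩, h4⟩
    refine ⟨⟨h1, h2⟩, ?_, h4⟩
    rcases h3 with h3 | h3 | h3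
    · exact h3
    · exact absurd (h3.1 ▸ h1) hu
    · exact absurd (h3.1 ▸ h2) hu
  · rintro ⟨⟨h1, h2⟩, h3, h4⟩
    exact ⟨⟨h1, h2⟩, ⟨h3.ne, Or.inl h3⟩, h4⟩

/-- If `u ∈ C ⊆ B`, `v ∉ B`: map a pair of `ed (ctr G u v) B C` that is an edge of `G` to itself, a pair
`(u, w)` that is not an edge of `G` (so `G.Adj v w`) to `(v, w)`, and `(w, u)` to `(w, v)`; `w ∉ C` as
`u ∈ C`, so the image is counted; the map is injective. -/
theorem ed_ctr_le {u v : V} {B C : Finset V} (huC : u ∈ C) (hCB : C ⊆ B) (hv : v ∉ B) :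
    ed (ctr G u v) B C ≤ ed G (insert v B) (insert v C) := by
  unfold ed
  refine Finset.card_le_card_of_injOn
    (fun p => if G.Adj p.1 p.2 then p else if p.1 = u then (v, p.2) else (p.1, v)) ?_ ?_
  · intro p hp
    rw [Finset.mem_coe, mem_ed] at hp
    obtain ⟨⟨h1, h2⟩, ⟨hne, h3⟩, h4⟩ := hp
    have n1 : p.1 ≠ v := fun h => hv (h ▸ h1)
    have n2 : p.2 ≠ v := fun h => hv (h ▸ h2)
    rw [Finset.mem_coe, mem_ed]
    dsimp only
    split_ifs with ha hb
    · refine ⟨⟨Finset.mem_insert_of_mem h1, Finset.mem_insert_of_mem h2⟩, ha, ?_⟩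
      rintro ⟨h5, h6⟩
      exact h4 ⟨Finset.mem_of_mem_insert_of_ne h5 n1, Finset.mem_of_mem_insert_of_ne h6 n2⟩
    · have hvw : G.Adj v p.2 := by
        rcases h3 with h3 | h3 | h3
        · exact absurd h3 ha
        · exact h3.2
        · exact absurd (hb.trans h3.1.symm) hne
      refine ⟨⟨Finset.mem_insert_self _ _, Finset.mem_insert_of_mem h2⟩, hvw, ?_⟩
      rintro ⟨-, h6⟩
      exact h4 ⟨hb ▸ huC, Finset.mem_of_mem_insert_of_ne h6 n2⟩
    · have hq : p.2 = u ∧ G.Adj v p.1 := by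
        rcases h3 with h3 | h3 | h3
        · exact absurd h3 ha
        · exact absurd h3.1 hb
        · exact h3
      refine ⟨⟨Finset.mem_insert_of_mem h1, Finset.mem_insert_self _ _⟩, hq.2.symm, ?_⟩
      rintro ⟨h5, -⟩
      exact h4 ⟨Finset.mem_of_mem_insert_of_ne h5 n1, hq.1 ▸ huC⟩
  · intro p hp q hq h
    rw [Finset.mem_coe, mem_ed] at hp hq
    obtain ⟨⟨h1, h2⟩, ⟨hne, h3⟩, -⟩ := hp
    obtain ⟨⟨k1, k2⟩, ⟨kne, k3⟩, -⟩ := hq
    have n1 : p.1 ≠ v := fun h => hv (h ▸ h1)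
    have n2 : p.2 ≠ v := fun h => hv (h ▸ h2)
    have m1 : q.1 ≠ v := fun h => hv (h ▸ k1)
    have m2 : q.2 ≠ v := fun h => hv (h ▸ k2)
    have e3 : ¬ G.Adj p.1 p.2 → p.1 ≠ u → p.2 = u := by
      intro ha hb
      rcases h3 with h3 | h3 | h3
      · exact absurd h3 ha
      · exact absurd h3.1 hb
      · exact h3.1
    have f3 : ¬ G.Adj q.1 q.2 → q.1 ≠ u → q.2 = u := by
      intro ha hb
      rcases k3 with k3 | k3 | k3
      · exact absurd k3 ha
      · exact absurd k3.1 hb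
      · exact k3.1
    dsimp only at h
    split_ifs at h with ha hb hc hd he hf hg hi
    · exact h
    · exact absurd (Prod.ext_iff.1 h).1 n1
    · exact absurd (Prod.ext_iff.1 h).2 n2
    · exact absurd (Prod.ext_iff.1 h).1.symm m1
    · exact Prod.ext (hd.trans (by assumption : q.1 = u).symm) (Prod.ext_iff.1 h).2
    · exact absurd (Prod.ext_iff.1 h).2 n2
    · exact absurd (Prod.ext_iff.1 h).2.symm m2
    · exact absurd (Prod.ext_iff.1 h).1 n1
    · exact Prod.ext (Prod.ext_iff.1 h).1 ((e3 ha hd).trans (f3 (by assumption) (by assumption)).symm)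

end Pool.MP_a862e4_co.H18
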