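import Pool.Agent.W_a862e4_h18.KnD1
import Pool.Agent.W_a862e4_h18.KnC3

/-!
Theorem K: contraction, step (d).
-/

set_option autoImplicit false
set_option linter.unusedSectionVars false

namespace Pool.MP_a862e4_co.H18

open Pool.MP_4929df_co.H91
open scoped Classical

variable {V : Type*} [Fintype V]

variable {G : SimpleGraph V} {l x : ℕ} {U X : Finset V}

/-- Lift of a separation `(P, Q)` of the contracted graph, `u ∈ P`, `u ∉ Q`: add `v` to `P`. -/
theorem sep_ctr_left {u v : V} {P Q : Finset V} (hv : v ∈ U) (hs : Sep (ctr G u v) (U.erase v) P Q)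
    (huP : u ∈ P) (huQ : u ∉ Q) : Sep G U (insert v P) Q := by
  refine ⟨?_, ?_⟩
  · rw [Finset.insert_union, hs.1, Finset.insert_erase hv]
  · intro a ha haQ b hb hbP hab
    rw [Finset.mem_insert, not_or] at hbP
    rcases Finset.mem_insert.1 ha with rfl | ha
    · exact hs.2 u huP huQ b hb hbP.2 ⟨fun h => huQ (h ▸ hb), Or.inr (Or.inl ⟨rfl, hab⟩)⟩
    · exact hs.2 a ha haQ b hb hbP.2 ⟨hab.ne, Or.inl hab⟩

/-- Lift of a separation `(P, Q)` of the contracted graph, `u ∈ P ∩ Q`: add `v` to both sides. -/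
theorem sep_ctr_both {u v : V} {P Q : Finset V} (hv : v ∈ U) (hs : Sep (ctr G u v) (U.erase v) P Q)
    (huP : u ∈ P) (huQ : u ∈ Q) : Sep G U (insert v P) (insert v Q) := by
  have _ := huP
  have _ := huQ
  refine ⟨?_, ?_⟩
  · rw [Finset.insert_union, Finset.union_insert, Finset.insert_idem, hs.1,
      Finset.insert_erase hv]
  · intro a ha haQ b hb hbP hab
    rw [Finset.mem_insert, not_or] at hbP haQ
    have ha' := (Finset.mem_insert.1 ha).resolve_left haQ.1
    have hb' := (Finset.mem_insert.1 hb).resolve_left hbP.1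
    exact hs.2 a ha' haQ.2 b hb' hbP.2 ⟨hab.ne, Or.inl hab⟩

/-- (d), second condition.  Otherwise `exists_viol` for `ctr G u v` on `U.erase v` gives `(P, Q)`
(`v ∉ P`, `v ∉ Q`).  Case `u ∈ P \ Q`: `sep_ctr_left`; `(insert v P) ∩ Q = P ∩ Q`,
`Q \ insert v P = Q \ P`, `ed_ctr_of_notMem`; contradiction to `h.hm.m2`.  Case `u ∈ Q \ P`:
`sep_ctr_left` for `(Q, P)` and `Sep.symm`: `(P, insert v Q)` is a separation of `G[U]` of order
`< |X|`; `Knitted (ctr G u v) Q (P ∩ Q)` by `h.min`, so `Knitted G (insert v Q) (P ∩ Q)` by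
`knitted_of_ctr`: contradiction to `h.b1`.  Case `u ∈ P ∩ Q`: `sep_ctr_both`, order
`|P ∩ Q| + 1 ≤ |X|`, `insert v Q ≠ U` (otherwise `X ⊆ P ⊆ Q`, so `X ⊆ P ∩ Q`): `h.c` gives
`ed G (insert v Q) (insert v (P ∩ Q)) ≤ 2 l |Q \ P|`, and `ed_ctr_le` contradicts the violation. -/
theorem MC.m2_ctr (h : MC G l x U X) {u v : V} (hu : u ∈ U) (hv : v ∈ U) (hvX : v ∉ X)
    (huv : G.Adj u v) : M2 (ctr G u v) l (U.erase v) X := by
  by_contra hcon
  obtain ⟨P, Q, hs, hXP, hc, hbig, hne, hmass⟩ := exists_viol hcon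
  have hvP : v ∉ P := fun h1 => Finset.notMem_erase v U (hs.left_subset h1)
  have hvQ : v ∉ Q := fun h1 => Finset.notMem_erase v U (hs.right_subset h1)
  have huPQ : u ∈ P ∪ Q := by
    rw [hs.1]
    exact Finset.mem_erase.2 ⟨huv.ne, hu⟩
  have hQU : Q.card < U.card :=
    lt_of_le_of_lt (Finset.card_le_card hs.right_subset) (Finset.card_erase_lt_of_mem hv)
  by_cases huP : u ∈ P
  · by_cases huQ : u ∈ Q
    · have hs3 := sep_ctr_both hv hs huP huQ
      have e1 : insert v P ∩ insert v Q = insert v (P ∩ Q) := (Finset.insert_inter_distrib P Q v).symm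
      have e2 : insert v Q \ insert v P = Q \ P := by
        ext a
        simp only [Finset.mem_sdiff, Finset.mem_insert, not_or]
        constructor
        · rintro ⟨h1 | h1, h2, h3⟩
          · exact absurd h1 h2
          · exact ⟨h1, h3⟩
        · rintro ⟨h1, h2⟩
          exact ⟨Or.inr h1, fun h3 => hvQ (h3 ▸ h1), h2⟩
      have hvPQ : v ∉ P ∩ Q := fun h1 => hvP (Finset.mem_inter.1 h1).1
      have hne2 : insert v Q ≠ U := by
        intro h1
        have h2 : P ⊆ Q := by
          intro a ha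
          have h3 := Finset.mem_erase.1 (hs.left_subset ha)
          rw [← h1, Finset.mem_insert] at h3
          exact h3.2.resolve_left h3.1
        have h4 : X ⊆ P ∩ Q := fun a ha => Finset.mem_inter.2 ⟨hXP ha, h2 (hXP ha)⟩
        have h5 := Finset.card_le_card h4
        omega
      have h6 := h.c hs3 (hXP.trans (Finset.subset_insert v P))
        (by rw [e1, Finset.card_insert_of_notMem hvPQ]; omega) hne2
      rw [e1, e2] at h6
      have h7 := ed_ctr_le (G := G) (u := u) (v := v) (B := Q) (C := P ∩ Q)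
        (Finset.mem_inter.2 ⟨huP, huQ⟩) Finset.inter_subset_right hvQ
      omega
    · have hs1 := sep_ctr_left hv hs huP huQ
      have e1 : insert v P ∩ Q = P ∩ Q := Finset.insert_inter_of_notMem hvQ
      have e2 : Q \ insert v P = Q \ P := by
        ext a
        simp only [Finset.mem_sdiff, Finset.mem_insert, not_or]
        constructor
        · rintro ⟨h1, h2, h3⟩
          exact ⟨h1, h3⟩
        · rintro ⟨h1, h2⟩
          exact ⟨h1, fun h3 => hvQ (h3 ▸ h1), h2⟩
      have h6 := h.hm.m2 (insert v P) Q hs1 (hXP.trans (Finset.subset_insert v P))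
        (by rw [e1]; exact hc)
      rw [e1, e2] at h6
      rw [ed_ctr_of_notMem huQ] at hbig
      omega
  · have huQ : u ∈ Q := (Finset.mem_union.1 huPQ).resolve_left huP
    have hs2 : Sep G U P (insert v Q) := (sep_ctr_left hv hs.symm huQ huP).symm
    have e1 : P ∩ insert v Q = P ∩ Q := Finset.inter_insert_of_notMem hvP
    have hK : Knitted (ctr G u v) Q (P ∩ Q) :=
      h.min (ctr G u v) Q (P ∩ Q) Finset.inter_subset_right (by have := h.cX; omega) hmass
        (Or.inl hQU)
    have hK2 : Knitted G (insert v Q) (P ∩ Q) := knitted_of_ctr G u v huv Q (P ∩ Q) hvQ hK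
    refine h.b1 P (insert v Q) hs2 hXP (by rw [e1]; exact hc) ?_ (by rw [e1]; exact hK2)
    obtain ⟨z, hz⟩ := hne
    rw [Finset.mem_sdiff] at hz
    exact ⟨z, Finset.mem_sdiff.2 ⟨Finset.mem_insert_of_mem hz.1, hz.2⟩⟩

/-- (d).  Otherwise `ctr G u v` on `U.erase v` is massed: `m1` from `ed_ctr`, `h.hm.m1` and
`|U.erase v \ X| + 1 = |U \ X|`; `m2_ctr`.  So `X` is knitted in it (`h.min`) and in `G[U]`
(`knitted_of_ctr`, `insert v (U.erase v) = U`). -/
theorem MC.d (h : MC G l x U X) {u v : V} (hu : u ∈ U) (hv : v ∈ U) (hvX : v ∉ X)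
    (huv : G.Adj u v) : l < (nb G U u ∩ nb G U v).card + X.card := by
  by_contra hcon
  push Not at hcon
  have h1 := ed_ctr h.pos h.XU hu hv hvX huv
  have h2 := h.hm.m1
  have e1 : (U.erase v) \ X = (U \ X).erase v := by
    ext a
    simp only [Finset.mem_sdiff, Finset.mem_erase]
    tauto
  have hvUX : v ∈ U \ X := Finset.mem_sdiff.2 ⟨hv, hvX⟩
  have e2 : ((U.erase v) \ X).card + 1 = (U \ X).card := by
    rw [e1]
    exact Finset.card_erase_add_one hvUX
  have hm : Massed (ctr G u v) l (U.erase v) X := by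
    refine ⟨?_, h.m2_ctr hu hv hvX huv⟩
    rw [← e2] at h2
    have e3 : 2 * l * (((U.erase v) \ X).card + 1) = 2 * l * ((U.erase v) \ X).card + 2 * l := by
      ring
    omega
  have hXE : X ⊆ U.erase v := fun a ha =>
    Finset.mem_erase.2 ⟨fun h3 => hvX (h3 ▸ ha), h.XU ha⟩
  have hK := h.min (ctr G u v) (U.erase v) X hXE h.cX hm
    (Or.inl (Finset.card_erase_lt_of_mem hv))
  have hK2 := knitted_of_ctr G u v huv (U.erase v) X (Finset.notMem_erase v U) hK
  rw [Finset.insert_erase hv] at hK2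
  exact h.nk hK2

end Pool.MP_a862e4_co.H18
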