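import Pool.Agent.W_a862e4_h18.KnC3

/-!
Theorem K: deletion, step (e), a vertex of low degree.
-/

set_option autoImplicit false
set_option linter.unusedSectionVars false

namespace Pool.MP_a862e4_co.H18

open Pool.MP_4929df_co.H91
open scoped Classical

variable {V : Type*} [Fintype V]

variable {G : SimpleGraph V} {l x : ℕ} {U X : Finset V}

/-- exactly the pairs `(a, b)`, `(b, a)` are lost -/
theorem ed_dele {a b : V} (hab : G.Adj a b) (ha : a ∈ U) (hb : b ∈ U) (haX : a ∉ X) :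
    ed G U X = ed (dele G a b) U X + 2 := by
  have hne : a ≠ b := hab.ne
  have e : (U ×ˢ U).filter (fun p => G.Adj p.1 p.2 ∧ ¬ (p.1 ∈ X ∧ p.2 ∈ X)) =
      insert (a, b) (insert (b, a)
        ((U ×ˢ U).filter (fun p => (dele G a b).Adj p.1 p.2 ∧ ¬ (p.1 ∈ X ∧ p.2 ∈ X)))) := by
    ext p
    rw [Finset.mem_insert, Finset.mem_insert, mem_ed, mem_ed]
    constructor
    · rintro ⟨h1, h2, h3⟩
      by_cases c1 : p.1 = a ∧ p.2 = b
      · left
        exact Prod.ext c1.1 c1.2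
      · by_cases c2 : p.1 = b ∧ p.2 = a
        · right; left
          exact Prod.ext c2.1 c2.2
        · right; right
          exact ⟨h1, ⟨h2, c1, c2⟩, h3⟩
    · rintro (h | h | h)
      · subst h
        exact ⟨⟨ha, hb⟩, hab, fun h => haX h.1⟩
      · subst h
        exact ⟨⟨hb, ha⟩, hab.symm, fun h => haX h.2⟩
      · exact ⟨h.1, h.2.1.1, h.2.2⟩
  unfold ed
  rw [e, Finset.card_insert_of_notMem, Finset.card_insert_of_notMem]
  · rw [mem_ed]
    rintro ⟨_, h2, _⟩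
    exact h2.2.2 ⟨rfl, rfl⟩
  · rw [Finset.mem_insert, mem_ed]
    rintro (h | ⟨_, h2, _⟩)
    · exact hne (Prod.ext_iff.1 h).1
    · exact h2.2.1 ⟨rfl, rfl⟩

theorem KnE1_side (h : MC G l x U X) {a b : V} (haX : a ∉ X) {A B : Finset V}
    (hs : Sep (dele G a b) U A B) (hX : X ⊆ A) (hc : (A ∩ B).card < X.card) (ha : a ∈ A)
    (haB : a ∉ B) : ed (dele G a b) B (A ∩ B) ≤ 2 * l * (B \ A).card := by
  have e1 : A ∩ insert a B = insert a (A ∩ B) := by
    ext y
    simp only [Finset.mem_inter, Finset.mem_insert]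
    constructor
    · rintro ⟨h1, h2 | h2⟩
      · exact Or.inl h2
      · exact Or.inr ⟨h1, h2⟩
    · rintro (h1 | h1)
      · exact ⟨h1 ▸ ha, Or.inl h1⟩
      · exact ⟨h1.1, Or.inr h1.2⟩
  have e2 : insert a B \ A = B \ A := Finset.insert_sdiff_of_mem _ ha
  have hs' : Sep G U A (insert a B) := by
    refine ⟨?_, ?_⟩
    · rw [Finset.union_insert, hs.1, Finset.insert_eq_of_mem (hs.left_subset ha)]
    · intro a1 h1 h2 b1 h3 h4 h5
      rw [Finset.mem_insert, not_or] at h2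
      have h6 : b1 ≠ a := fun hh => h4 (hh ▸ ha)
      have h7 : b1 ∈ B := (Finset.mem_insert.1 h3).resolve_left h6
      exact hs.2 a1 h1 h2.2 b1 h7 h4 ⟨h5, fun hh => h2.1 hh.1, fun hh => h6 hh.2⟩
  have hcc : (A ∩ insert a B).card ≤ X.card := by
    rw [e1]
    have := Finset.card_insert_le a (A ∩ B)
    omega
  have hne : insert a B ≠ U := by
    intro hU
    have h1 : X ⊆ A ∩ B := by
      intro y hy
      have h2 := h.XU hy
      rw [← hU, Finset.mem_insert] at h2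
      rcases h2 with h2 | h2
      · exact absurd (h2 ▸ hy) haX
      · exact Finset.mem_inter.2 ⟨hX hy, h2⟩
    have := Finset.card_le_card h1
    omega
  have h1 := h.c hs' hX hcc hne
  rw [e2] at h1
  refine le_trans (Finset.card_le_card ?_) h1
  intro p hp
  rw [mem_ed] at hp ⊢
  refine ⟨⟨Finset.mem_insert_of_mem hp.1.1, Finset.mem_insert_of_mem hp.1.2⟩, hp.2.1.1, ?_⟩
  rintro ⟨h2, h3⟩
  exact hp.2.2 ⟨Finset.mem_inter.2 ⟨(Finset.mem_inter.1 h2).1, hp.1.1⟩,
    Finset.mem_inter.2 ⟨(Finset.mem_inter.1 h3).1, hp.1.2⟩⟩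

theorem KnE1_dele_comm (G : SimpleGraph V) (a b : V) : dele G a b = dele G b a := by
  ext s t
  show (G.Adj s t ∧ ¬ (s = a ∧ t = b) ∧ ¬ (s = b ∧ t = a)) ↔
    (G.Adj s t ∧ ¬ (s = b ∧ t = a) ∧ ¬ (s = a ∧ t = b))
  tauto

/-- Deleting an edge with both ends outside `X` keeps `M2`.  Let `(A, B)` be a separation of
`dele G a b` on `U`, `X ⊆ A`, `|A ∩ B| < |X|`.  If it is a separation of `G[U]`: `h.hm.m2` and
`ed (dele G a b) B _ ≤ ed G B _`.  Otherwise `a ∈ A \ B`, `b ∈ B \ A` or vice versa; say the first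
(the second in the same way, or by `dele G a b = dele G b a`).  `(A, insert a B)` is a separation of
`G[U]`, cut `insert a (A ∩ B)`, of order `≤ |X|`, `insert a B \ A = B \ A`; `insert a B ≠ U`: otherwise
`A \ B ⊆ {a}`, so `X ⊆ A ∩ B` (`a ∉ X`), contradiction to the order.  `h.c` gives
`ed G (insert a B) (insert a (A ∩ B)) ≤ 2 l |B \ A|`, and
`ed (dele G a b) B (A ∩ B) ≤ ed G (insert a B) (insert a (A ∩ B))` as `a ∉ B`. -/
theorem MC.m2_dele (h : MC G l x U X) {a b : V} (ha : a ∈ U) (hb : b ∈ U) (haX : a ∉ X)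
    (hbX : b ∉ X) (hab : G.Adj a b) : M2 (dele G a b) l U X := by
  intro A B hs hX hc
  by_cases hG : Sep G U A B
  · refine le_trans (Finset.card_le_card ?_) (h.hm.m2 A B hG hX hc)
    intro p hp
    rw [mem_ed] at hp ⊢
    exact ⟨hp.1, hp.2.1.1, hp.2.2⟩
  · obtain ⟨a1, h1, h2, b1, h3, h4, h5⟩ : ∃ a1 ∈ A, a1 ∉ B ∧ ∃ b1 ∈ B, b1 ∉ A ∧ G.Adj a1 b1 := by
      by_contra hcon
      push Not at hcon
      exact hG ⟨hs.1, fun a1 h1 h2 b1 h3 h4 h5 => hcon a1 h1 h2 b1 h3 h4 h5⟩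
    have h6 := hs.2 a1 h1 h2 b1 h3 h4
    by_cases c1 : a1 = a ∧ b1 = b
    · obtain ⟨rfl, rfl⟩ := c1
      exact KnE1_side h haX hs hX hc h1 h2
    · by_cases c2 : a1 = b ∧ b1 = a
      · obtain ⟨rfl, rfl⟩ := c2
        rw [KnE1_dele_comm] at hs ⊢
        exact KnE1_side h hbX hs hX hc h1 h2
      · exact absurd ⟨h5, c1, c2⟩ h6

/-- (e).  There is an edge `a b` with `a, b ∈ U \ X`: otherwise every pair counted in `ed G U X` is
`(s, t)` or `(t, s)` with `s ∈ X`, `t ∈ U \ X`, so `ed G U X ≤ 2 |X| |U \ X| ≤ 2 l |U \ X|`,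
contradiction to `m1`.  If `2 l |U \ X| + 2 < ed G U X` then `dele G a b` is massed (`ed_dele`,
`m2_dele`) with fewer edges (`ed_dele` with `X = ∅`), so `X` is knitted in it (`h.min`) and in `G`
(`Knitted.graph_mono`). -/
theorem MC.e (h : MC G l x U X) (hx : x ≤ l) : ed G U X ≤ 2 * l * (U \ X).card + 2 := by
  by_contra hcon
  push Not at hcon
  obtain ⟨a, haU, haX, b, hbU, hbX, hab⟩ :
      ∃ a ∈ U, a ∉ X ∧ ∃ b ∈ U, b ∉ X ∧ G.Adj a b := by
    by_contra hno
    push Not at hno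
    have h1 : (U ×ˢ U).filter (fun p => G.Adj p.1 p.2 ∧ ¬ (p.1 ∈ X ∧ p.2 ∈ X)) ⊆
        (X ×ˢ (U \ X)) ∪ ((U \ X) ×ˢ X) := by
      intro p hp
      rw [mem_ed] at hp
      obtain ⟨⟨h2, h3⟩, h4, h5⟩ := hp
      rw [Finset.mem_union, Finset.mem_product, Finset.mem_product, Finset.mem_sdiff,
        Finset.mem_sdiff]
      by_cases c1 : p.1 ∈ X
      · left
        exact ⟨c1, h3, fun hh => h5 ⟨c1, hh⟩⟩
      · right
        refine ⟨⟨h2, c1⟩, ?_⟩
        by_contra c2
        exact hno p.1 h2 c1 p.2 h3 c2 h4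
    have h2 := Finset.card_le_card h1
    have h3 := Finset.card_union_le (X ×ˢ (U \ X)) ((U \ X) ×ˢ X)
    rw [Finset.card_product, Finset.card_product] at h3
    have h4 := h.hm.m1
    have h5 := h.cX
    have h6 : X.card * (U \ X).card ≤ l * (U \ X).card := Nat.mul_le_mul_right _ (by omega)
    have h7 : (U \ X).card * X.card = X.card * (U \ X).card := Nat.mul_comm _ _
    have h8 : 2 * l * (U \ X).card = 2 * (l * (U \ X).card) := by ring
    unfold ed at h4
    omega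
  have e1 := ed_dele (X := X) hab haU hbU haX
  have e2 := ed_dele (X := ∅) hab haU hbU (Finset.notMem_empty a)
  have hM : Massed (dele G a b) l U X := ⟨by omega, h.m2_dele haU hbU haX hbX hab⟩
  have hK := h.min (dele G a b) U X h.XU h.cX hM (Or.inr ⟨rfl, by omega⟩)
  exact h.nk (hK.graph_mono fun s t hst => hst.1)

/-- By (e) the sum of `(nb G U u).card` over `u ∈ U \ X` is at most `ed G U X` (the pairs `(u, w)` with
`u ∈ U \ X`, `w ∈ nb G U u` are counted), `U \ X` is nonempty by `m1`; if all these degrees were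
`≥ 2l+3`, then `3 |U \ X| ≤ 2`. -/
theorem MC.low (h : MC G l x U X) (hx : x ≤ l) :
    ∃ u ∈ U, u ∉ X ∧ (nb G U u).card ≤ 2 * l + 2 := by
  by_contra hcon
  push Not at hcon
  have h1 : ∑ u ∈ U \ X, (nb G U u).card ≤ ed G U X := by
    have h2 : ∑ u ∈ U \ X, (nb G U u).card =
        (((U \ X) ×ˢ U).filter (fun p : V × V => G.Adj p.1 p.2)).card := by
      rw [Finset.card_filter, Finset.sum_product]
      refine Finset.sum_congr rfl fun u _ => ?_
      unfold nb
      rw [Finset.card_filter]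
    rw [h2]
    refine Finset.card_le_card fun p hp => ?_
    rw [Finset.mem_filter, Finset.mem_product, Finset.mem_sdiff] at hp
    rw [mem_ed]
    exact ⟨⟨hp.1.1.1, hp.1.2⟩, hp.2, fun hh => hp.1.1.2 hh.1⟩
  have h2 : ∑ u ∈ U \ X, (2 * l + 3) ≤ ∑ u ∈ U \ X, (nb G U u).card := by
    refine Finset.sum_le_sum fun u hu => ?_
    rw [Finset.mem_sdiff] at hu
    exact hcon u hu.1 hu.2
  rw [Finset.sum_const, smul_eq_mul] at h2
  have h3 := h.e hx
  have h4 := h.hm.m1
  have h5 : (U \ X).card * (2 * l + 3) = 2 * l * (U \ X).card + 3 * (U \ X).card := by ring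
  have h6 : (U \ X).card = 0 := by omega
  have h7 : ed G U X = 0 := by
    unfold ed
    rw [Finset.card_eq_zero, Finset.filter_eq_empty_iff]
    rintro p hp ⟨_, h8⟩
    rw [Finset.card_eq_zero, Finset.sdiff_eq_empty_iff_subset] at h6
    rw [Finset.mem_product] at hp
    exact h8 ⟨h6 hp.1, h6 hp.2⟩
  omega

end Pool.MP_a862e4_co.H18
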