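import Pool.Agent.W_a862e4_h18.KnE1
import Pool.Agent.W_a862e4_h18.KnD2
import Pool.Agent.W_a862e4_h18.KnB3
import Pool.Agent.W_a862e4_h18.KnB4

/-!
Theorem K.
-/

set_option autoImplicit false
set_option linter.unusedSectionVars false

namespace Pool.MP_a862e4_co.H18

open Pool.MP_4929df_co.H91
open scoped Classical

variable {V : Type*} [Fintype V]

/-- a minimal counterexample exists if there is one at all -/
theorem KnE2_exists (l x : ℕ) (hbad : ∃ (G : SimpleGraph V) (U X : Finset V), X ⊆ U ∧ X.card ≤ x ∧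
    Massed G l U X ∧ ¬ Knitted G U X) : ∃ (G : SimpleGraph V) (U X : Finset V), MC G l x U X := by
  let S : Set (ℕ × ℕ) := {m | ∃ (G : SimpleGraph V) (U X : Finset V), X ⊆ U ∧ X.card ≤ x ∧
    Massed G l U X ∧ ¬ Knitted G U X ∧ (U.card, ed G U ∅) = m}
  have hS : S.Nonempty := by
    obtain ⟨G, U, X, h1, h2, h3, h4⟩ := hbad
    exact ⟨_, G, U, X, h1, h2, h3, h4, rfl⟩
  have wf : WellFounded (Prod.Lex (fun a b : ℕ => a < b) (fun a b : ℕ => a < b)) :=
    WellFounded.prod_lex wellFounded_lt wellFounded_lt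
  obtain ⟨m, ⟨G, U, X, h1, h2, h3, h4, h5⟩, hmin⟩ := wf.has_min S hS
  refine ⟨G, U, X, h1, h2, h3, h4, ?_⟩
  intro G' U' X' g1 g2 g3 g4
  by_contra g5
  refine hmin (U'.card, ed G' U' ∅) ⟨G', U', X', g1, g2, g3, g5, rfl⟩ ?_
  rw [← h5, Prod.lex_def]
  exact g4

/-- there is no minimal counterexample -/
theorem KnE2_no {G : SimpleGraph V} {l x : ℕ} (hl : 40 * x ≤ l) {U X : Finset V}
    (h : MC G l x U X) : False := by
  have hpos := h.pos
  have hcX := h.cX
  obtain ⟨u, hu, huX, hdeg⟩ := h.low (by omega)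
  have hn0 := h.d0 hu huX
  have hHU : insert u (nb G U u) ⊆ U := by
    intro y hy
    rcases Finset.mem_insert.1 hy with h1 | h1
    · exact h1 ▸ hu
    · exact (mem_nbf.1 h1).1
  have hdw : ∀ w ∈ nb G U u, l < (nb G U w ∩ nb G U u).card + X.card := by
    intro w hw
    rw [mem_nbf] at hw
    exact h.d hw.1 hu huX hw.2.symm
  have hnu : u ∉ nb G U u := fun hh => (mem_nbf.1 hh).2.ne rfl
  have hHc : (insert u (nb G U u)).card ≤ 2 * l + 3 := by
    rw [Finset.card_insert_of_notMem hnu]
    omega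
  have hd : ∀ w ∈ insert u (nb G U u), l + 2 ≤ (nb G (insert u (nb G U u)) w).card + x := by
    intro w hw
    rcases Finset.mem_insert.1 hw with h1 | h1
    · subst h1
      obtain ⟨z, hz⟩ := hn0
      have h2 := hdw z hz
      have h3 : insert z (nb G U z ∩ nb G U w) ⊆ nb G (insert w (nb G U w)) w := by
        intro y hy
        rw [mem_nbf]
        rcases Finset.mem_insert.1 hy with h4 | h4
        · subst h4
          exact ⟨Finset.mem_insert_of_mem hz, (mem_nbf.1 hz).2⟩
        · have h5 := (Finset.mem_inter.1 h4).2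
          exact ⟨Finset.mem_insert_of_mem h5, (mem_nbf.1 h5).2⟩
      have h4 := Finset.card_le_card h3
      have h5 : z ∉ nb G U z ∩ nb G U w := fun hh =>
        (mem_nbf.1 (Finset.mem_inter.1 hh).1).2.ne rfl
      rw [Finset.card_insert_of_notMem h5] at h4
      omega
    · have h2 := hdw w h1
      have h3 : insert u (nb G U w ∩ nb G U u) ⊆ nb G (insert u (nb G U u)) w := by
        intro y hy
        rw [mem_nbf]
        rcases Finset.mem_insert.1 hy with h4 | h4
        · subst h4
          exact ⟨Finset.mem_insert_self _ _, (mem_nbf.1 h1).2.symm⟩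
        · have h5 := Finset.mem_inter.1 h4
          exact ⟨Finset.mem_insert_of_mem h5.2, (mem_nbf.1 h5.1).2⟩
      have h4 := Finset.card_le_card h3
      have h5 : u ∉ nb G U w ∩ nb G U u := fun hh => hnu (Finset.mem_inter.1 hh).2
      rw [Finset.card_insert_of_notMem h5] at h4
      omega
  obtain ⟨M, hMH, hMc, hM⟩ := exists_host G l x (by omega) (insert u (nb G U u))
    ⟨u, Finset.mem_insert_self _ _⟩ hHc hd
  obtain ⟨A, B, hs, hXA, hMB, hc, hL, _⟩ := exists_min_sep G U X M h.XU (hMH.trans hHU)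
  have hK : Knitted G (B ∪ M) (A ∩ B) :=
    knitted_of_linked G B M (A ∩ B) M Finset.inter_subset_right hL
      (fun N hN hcN => host_knit G x M N hM hN (le_trans hcN (le_trans hc hcX)))
  rw [Finset.union_eq_left.2 hMB] at hK
  have hne : (B \ A).Nonempty := by
    rw [Finset.nonempty_iff_ne_empty]
    intro he
    rw [Finset.sdiff_eq_empty_iff_subset] at he
    have h1 : M ⊆ A ∩ B := fun y hy => Finset.mem_inter.2 ⟨he (hMB hy), hMB hy⟩
    have h2 := Finset.card_le_card h1
    omega
  exact h.b2 hs hXA hc hne hK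

/-- **Theorem K.**  Otherwise there is a minimal counterexample (well-founded induction on
`(U.card, ed G U ∅)`, lexicographically).  `u` from `low`, `H = insert u (nb G U u)`; for
`w ∈ nb G U u`: `h.d` for the edge `w u` (`v := u`, `u := w`) gives
`l < |nb G U w ∩ nb G U u| + |X|`, and the common neighbours and `u` lie in `nb G H w`; so
`l + 2 ≤ (nb G H w).card + x`; for `u` itself: `nb G U u` is nonempty (`d0`), so it contains `w` and the
more than `l - x` common neighbours.  `exists_host` gives `M ⊆ H ⊆ U`; `exists_min_sep G U X M` gives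
`(A, B)`, `Linked G B (A ∩ B) M`; `knitted_of_linked G B M (A ∩ B) M` with `host_knit`
(`Y.card ≤ X.card ≤ x`) gives `Knitted G (B ∪ M) (A ∩ B)`, `B ∪ M = B`; `B \ A` is nonempty since
`M ⊆ B`, `|M| ≥ l + 2 - 4x > x ≥ |A ∩ B|`.  Contradiction to `h.b2`. -/
theorem knit (G : SimpleGraph V) (l x : ℕ) (hl : 40 * x ≤ l) (U X : Finset V) (hX : X ⊆ U)
    (hc : X.card ≤ x) (hm : Massed G l U X) : Knitted G U X := by
  by_contra hk
  obtain ⟨G', U', X', h⟩ := KnE2_exists l x ⟨G, U, X, hX, hc, hm, hk⟩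
  exact KnE2_no hl h

end Pool.MP_a862e4_co.H18
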