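import Pool.Agent.W_a862e4_h18.FrC

/-!
One round, combinatorial part.
-/

set_option autoImplicit false
set_option linter.unusedSectionVars false

namespace Pool.MP_a862e4_co.H18

open Pool.MP_4929df_co.H91
open scoped Classical

variable {V : Type*} [Fintype V]

/-- A combinatorial fact: `f : s → t` surjective, `M ⊆ s` such that every `x ∈ M` has a partner `y ≠ x` in
`s` with `f y = f x`: `2 |t| + |M| ≤ 2 |s|`.  (Fibres: a fibre with one element contains no element of `M`, a fibre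
with `n ≥ 2` elements contributes `2 + |M ∩ fibre| ≤ 2 + n ≤ 2 n`; `Finset.card_eq_sum_card_fiberwise`.) -/
theorem merge_count {α β : Type*} [DecidableEq α] [DecidableEq β] (s M : Finset α) (t : Finset β)
    (f : α → β) (hf : ∀ x ∈ s, f x ∈ t) (hsurj : ∀ y ∈ t, ∃ x ∈ s, f x = y) (hM : M ⊆ s)
    (hp : ∀ x ∈ M, ∃ y ∈ s, y ≠ x ∧ f y = f x) : 2 * t.card + M.card ≤ 2 * s.card := by
  have h1 : s.card = ∑ y ∈ t, (s.filter (fun x => f x = y)).card :=
    Finset.card_eq_sum_card_fiberwise (fun x hx => hf x hx)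
  have h2 : M.card = ∑ y ∈ t, (M.filter (fun x => f x = y)).card :=
    Finset.card_eq_sum_card_fiberwise (fun x hx => hf x (hM hx))
  have h3 : 2 * t.card = ∑ _y ∈ t, 2 := by
    rw [Finset.sum_const, smul_eq_mul, mul_comm]
  rw [h1, h2, h3, ← Finset.sum_add_distrib, Finset.mul_sum]
  refine Finset.sum_le_sum fun y hy => ?_
  have h4 : (M.filter (fun x => f x = y)).card ≤ (s.filter (fun x => f x = y)).card :=
    Finset.card_le_card (Finset.filter_subset_filter _ hM)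
  by_cases h5 : (M.filter (fun x => f x = y)) = ∅
  · rw [h5, Finset.card_empty]
    obtain ⟨x, hx, hxy⟩ := hsurj y hy
    have h6 : 0 < (s.filter (fun x => f x = y)).card :=
      Finset.card_pos.2 ⟨x, Finset.mem_filter.2 ⟨hx, hxy⟩⟩
    omega
  · obtain ⟨x, hx⟩ := Finset.nonempty_iff_ne_empty.2 h5
    rw [Finset.mem_filter] at hx
    obtain ⟨x', hx', hne, hff⟩ := hp x hx.1
    have h6 : 1 < (s.filter (fun x => f x = y)).card :=
      Finset.one_lt_card.2 ⟨x', Finset.mem_filter.2 ⟨hx', hff.trans hx.2⟩, x,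
        Finset.mem_filter.2 ⟨hM hx.1, hx.2⟩, hne⟩
    omega

/-- two members of `cps` with a common vertex are equal -/
theorem RdB1_eq {H : SimpleGraph V} {S D K K' : Finset V} (hK : K ∈ cps H S D)
    (hK' : K' ∈ cps H S D) {z : V} (hz : z ∈ K) (hz' : z ∈ K') : K = K' := by
  by_contra hne
  exact Finset.disjoint_left.1 (cps_disj hK hK' hne) hz hz'

/-- members of `cps` are closed -/
theorem RdB1_closed {H : SimpleGraph V} {S D K : Finset V} (hK : K ∈ cps H S D) {a b : V}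
    (ha : a ∈ K) (hb : b ∈ D) (hab : H.Adj a b) : b ∈ K := by
  have := (mem_cps.1 hK).1.2.2 a (Finset.mem_coe.2 ha) b (Finset.mem_coe.2 hb) hab
  exact Finset.mem_coe.1 this

theorem RdB1_sub {H : SimpleGraph V} {S D K : Finset V} (hK : K ∈ cps H S D) {a : V}
    (ha : a ∈ K) : a ∈ D :=
  Finset.mem_coe.1 ((mem_cps.1 hK).1.1 (Finset.mem_coe.2 ha))

/-- a connected subset of `D` that meets a member of `cps` is contained in it -/
theorem RdB1_absorb {H : SimpleGraph V} {S D K : Finset V} (hK : K ∈ cps H S D) {Q : Set V}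
    (hQ : Cn H Q) (hQD : Q ⊆ (D : Set V)) {z : V} (hz : z ∈ Q) (hzK : z ∈ K) :
    Q ⊆ (K : Set V) := by
  refine hQ.subset_of_closed ⟨z, hz, Finset.mem_coe.2 hzK⟩ ?_
  intro a _ haK b hb hab
  exact Finset.mem_coe.2 (RdB1_closed hK (Finset.mem_coe.1 haK) (Finset.mem_coe.1 (hQD hb)) hab)

/-- Revival of `B`: `D = X \ A ⊆ D' = X \ (A \ B)`.  Every `K ∈ cps H S D` lies in exactly one
`f K ∈ cps H S D'` (`K` is connected in `D'`, `exists_cps` for a vertex of `K \ S`).  `f` is surjective: let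
`K' ∈ cps H S D'`, `z ∈ K' \ S`; by `Dom` `z` has a neighbour `w ∈ (X \ S) \ A`, `w ∈ K'`; the component of `w` in
`cps H S D` (`exists_cps`) is contained in `K'`.  If `K ∈ Mg` then `a ∈ B ∩ nbs H X K`, `R` with
`insert a R` connected, `R ⊆ X \ A`, `z ∈ R \ (S ∪ K)`: `z` is in some `K2 ∈ cps H S D`, `K2 ≠ K` and
`K ∪ insert a R ∪ K2` is connected in `D'` (`a` is adjacent to `K`), so `f K2 = f K`.  `merge_count`. -/
theorem round_det {H : SimpleGraph V} {m : ℕ} {X S A : Finset V} (hD : Dom H m X S A)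
    (B : Finset V) (Mg : Finset (Finset V)) (hMg : Mg ⊆ cps H S (X \ A))
    (hm : ∀ K ∈ Mg, ∃ a ∈ nbs H X K, a ∈ B ∧ ∃ R : Finset V, R ⊆ X \ A ∧
      Cn H (insert a (R : Set V)) ∧ (R \ (S ∪ K)).Nonempty) :
    2 * (cps H S (X \ (A \ B))).card + Mg.card ≤ 2 * (cps H S (X \ A)).card := by
  have hDD : ∀ z ∈ X \ A, z ∈ X \ (A \ B) := by
    intro z hz
    rw [Finset.mem_sdiff] at hz ⊢
    exact ⟨hz.1, fun h => hz.2 (Finset.mem_sdiff.1 h).1⟩
  have hF : ∀ K ∈ cps H S (X \ A), ∃ K' ∈ cps H S (X \ (A \ B)), K ⊆ K' := by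
    intro K hK
    obtain ⟨z, hz⟩ := (mem_cps.1 hK).2
    rw [Finset.mem_sdiff] at hz
    obtain ⟨K', hK', hzK'⟩ := exists_cps (H := H) (hDD z (RdB1_sub hK hz.1)) hz.2
    refine ⟨K', hK', ?_⟩
    have h1 : (K : Set V) ⊆ (K' : Set V) := by
      refine RdB1_absorb hK' (mem_cps.1 hK).1.2.1 ?_ (Finset.mem_coe.2 hz.1) hzK'
      intro y hy
      exact Finset.mem_coe.2 (hDD y (RdB1_sub hK (Finset.mem_coe.1 hy)))
    exact Finset.coe_subset.1 h1
  choose! f hf using hF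
  refine merge_count _ _ _ f (fun K hK => (hf K hK).1) ?_ hMg ?_
  · intro K' hK'
    obtain ⟨z, hz⟩ := (mem_cps.1 hK').2
    rw [Finset.mem_sdiff] at hz
    have hzX : z ∈ X := (Finset.mem_sdiff.1 (RdB1_sub hK' hz.1)).1
    have h1 := hD z (Finset.mem_sdiff.2 ⟨hzX, hz.2⟩)
    have h2 : 0 < (nb H ((X \ S) \ A) z).card := lt_of_le_of_lt (Nat.zero_le _) h1
    obtain ⟨w, hw⟩ := Finset.card_pos.1 h2
    rw [mem_nbf, Finset.mem_sdiff, Finset.mem_sdiff] at hw
    have hwD : w ∈ X \ A := Finset.mem_sdiff.2 ⟨hw.1.1.1, hw.1.2⟩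
    have hwK' : w ∈ K' := RdB1_closed hK' hz.1 (hDD w hwD) hw.2
    obtain ⟨K, hK, hwK⟩ := exists_cps (H := H) hwD hw.1.1.2
    exact ⟨K, hK, RdB1_eq (hf K hK).1 hK' ((hf K hK).2 hwK) hwK'⟩
  · intro K hK
    have hKc := hMg hK
    obtain ⟨a, haN, haB, R, hR, hRc, z, hz⟩ := hm K hK
    rw [Finset.mem_sdiff, Finset.mem_union, not_or] at hz
    have hzD : z ∈ X \ A := hR hz.1
    obtain ⟨K2, hK2, hzK2⟩ := exists_cps (H := H) hzD hz.2.1
    refine ⟨K2, hK2, fun h => hz.2.2 (h ▸ hzK2), ?_⟩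
    obtain ⟨haX, -, c, hc, hca⟩ := mem_nbs.1 haN
    have haD' : a ∈ X \ (A \ B) :=
      Finset.mem_sdiff.2 ⟨haX, fun h => (Finset.mem_sdiff.1 h).2 haB⟩
    have haf : a ∈ f K := RdB1_closed (hf K hKc).1 ((hf K hKc).2 hc) haD' hca
    have h3 : insert a (R : Set V) ⊆ (f K : Set V) := by
      refine RdB1_absorb (hf K hKc).1 hRc ?_ (Set.mem_insert _ _) haf
      intro y hy
      rcases Set.mem_insert_iff.1 hy with hy | hy
      · rw [hy]; exact Finset.mem_coe.2 haD'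
      · exact Finset.mem_coe.2 (hDD y (hR (Finset.mem_coe.1 hy)))
    have hzf : z ∈ f K :=
      Finset.mem_coe.1 (h3 (Set.mem_insert_of_mem _ (Finset.mem_coe.2 hz.1)))
    exact RdB1_eq (hf K2 hK2).1 (hf K hKc).1 ((hf K2 hK2).2 hzK2) hzf

/-- If `Dom` holds and there are two components then every `K ∈ cps H S (X \ A)` leaves more than
`3 m` vertices of `X \ S` outside `K ∪ nbs`: another `K' ∈ cps` contains a `z ∈ K' \ S` and its more than
`3 m` neighbours in `(X \ S) \ A`; `K'` is disjoint from `K` and from `nbs H X K ⊆ A` (`mem_cps_sdiff`). -/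
theorem far_of_two {H : SimpleGraph V} {m : ℕ} {X S A : Finset V} (hD : Dom H m X S A)
    (h2 : 2 ≤ (cps H S (X \ A)).card) : ∀ K ∈ cps H S (X \ A),
      3 * m < ((X \ S) \ (K ∪ nbs H X K)).card := by
  intro K hK
  obtain ⟨K', hK', hne⟩ := Finset.exists_mem_ne (Nat.lt_of_lt_of_le Nat.one_lt_two h2) K
  obtain ⟨z, hz⟩ := (mem_cps.1 hK').2
  rw [Finset.mem_sdiff] at hz
  have hzX : z ∈ X := (Finset.mem_sdiff.1 (RdB1_sub hK' hz.1)).1
  refine lt_of_lt_of_le (hD z (Finset.mem_sdiff.2 ⟨hzX, hz.2⟩)) (Finset.card_le_card ?_)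
  intro w hw
  rw [mem_nbf, Finset.mem_sdiff] at hw
  have hwX : w ∈ X := (Finset.mem_sdiff.1 hw.1.1).1
  have hwK' : w ∈ K' :=
    RdB1_closed hK' hz.1 (Finset.mem_sdiff.2 ⟨hwX, hw.1.2⟩) hw.2
  rw [Finset.mem_sdiff, Finset.mem_union, not_or]
  refine ⟨hw.1.1, fun h => ?_, fun h => hw.1.2 ((mem_cps_sdiff.1 hK).2.2 h)⟩
  exact Finset.disjoint_left.1 (cps_disj hK' hK hne) hwK' h

end Pool.MP_a862e4_co.H18
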