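import Pool.Agent.W_a862e4_h18.RdB1
import Pool.Agent.W_a862e4_h18.ExT

/-!
One round for a fixed set.
-/

set_option autoImplicit false
set_option linter.unusedSectionVars false

namespace Pool.MP_a862e4_co.H18

open Pool.MP_4929df_co.H91
open scoped Classical

variable {V : Type*} [Fintype V]

theorem fM_nonneg (H : SimpleGraph V) (X S A : Finset V) : 0 ≤ fM H X S A := Nat.cast_nonneg _

theorem fM_le (H : SimpleGraph V) (X S A : Finset V) : fM H X S A ≤ Fintype.card V := by
  unfold fM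
  exact_mod_cast (Nat.sub_le _ _).trans (cps_card_le H S (X \ A))

/-- **One round** for a fixed `A` with `Dom` and `Con`.  If `M = |cps H S (X \ A)| ≤ 1`: `round_det` with
`Mg = ∅` gives `fM (A \ B) ≤ 0`, also `fM A = 0`.  If `M ≥ 2`: by `far_of_two` and `Con` choose `N K` for all
`K ∈ cps`, `Mg B = {K ∈ cps | ¬ Disjoint (N K) B}`; `round_det`: `2 M'(B) + |Mg B| ≤ 2 M`, and `M'(B) ≥ 1`
(a component of `X \ A` is contained in one of `X \ (A \ B)`), so
`fM (A \ B) = M'(B) - 1 ≤ M - 1 - |Mg B| / 2`.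
`Ex |Mg B| = ∑ K, (1 - (1 - 1/k) ^ |N K|) ≥ M / 2` as `(1 - 1/k) ^ |N K| ≤ (1 - 1/k) ^ k ≤ exp (-1) ≤ 1/2`
(`Real.add_one_le_exp`, `Ex_sub_disj`).  So the expectation is `≤ M - 1 - M/4 ≤ (3/4) (M - 1)`. -/
theorem round_one {H : SimpleGraph V} {m k : ℕ} (hk : 0 < k) {X S A : Finset V}
    (hD : Dom H m X S A) (hC : Con H m k X S A) :
    Ex Finset.univ (1 / (k : ℝ)) (fun B => fM H X S (A \ B)) ≤ 3 / 4 * fM H X S A := by
  have hk' : (0 : ℝ) < k := by exact_mod_cast hk
  have hk1 : (1 : ℝ) ≤ k := by exact_mod_cast hk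
  have hq0 : (0 : ℝ) ≤ 1 / (k : ℝ) := by positivity
  have hq1 : 1 / (k : ℝ) ≤ 1 := by
    rw [div_le_one hk']
    exact hk1
  rcases Nat.lt_or_ge (cps H S (X \ A)).card 2 with h | h
  · have h0 : ∀ B : Finset V, fM H X S (A \ B) = 0 := by
      intro B
      have h1 := round_det hD B ∅ (Finset.empty_subset _) (by simp)
      rw [Finset.card_empty] at h1
      unfold fM
      have h2 : (cps H S (X \ (A \ B))).card - 1 = 0 := by omega
      rw [h2, Nat.cast_zero]
    calc Ex Finset.univ (1 / (k : ℝ)) (fun B => fM H X S (A \ B))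
        ≤ Ex Finset.univ (1 / (k : ℝ)) (fun _ => (0 : ℝ)) :=
          Ex_mono hq0 hq1 (fun B _ => (h0 B).le)
      _ = 0 := Ex_const _ _ _
      _ ≤ 3 / 4 * fM H X S A := mul_nonneg (by norm_num) (fM_nonneg H X S A)
  · have hN : ∀ K : Finset V, ∃ N : Finset V, K ∈ cps H S (X \ A) → N ⊆ nbs H X K ∧ k ≤ N.card ∧
        ∀ a ∈ N, ∃ R : Finset V, R ⊆ X \ A ∧ Cn H (insert a (R : Set V)) ∧
          (R \ (S ∪ K)).Nonempty := by
      intro K
      by_cases hK : K ∈ cps H S (X \ A)
      · obtain ⟨N, h1, h2, h3⟩ := hC K hK (far_of_two hD h K hK)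
        exact ⟨N, fun _ => ⟨h1, h2, h3⟩⟩
      · exact ⟨∅, fun h => absurd h hK⟩
    choose N hN using hN
    have hdet : ∀ B : Finset V, fM H X S (A \ B) ≤ ((cps H S (X \ A)).card - 1 : ℝ) +
        (-1 / 2) * ∑ K ∈ cps H S (X \ A), (1 + (-1) * ind (∅ ⊆ B ∧ Disjoint (N K) B)) := by
      intro B
      have h1 := round_det hD B ((cps H S (X \ A)).filter (fun K => ¬ Disjoint (N K) B))
        (Finset.filter_subset _ _) (by
          intro K hK
          rw [Finset.mem_filter] at hK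
          obtain ⟨hK1, hK2⟩ := hK
          obtain ⟨a, ha1, ha2⟩ := Finset.not_disjoint_iff.1 hK2
          obtain ⟨h3, h4, h5⟩ := hN K hK1
          exact ⟨a, h3 ha1, ha2, h5 a ha1⟩)
      have h2 : (∑ K ∈ cps H S (X \ A), (1 + (-1) * ind (∅ ⊆ B ∧ Disjoint (N K) B))) =
          (((cps H S (X \ A)).filter (fun K => ¬ Disjoint (N K) B)).card : ℝ) := by
        rw [Finset.card_filter, Nat.cast_sum]
        refine Finset.sum_congr rfl fun K _ => ?_
        by_cases hd : Disjoint (N K) B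
        · rw [ind_true ⟨Finset.empty_subset _, hd⟩, if_neg (not_not.2 hd)]
          norm_num
        · rw [ind_false (fun h => hd h.2), if_pos hd]
          norm_num
      rw [h2]
      have h3 : 1 ≤ (cps H S (X \ (A \ B))).card := by
        have h4 : (cps H S (X \ A)).Nonempty := by
          rw [← Finset.card_pos]
          omega
        obtain ⟨K, hK⟩ := h4
        rw [mem_cps] at hK
        obtain ⟨hK1, z, hz⟩ := hK
        rw [Finset.mem_sdiff] at hz
        have hz1 : z ∈ X \ A := by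
          have := hK1.1 (Finset.mem_coe.2 hz.1)
          exact Finset.mem_coe.1 this
        rw [Finset.mem_sdiff] at hz1
        have hz2 : z ∈ X \ (A \ B) :=
          Finset.mem_sdiff.2 ⟨hz1.1, fun h => hz1.2 (Finset.mem_sdiff.1 h).1⟩
        obtain ⟨K', hK', _⟩ := exists_cps (H := H) hz2 hz.2
        exact Finset.card_pos.2 ⟨K', hK'⟩
      have h5 : fM H X S (A \ B) = ((cps H S (X \ (A \ B))).card : ℝ) - 1 := by
        unfold fM
        rw [Nat.cast_sub h3, Nat.cast_one]
      rw [h5]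
      have h6 : 2 * ((cps H S (X \ (A \ B))).card : ℝ) +
          (((cps H S (X \ A)).filter (fun K => ¬ Disjoint (N K) B)).card : ℝ) ≤
            2 * ((cps H S (X \ A)).card : ℝ) := by exact_mod_cast h1
      linarith
    have hone : ∀ K ∈ cps H S (X \ A),
        Ex Finset.univ (1 / (k : ℝ)) (fun B => ind (∅ ⊆ B ∧ Disjoint (N K) B)) ≤ 1 / 2 := by
      intro K hK
      obtain ⟨-, h2, -⟩ := hN K hK
      rw [Ex_sub_disj (Finset.empty_subset _) (Finset.subset_univ _) (Finset.disjoint_empty_left _),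
        Finset.card_empty, pow_zero, one_mul]
      have h3 : (0 : ℝ) ≤ 1 - 1 / (k : ℝ) := by linarith
      have h4 : (1 : ℝ) - 1 / (k : ℝ) ≤ 1 := by linarith
      have h5 : (1 : ℝ) - 1 / (k : ℝ) ≤ Real.exp (-(1 / (k : ℝ))) := by
        have := Real.add_one_le_exp (-(1 / (k : ℝ)))
        linarith
      calc (1 - 1 / (k : ℝ)) ^ (N K).card ≤ (1 - 1 / (k : ℝ)) ^ k :=
            pow_le_pow_of_le_one h3 h4 h2
        _ ≤ Real.exp (-(1 / (k : ℝ))) ^ k := pow_le_pow_left₀ h3 h5 k
        _ = Real.exp (-1) := by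
            rw [← Real.exp_nat_mul]
            congr 1
            field_simp
        _ ≤ 1 / 2 := by
            rw [Real.exp_neg, one_div]
            apply inv_anti₀ (by norm_num)
            have := Real.add_one_le_exp (1 : ℝ)
            linarith
    have hEx : Ex Finset.univ (1 / (k : ℝ)) (fun B => ((cps H S (X \ A)).card - 1 : ℝ) +
        (-1 / 2) * ∑ K ∈ cps H S (X \ A), (1 + (-1) * ind (∅ ⊆ B ∧ Disjoint (N K) B))) =
        ((cps H S (X \ A)).card - 1 : ℝ) + (-1 / 2) * ∑ K ∈ cps H S (X \ A), (1 + (-1) *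
          Ex Finset.univ (1 / (k : ℝ)) (fun B => ind (∅ ⊆ B ∧ Disjoint (N K) B))) := by
      rw [Ex_add, Ex_const, Ex_mul_left, Ex_sum]
      congr 2
      refine Finset.sum_congr rfl fun K _ => ?_
      rw [Ex_add, Ex_const, Ex_mul_left]
    have hsum : (((cps H S (X \ A)).card : ℕ) : ℝ) * (1 / 2) ≤ ∑ K ∈ cps H S (X \ A), (1 + (-1) *
          Ex Finset.univ (1 / (k : ℝ)) (fun B => ind (∅ ⊆ B ∧ Disjoint (N K) B))) := by
      rw [← nsmul_eq_mul]
      refine Finset.card_nsmul_le_sum _ _ _ fun K hK => ?_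
      have := hone K hK
      linarith
    have hM : fM H X S A = ((cps H S (X \ A)).card : ℝ) - 1 := by
      unfold fM
      rw [Nat.cast_sub (by omega), Nat.cast_one]
    have hM2 : (2 : ℝ) ≤ ((cps H S (X \ A)).card : ℝ) := by exact_mod_cast h
    calc Ex Finset.univ (1 / (k : ℝ)) (fun B => fM H X S (A \ B))
        ≤ _ := Ex_mono hq0 hq1 (fun B _ => hdet B)
      _ = _ := hEx
      _ ≤ 3 / 4 * fM H X S A := by
          rw [hM]
          linarith

end Pool.MP_a862e4_co.H18
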