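import Pool.Agent.W_a862e4_h18.EndA
import Pool.Agent.W_a862e4_h18.EndB

/-!
The data of one step; partners.
-/

set_option autoImplicit false
set_option linter.unusedSectionVars false

namespace Pool.MP_a862e4_co.H18

open Pool.MP_4929df_co.H91
open scoped Classical

variable {V : Type*} [Fintype V]

/-- `exists_end` (`κ = 9600 b`, `4 ^ j κ = 9600 (4 ^ j b)`, `ρ = 4 ^ j b`), `exists_assign` for `S`,
`Z = X \ S`, `a = 2 b`, and `v` from the last property of `exists_end` for `F`. -/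
theorem exists_SD (G : SimpleGraph V) (b c : ℕ) (hb : 0 < b) (hc : 2 * b ≤ c) (W : Finset V)
    (hW : W.Nonempty) (hdeg : ∀ v ∈ W, 9600 * b ≤ (nb G W v).card) :
    ∃ ρ X S S1 N v, SD G b c ρ W X S S1 N v := by
  obtain ⟨j, X, S, hE, hF⟩ := exists_end G W (9600 * b) (by omega) hW hdeg
  obtain ⟨S1, N, F, h1, h2, h3, h4, h5⟩ := exists_assign G S (X \ S) (2 * b) c (by omega) hc
  obtain ⟨v, hv1, hv2, hv3⟩ := hF F h2
  have e : 4 ^ j * (9600 * b) = 9600 * (4 ^ j * b) := by ring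
  refine ⟨4 ^ j * b, X, S, S1, N, v, ⟨?_, ?_, h1, fun x hx => (h3 x hx).1, fun x hx => (h3 x hx).2,
    h4, hv1, h5 v hv1 hv2, ?_⟩⟩
  · exact Nat.le_mul_of_pos_left b (by positivity)
  · rw [← e]; exact hE
  · rw [← e]; exact hv3

/-- The partners.  `T1 = nb G (A ∩ W.erase v) v ∩ S1`, `T2 = nb G (A ∩ W.erase v) v \ S`,
`al t = N t \ A` for `t ∈ S1`, `al t = nb G W t \ A \ S` otherwise; `exists_match` with `b`:
`|N t \ A| ≥ b` by `e2`, `N2`; `z ∈ al t`, `t ∈ T1` implies `t ∈ S1 ∩ A`, `z ∈ N t`: at most `b` by `e2'`;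
`T1 ∪ T2 ⊆ nb G W v ∩ A`, `38400 |nb G W v ∩ A| ≤ 4 * 9600 ρ`, so `|T1 ∪ T2| ≤ ρ`; for `t ∈ T2`
(`t ∈ X \ S` as the neighbours of `v` lie in `X`): `|al t| ≥ 9599 ρ - 768 ρ ≥ ρ`. -/
theorem partners {G : SimpleGraph V} {b c ρ : ℕ} (hb : 0 < b) {W X S S1 A : Finset V}
    {N : V → Finset V} {v : V} (h : SD G b c ρ W X S S1 N v)
    (hA : GoodA G b ρ W X S S1 N A) :
    ∃ (T : Finset V) (π : V → V), T = (nb G (A ∩ W.erase v) v) \ (S \ S1) ∧ T.card ≤ ρ ∧
      (∀ t ∈ T, π t ∈ (X \ S) \ A ∧ G.Adj t (π t)) ∧ Set.InjOn π (T : Set V) := by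
  set B := nb G (A ∩ W.erase v) v with hB
  set T1 := B ∩ S1 with hT1
  set T2 := B \ S with hT2
  set al : V → Finset V := fun t => if t ∈ S1 then N t \ A else (nb G W t \ A) \ S with hal
  have hvX : v ∈ X := (Finset.mem_sdiff.1 h.vZ).1
  have hvW : v ∈ W := h.e.XW hvX
  have hT : T1 ∪ T2 = B \ (S \ S1) := by
    ext t
    have := @h.S1S t
    simp only [hT1, hT2, Finset.mem_union, Finset.mem_inter, Finset.mem_sdiff]
    tauto
  have hBsub : B ⊆ nb G W v ∩ A := by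
    intro t ht
    rw [hB, mem_nbf, Finset.mem_inter, Finset.mem_erase] at ht
    rw [Finset.mem_inter, mem_nbf]
    exact ⟨⟨ht.1.2.2, ht.2⟩, ht.1.1⟩
  have hcv : (nb G W v ∩ A).card ≤ ρ := by
    have h1 := hA.e1 v hvW (by
      have h2 := h.e.deg v h.vZ
      have h3 := h.bρ
      omega)
    have h2 := h.dv
    omega
  have hTcard : (T1 ∪ T2).card ≤ ρ := by
    rw [hT]
    exact (Finset.card_le_card (Finset.sdiff_subset.trans hBsub)).trans hcv
  have hT2X : ∀ t ∈ T2, t ∈ X \ S := by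
    intro t ht
    rw [hT2, Finset.mem_sdiff] at ht
    have h1 := Finset.mem_inter.1 (hBsub ht.1)
    exact Finset.mem_sdiff.2 ⟨h.e.nbX v h.vZ h1.1, ht.2⟩
  have hS : S.card ≤ 768 * ρ := by
    have := h.e.cS
    omega
  obtain ⟨π, hπ1, hπ2⟩ := exists_match T1 T2 al b hb
    (by
      intro t ht
      have htS : t ∈ S1 := (Finset.mem_inter.1 ht).2
      have h1 := h.N2 t htS
      have h2 := hA.e2 t htS
      have h3 := Finset.card_sdiff_add_card_inter (N t) A
      simp only [hal, if_pos htS]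
      omega)
    (by
      intro z
      refine le_trans (Finset.card_le_card fun t ht => ?_) (hA.e2' z)
      rw [Finset.mem_filter] at ht
      have htS : t ∈ S1 := (Finset.mem_inter.1 ht.1).2
      have htA : t ∈ A := (Finset.mem_inter.1 (hBsub (Finset.mem_inter.1 ht.1).1)).2
      have h1 := ht.2
      simp only [hal, if_pos htS, Finset.mem_sdiff] at h1
      exact Finset.mem_inter.2 ⟨Finset.mem_filter.2 ⟨htS, h1.1⟩, htA⟩)
    (by
      intro t ht
      refine hTcard.trans ?_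
      have htX := hT2X t ht
      have htS : t ∉ S1 := fun h' => (Finset.mem_sdiff.1 htX).2 (h.S1S h')
      have h1 := h.e.deg t htX
      have h2 := hA.e1 t (h.e.XW (Finset.mem_sdiff.1 htX).1) (by
        have h3 := h.bρ
        omega)
      have h3 := Finset.card_sdiff_add_card_inter (nb G W t) A
      have h4 := Finset.le_card_sdiff S (nb G W t \ A)
      simp only [hal, if_neg htS]
      omega)
  refine ⟨B \ (S \ S1), π, rfl, by rw [← hT]; exact hTcard, ?_, by rw [← hT]; exact hπ2⟩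
  intro t ht
  rw [← hT] at ht
  have h1 := hπ1 t ht
  by_cases htS : t ∈ S1
  · simp only [hal, if_pos htS, Finset.mem_sdiff] at h1
    have h2 := mem_nbf.1 (h.N1 t htS h1.1)
    exact ⟨Finset.mem_sdiff.2 ⟨h2.1, h1.2⟩, h2.2⟩
  · have ht2 : t ∈ T2 := by
      rcases Finset.mem_union.1 ht with h2 | h2
      · exact absurd (Finset.mem_inter.1 h2).2 htS
      · exact h2
    simp only [hal, if_neg htS, Finset.mem_sdiff] at h1
    have h2 := h.e.nbX t (hT2X t ht2) h1.1.1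
    exact ⟨Finset.mem_sdiff.2 ⟨Finset.mem_sdiff.2 ⟨h2, h1.2⟩, h1.1.2⟩, (mem_nbf.1 h1.1.1).2⟩

end Pool.MP_a862e4_co.H18
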