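import Pool.Agent.W_a862e4_h18.FrA

/-!
The massed pair.
-/

set_option autoImplicit false
set_option linter.unusedSectionVars false

namespace Pool.MP_a862e4_co.H18

open Pool.MP_4929df_co.H91
open scoped Classical

variable {V : Type*} [Fintype V]

/-- sum of degrees of a set outside `R` -/
theorem StB_sum {H : SimpleGraph V} {U R Z : Finset V} (hZU : Z ⊆ U) (hZR : ∀ z ∈ Z, z ∉ R) :
    ∑ z ∈ Z, (nb H U z).card ≤ ed H U R := by
  have h1 : ((Z ×ˢ U).filter (fun p => H.Adj p.1 p.2)).card = ∑ z ∈ Z, (nb H U z).card := by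
    rw [Finset.card_filter, Finset.sum_product]
    refine Finset.sum_congr rfl fun z _ => ?_
    unfold nb
    rw [Finset.card_filter]
  rw [← h1]
  refine Finset.card_le_card fun p hp => ?_
  rw [Finset.mem_filter, Finset.mem_product] at hp
  rw [mem_ed]
  exact ⟨⟨hZU hp.1.1, hp.1.2⟩, hp.2, fun h => hZR _ hp.1.1 h.1⟩

theorem StB_deg {G : SimpleGraph V} {ρ : ℕ} {W X S A : Finset V}
    (hE : End G (9600 * ρ) W X S)
    (h1 : ∀ z ∈ X \ S, 38400 * (nb G W z ∩ A).card ≤ (nb G W z).card) {z : V}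
    (hz : z ∈ X \ S) : 9599 * ρ ≤ (nb (gam G S) (X \ A) z).card := by
  have h2 : nb (gam G S) (X \ A) z = nb G W z \ A := by
    rw [← hE.nb_gam hz]
    ext w
    simp only [mem_nbf, Finset.mem_sdiff]
    tauto
  rw [h2]
  have h3 := Finset.card_sdiff_add_card_inter (nb G W z) A
  have h4 := hE.deg z hz
  have h5 := h1 z hz
  omega

/-- The pair `(gam G S` on `X \ A, R)` is `1920 ρ`-massed.
`Z' = ((X \ S) \ A) \ R`.  For `z ∈ X \ S`: `|nb G W z ∩ A| ≤ |nb G W z| / 38400`, so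
`|nb (gam G S) (X \ A) z| ≥ 9599 ρ` (`End.nb_gam`; `9600 ρ / 38400 ≤ ρ`).
`m1`: `ed ≥ ∑ z ∈ Z', |nb (gam G S) (X \ A) z| ≥ 9599 ρ |Z'|`; `(X \ A) \ R ⊆ Z' ∪ S`, `|S| ≤ 768 ρ`;
`|Z'| ≥ 9599 ρ - 768 ρ - ρ = 8830 ρ` (neighbours of a `z ∈ X \ S`);
`2 * 1920 ρ (|Z'| + 768 ρ) < 9599 ρ |Z'|`.
`m2`: let `(P, Q)` be a separation of `gam G S` on `X \ A`, `R ⊆ P`, `|P ∩ Q| < |R| ≤ ρ`.  `e3`: if
`P \ Q ⊆ S` then `R ⊆ Q` (`R` is disjoint from `S`), so `R ⊆ P ∩ Q`, contradiction.  If `Q \ P ⊆ S`: every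
pair counted in `ed (gam G S) Q (P ∩ Q)` has one entry in `Q \ P` and the other one not in `S`, so in
`P ∩ Q`: at most `2 |Q \ P| |P ∩ Q| ≤ 2 ρ |Q \ P|` pairs. -/
theorem massed_X {G : SimpleGraph V} {ρ : ℕ} (hρ : 0 < ρ) {W X S A R : Finset V}
    (hE : End G (9600 * ρ) W X S)
    (h1 : ∀ z ∈ X \ S, 38400 * (nb G W z ∩ A).card ≤ (nb G W z).card)
    (h3 : Cut3 (gam G S) ρ X S A) (hR : R ⊆ (X \ S) \ A) (hRc : R.card ≤ ρ) :
    Massed (gam G S) (1920 * ρ) (X \ A) R := by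
  have hS : S.card ≤ 768 * ρ := by
    have := hE.cS
    omega
  have hUR : (X \ A) \ R ⊆ (((X \ S) \ A) \ R) ∪ S := by
    intro a ha
    simp only [Finset.mem_sdiff, Finset.mem_union] at ha ⊢
    tauto
  have hUR' : ((X \ A) \ R).card ≤ (((X \ S) \ A) \ R).card + S.card :=
    (Finset.card_le_card hUR).trans (Finset.card_union_le _ _)
  refine ⟨?_, ?_⟩
  · obtain ⟨z, hz⟩ := hE.ne
    have h4 : nb (gam G S) (X \ A) z ⊆ ((((X \ S) \ A) \ R) ∪ S) ∪ R := by
      intro a ha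
      rw [mem_nbf] at ha
      have ha1 := ha.1
      simp only [Finset.mem_sdiff, Finset.mem_union] at ha1 ⊢
      tauto
    have h5 := (Finset.card_le_card h4).trans ((Finset.card_union_le _ _).trans
      (Nat.add_le_add_right (Finset.card_union_le _ _) _))
    have h6 := StB_deg hE h1 hz
    have h7 : ∑ z ∈ ((X \ S) \ A) \ R, 9599 * ρ ≤
        ∑ z ∈ ((X \ S) \ A) \ R, (nb (gam G S) (X \ A) z).card := by
      refine Finset.sum_le_sum fun z hz => ?_
      refine StB_deg hE h1 ?_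
      simp only [Finset.mem_sdiff] at hz ⊢
      exact hz.1.1
    rw [Finset.sum_const, smul_eq_mul] at h7
    have h8 := h7.trans (StB_sum (H := gam G S) (U := X \ A) (R := R)
      (by
        intro a ha
        simp only [Finset.mem_sdiff] at ha ⊢
        exact ⟨ha.1.1.1, ha.1.2⟩)
      (by
        intro a ha
        simp only [Finset.mem_sdiff] at ha
        exact ha.2))
    refine lt_of_lt_of_le ?_ h8
    have h9 : 3840 * ((X \ A) \ R).card < (((X \ S) \ A) \ R).card * 9599 := by omega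
    calc 2 * (1920 * ρ) * ((X \ A) \ R).card = ρ * (3840 * ((X \ A) \ R).card) := by ring
      _ < ρ * ((((X \ S) \ A) \ R).card * 9599) := Nat.mul_lt_mul_of_pos_left h9 hρ
      _ = _ := by ring
  · intro P Q hPQ hRP hlt
    rcases h3 P Q hPQ (by omega) with hc | hc
    · exfalso
      have h4 : R ⊆ P ∩ Q := by
        intro a ha
        rw [Finset.mem_inter]
        refine ⟨hRP ha, ?_⟩
        by_contra haQ
        have h5 := hc (Finset.mem_sdiff.2 ⟨hRP ha, haQ⟩)
        have h6 := hR ha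
        simp only [Finset.mem_sdiff] at h6
        exact h6.1.2 h5
      have h5 := Finset.card_le_card h4
      omega
    · have h4 : ed (gam G S) Q (P ∩ Q) ≤
          (((Q \ P) ×ˢ (P ∩ Q)) ∪ ((P ∩ Q) ×ˢ (Q \ P))).card := by
        refine Finset.card_le_card fun p hp => ?_
        rw [mem_ed, gam_adj] at hp
        obtain ⟨⟨ha, hb⟩, ⟨-, hS'⟩, hn⟩ := hp
        have hca := @hc p.1
        have hcb := @hc p.2
        simp only [Finset.mem_union, Finset.mem_product, Finset.mem_sdiff, Finset.mem_inter] at *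
        tauto
      have h5 := Finset.card_union_le ((Q \ P) ×ˢ (P ∩ Q)) ((P ∩ Q) ×ˢ (Q \ P))
      rw [Finset.card_product, Finset.card_product] at h5
      have h6 : (P ∩ Q).card ≤ ρ := by omega
      calc ed (gam G S) Q (P ∩ Q) ≤ (Q \ P).card * (P ∩ Q).card + (P ∩ Q).card * (Q \ P).card :=
            h4.trans h5
        _ = 2 * ((P ∩ Q).card * (Q \ P).card) := by ring
        _ ≤ 2 * (ρ * (Q \ P).card) := by gcongr
        _ ≤ 2 * (1920 * ρ) * (Q \ P).card := by
            have : ρ * (Q \ P).card ≤ 1920 * (ρ * (Q \ P).card) := by omega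
            calc 2 * (ρ * (Q \ P).card) ≤ 2 * (1920 * (ρ * (Q \ P).card)) := by omega
              _ = _ := by ring

end Pool.MP_a862e4_co.H18
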