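import Pool.Agent.W_a862e4_h18.StA
import Pool.Agent.W_a862e4_h18.StB
import Pool.Agent.W_a862e4_h18.KnE2
import Pool.Agent.W_a862e4_h18.KH2

/-!
The colouring step.
-/

set_option autoImplicit false
set_option linter.unusedSectionVars false

namespace Pool.MP_a862e4_co.H18

open Pool.MP_4929df_co.H91
open scoped Classical

variable {V : Type*} [Fintype V]

/-- **The step.**  `v ∉ A`: `A ∩ W = A ∩ W.erase v`.  `v ∈ A`: `A ∩ W = insert v (A ∩ W.erase v)`;
`kh` with `k = 9600 b`, `Y = A ∩ W.erase v`, `Bad = nb G Y v ∩ (S \ S1)` (at most `c` elements by `h.bad`).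
The hub condition: `T`, `π` from `partners`, `R = T.image π`, `massed_X`, `knit` with `x = ρ`, `l = 1920 ρ`;
given `f`, take `g w = (f t : ℕ)` for `w = π t`, `t ∈ T`; `K i` from `Knitted`, connected in `gam G S`, so in
`G` (`Cn.mono`), contained in `X \ A`, so disjoint from `Y`; `t` is adjacent to `π t ∈ K (f t)`. -/
theorem step {G : SimpleGraph V} {b c ρ p : ℕ} (hb : 0 < b) (hc : c + p ≤ 9600 * b)
    {W X S S1 A : Finset V} {N : V → Finset V} {v : V} (h : SD G b c ρ W X S S1 N v)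
    (hA : GoodA G b ρ W X S S1 N A) (hcol : Colb G (A ∩ W.erase v) (9600 * b)) :
    Colb G (A ∩ W) (9600 * b) ∨ Scheme G p := by
  by_cases hvA : v ∈ A
  swap
  · left
    have e1 : A ∩ W = A ∩ W.erase v := by
      ext z
      simp only [Finset.mem_inter, Finset.mem_erase]
      constructor
      · rintro ⟨h1, h2⟩
        exact ⟨h1, fun h3 => hvA (h3 ▸ h1), h2⟩
      · rintro ⟨h1, _, h2⟩
        exact ⟨h1, h2⟩
    rw [e1]
    exact hcol
  have hvX : v ∈ X := (Finset.mem_sdiff.1 h.vZ).1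
  have hvW : v ∈ W := h.e.XW hvX
  have e1 : A ∩ W = insert v (A ∩ W.erase v) := by
    ext z
    simp only [Finset.mem_inter, Finset.mem_erase, Finset.mem_insert]
    constructor
    · rintro ⟨h1, h2⟩
      by_cases hz : z = v
      · exact Or.inl hz
      · exact Or.inr ⟨h1, hz, h2⟩
    · rintro (rfl | ⟨h1, _, h2⟩)
      · exact ⟨hvA, hvW⟩
      · exact ⟨h1, h2⟩
  rw [e1]
  have hρ : 0 < ρ := lt_of_lt_of_le hb h.bρ
  obtain ⟨T, π, hT, hTc, hπ, hinj⟩ := partners hb h hA
  have hR : T.image π ⊆ (X \ S) \ A := by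
    intro w hw
    obtain ⟨t, ht, rfl⟩ := Finset.mem_image.1 hw
    exact (hπ t ht).1
  have hRc : (T.image π).card ≤ ρ := Finset.card_image_le.trans hTc
  have hRX : T.image π ⊆ X \ A := fun w hw => by
    have h1 := hR hw
    simp only [Finset.mem_sdiff] at h1 ⊢
    exact ⟨h1.1.1, h1.2⟩
  have hm : Massed (gam G S) (1920 * ρ) (X \ A) (T.image π) := by
    refine massed_X hρ h.e ?_ hA.e3 hR hRc
    intro z hz
    refine hA.e1 z (h.e.XW (Finset.mem_sdiff.1 hz).1) ?_
    exact (Nat.mul_le_mul_left 9600 h.bρ).trans (h.e.deg z hz)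
  have hk : Knitted (gam G S) (X \ A) (T.image π) :=
    knit (gam G S) (1920 * ρ) ρ (by omega) (X \ A) (T.image π) hRX hRc hm
  refine kh G (9600 * b) p (A ∩ W.erase v) v (by simp)
    (nb G (A ∩ W.erase v) v ∩ (S \ S1)) ?_ hcol ?_
  · have h1 : (nb G (A ∩ W.erase v) v ∩ (S \ S1)).card ≤ (nb G (S \ S1) v).card := by
      refine Finset.card_le_card fun t ht => ?_
      rw [Finset.mem_inter, mem_nbf] at ht
      rw [mem_nbf]
      exact ⟨ht.2, ht.1.2⟩
    have h2 := h.bad
    omega
  · intro f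
    let g : V → ℕ := fun w => if hw : ∃ t ∈ T, π t = w then (f hw.choose : ℕ) else 0
    have hg : ∀ t ∈ T, g (π t) = (f t : ℕ) := by
      intro t ht
      have hw : ∃ t' ∈ T, π t' = π t := ⟨t, ht, rfl⟩
      have h1 : hw.choose = t :=
        hinj (by exact_mod_cast hw.choose_spec.1) (by exact_mod_cast ht) hw.choose_spec.2
      show (if hw : ∃ t' ∈ T, π t' = π t then (f hw.choose : ℕ) else 0) = _
      rw [dif_pos hw, h1]
    obtain ⟨K, hK1, hK2, hK3, hK4⟩ := hk g
    refine ⟨fun i => K i, ?_, ?_, ?_, ?_⟩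
    · intro i
      rcases hK2 i with h1 | h1
      · exact Or.inl h1
      · exact Or.inr (Cn.mono (G := gam G S) (G' := G) (fun a b hab => (gam_adj.1 hab).1) h1)
    · intro i j hij
      exact hK3 i j (fun h1 => hij (Fin.ext h1))
    · intro i
      rw [Set.disjoint_left]
      intro z hz hz'
      have h1 := hK1 i hz
      rw [Finset.mem_coe, Finset.mem_sdiff] at h1
      rw [Finset.mem_coe, Finset.mem_inter] at hz'
      exact h1.2 hz'.1
    · intro t ht htB
      have htT : t ∈ T := by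
        rw [hT, Finset.mem_sdiff]
        exact ⟨ht, fun h1 => htB (Finset.mem_inter.2 ⟨ht, h1⟩)⟩
      refine ⟨π t, ?_, (hπ t htT).2⟩
      have h1 := hK4 (π t) (Finset.mem_image_of_mem π htT)
      rw [hg t htT] at h1
      exact h1

end Pool.MP_a862e4_co.H18
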